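import Pool.Agent.Helper75.GD.Main
import Pool.Agent.Helper75.GC.FMo

/-!
# Exceptional sets (MP_fb29e9_nt): corollaries for general notions of small sets

`F`: a filter of sets of parameters (complements of small sets) which is local: a set is small if it is small near each of its points.
-/

open MeasureTheory Real Set Filter Topology
open scoped ENNReal NNReal

set_option autoImplicit false

namespace Pool.Agent.Helper75.GD

open Pool.Agent.Helper22.AE
open Pool.Agent.Helper22.AC (cntc)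
open Pool.Agent.Helper75.GCF (Mo vel exists_clamp Mo_congr He qt pd_c qt_pos rho_He forms_Mo He_cnt cQ)

/-- a set is small if it is small near each of its points -/
def IsLoc (F : Filter ℝ) : Prop := ∀ S : Set ℝ, (∀ s ∈ S, ∃ V : Set ℝ, IsOpen V ∧ s ∈ V ∧ (V ∩ S)ᶜ ∈ F) → Sᶜ ∈ F

theorem isLoc_ae : IsLoc (ae (volume : Measure ℝ)) := by
  intro S h
  rw [mem_ae_iff, compl_compl]
  refine measure_null_of_locally_null _ fun s hs => ?_
  obtain ⟨V, hV, hsV, h1⟩ := h s hs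
  rw [mem_ae_iff, compl_compl] at h1
  exact ⟨V ∩ S, Filter.inter_mem (mem_nhdsWithin_of_mem_nhds (hV.mem_nhds hsV)) self_mem_nhdsWithin, h1⟩

/-- the complements of the sets of dimension at most `D` -/
noncomputable def dimF (D : ℝ≥0∞) : Filter ℝ where
  sets := {A | dimH Aᶜ ≤ D}
  univ_sets := by
    rw [mem_ofPred_eq, compl_univ, dimH_empty]
    exact bot_le
  sets_of_superset := by
    intro A B hA hAB
    exact (dimH_mono (compl_subset_compl.2 hAB)).trans hA
  inter_sets := by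
    intro A B hA hB
    rw [mem_ofPred_eq, compl_inter, dimH_union]
    exact max_le hA hB

theorem mem_dimF {D : ℝ≥0∞} {A : Set ℝ} : A ∈ dimF D ↔ dimH Aᶜ ≤ D := Iff.rfl

theorem isLoc_dim (D : ℝ≥0∞) : IsLoc (dimF D) := by
  intro S h
  rw [mem_dimF, compl_compl]
  by_contra hcon
  obtain ⟨s, hs, h1⟩ := exists_mem_nhdsWithin_lt_dimH_of_lt_dimH (not_le.1 hcon)
  obtain ⟨V, hV, hsV, h2⟩ := h s hs
  rw [mem_dimF, compl_compl] at h2
  exact absurd (h1 (V ∩ S) (Filter.inter_mem (mem_nhdsWithin_of_mem_nhds (hV.mem_nhds hsV)) self_mem_nhdsWithin)) (not_lt.2 h2)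

theorem isLoc_sup {F G : Filter ℝ} (hF : IsLoc F) (hG : IsLoc G) : IsLoc (F ⊔ G) := by
  intro S h
  refine ⟨hF S fun s hs => ?_, hG S fun s hs => ?_⟩
  · obtain ⟨V, hV, hsV, h1⟩ := h s hs
    exact ⟨V, hV, hsV, h1.1⟩
  · obtain ⟨V, hV, hsV, h1⟩ := h s hs
    exact ⟨V, hV, hsV, h1.2⟩

/-- the bound for the oval with support function `G` -/
def Ex (θ : ℝ) (G : ℝ → ℝ) : Prop := ∀ ε : ℝ, 0 < ε → ∃ C : ℝ, ∀ R : ℝ, 1 ≤ R → ∀ c : ℝ × ℝ, |cntc G c R - area G * R ^ 2| ≤ C * R ^ (θ + ε)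

/-- the theorem for families on the line, the property `P` -/
def MainF (F : Filter ℝ) (P : (ℝ → ℝ) → Prop) : Prop := ∀ H : ℝ → ℝ → ℝ, (ContDiff ℝ 7 fun q : ℝ × ℝ => H q.1 q.2) → (∀ s, Function.Periodic (H s) (2 * π)) →
  ∀ᶠ s : ℝ in F, (∀ θ, 0 < rho (H s) θ) → Mo H s → P (H s)

/-- families on an open set of parameters, for any property -/
theorem mainF {F : Filter ℝ} (hF : IsLoc F) {P : (ℝ → ℝ) → Prop} (hG : MainF F P) {I : Set ℝ} (hI : IsOpen I) {H : ℝ → ℝ → ℝ} (h : ContDiffOn ℝ 7 (fun q : ℝ × ℝ => H q.1 q.2) (I ×ˢ univ))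
    (hp : ∀ s ∈ I, Function.Periodic (H s) (2 * π)) : ∀ᶠ s : ℝ in F, s ∈ I → (∀ θ, 0 < rho (H s) θ) → Mo H s → P (H s) := by
  have key := hF {s | ¬(s ∈ I → (∀ θ, 0 < rho (H s) θ) → Mo H s → P (H s))} fun s₀ hs₀ => ?_
  · refine Filter.mem_of_superset key ?_
    intro s hs
    rw [mem_compl_iff, mem_ofPred_eq, not_not] at hs
    exact hs
  have h0 : s₀ ∈ I := by
    by_contra hcon
    exact hs₀ fun h => absurd h hcon
  obtain ⟨g, hg, hgI, V, hV, hsV, -, hgV⟩ := exists_clamp (hI.mem_nhds h0)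
  have h1 : ContDiff ℝ 7 fun q : ℝ × ℝ => H (g q.1) q.2 := by
    have h2 : ContDiffOn ℝ 7 (fun q : ℝ × ℝ => H (g q.1) q.2) univ := by
      refine h.comp (f := fun q : ℝ × ℝ => (g q.1, q.2)) ?_ fun q _ => ⟨hgI q.1, mem_univ _⟩
      exact ((hg.comp contDiff_fst).prodMk contDiff_snd).contDiffOn
    exact contDiffOn_univ.1 h2
  have h3 := hG (fun s => H (g s)) h1 fun s => hp _ (hgI s)
  refine ⟨V, hV, hsV, Filter.mem_of_superset h3 ?_⟩
  rintro s h4 ⟨hs1, hs2⟩
  refine hs2 fun _ h5 h6 => ?_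
  have e : H (g s) = H s := by rw [hgV s hs1]
  rw [mem_ofPred_eq] at h4
  simp only [e] at h4
  exact h4 h5 ((Mo_congr hV (fun s' hs' => by simp only [hgV s' hs']) hs1).2 h6)

/-- **curves of positive definite quadratic forms** -/
theorem forms_main {F : Filter ℝ} (hF : IsLoc F) {e : ℝ} (hG : MainF F (Ex e)) {I : Set ℝ} (hI : IsOpen I) {a b c : ℝ → ℝ} (ha : ContDiffOn ℝ 7 a I) (hb : ContDiffOn ℝ 7 b I) (hc : ContDiffOn ℝ 7 c I) :
    ∀ᶠ s : ℝ in F, s ∈ I → 0 < a s → b s ^ 2 < 4 * a s * c s → ¬(a s * deriv b s = deriv a s * b s ∧ a s * deriv c s = deriv a s * c s) →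
      ∀ ε : ℝ, 0 < ε → ∃ C : ℝ, ∀ R : ℝ, 1 ≤ R → ∀ v : ℝ × ℝ,
        |(cQ (a s) (b s) (c s) v R : ℝ) - 2 * π / √(4 * a s * c s - b s ^ 2) * R ^ 2| ≤ C * R ^ (e + ε) := by
  obtain ⟨J, hJ⟩ : ∃ J : Set ℝ, J = I ∩ {s | 0 < a s ∧ 0 < 4 * a s * c s - b s ^ 2} := ⟨_, rfl⟩
  have hJo : IsOpen J := by
    have h1 : ContinuousOn (fun s => (a s, 4 * a s * c s - b s ^ 2)) I :=
      ha.continuousOn.prodMk (((continuousOn_const.mul ha.continuousOn).mul hc.continuousOn).sub (hb.continuousOn.pow 2))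
    have h2 := h1.isOpen_inter_preimage hI (isOpen_Ioi.prod isOpen_Ioi) (t := Ioi (0 : ℝ) ×ˢ Ioi (0 : ℝ))
    rw [hJ]
    exact h2
  have hsm : ContDiffOn ℝ 7 (fun q : ℝ × ℝ => He (a q.1) (b q.1) (c q.1) q.2) (J ×ˢ univ) := by
    have hsub : MapsTo Prod.fst (J ×ˢ (univ : Set ℝ)) I := by
      rintro ⟨s, θ⟩ ⟨h1, -⟩
      rw [hJ] at h1
      exact h1.1
    have a1 : ContDiffOn ℝ 7 (fun q : ℝ × ℝ => a q.1) (J ×ˢ univ) := ha.comp contDiff_fst.contDiffOn hsub
    have b1 : ContDiffOn ℝ 7 (fun q : ℝ × ℝ => b q.1) (J ×ˢ univ) := hb.comp contDiff_fst.contDiffOn hsub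
    have c1 : ContDiffOn ℝ 7 (fun q : ℝ × ℝ => c q.1) (J ×ˢ univ) := hc.comp contDiff_fst.contDiffOn hsub
    have k1 : ContDiffOn ℝ 7 (fun q : ℝ × ℝ => cos q.2) (J ×ˢ univ) := (contDiff_cos.comp contDiff_snd).contDiffOn
    have k2 : ContDiffOn ℝ 7 (fun q : ℝ × ℝ => sin q.2) (J ×ˢ univ) := (contDiff_sin.comp contDiff_snd).contDiffOn
    have hD : ContDiffOn ℝ 7 (fun q : ℝ × ℝ => 4 * a q.1 * c q.1 - b q.1 ^ 2) (J ×ˢ univ) :=
      ((contDiffOn_const.mul a1).mul c1).sub (b1.pow 2)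
    have hne : ∀ q ∈ J ×ˢ (univ : Set ℝ), 0 < a q.1 ∧ 0 < 4 * a q.1 * c q.1 - b q.1 ^ 2 := by
      rintro ⟨s, θ⟩ ⟨h1, -⟩
      rw [hJ] at h1
      exact h1.2
    unfold He qt
    refine ContDiffOn.sqrt ?_ ?_
    · refine ((((contDiffOn_const.mul c1).div hD fun q hq => (hne q hq).2.ne').mul (k1.pow 2)).add
        ((((contDiffOn_const.mul b1).neg).div hD fun q hq => (hne q hq).2.ne').mul (k1.mul k2))).add
        (((contDiffOn_const.mul a1).div hD fun q hq => (hne q hq).2.ne').mul (k2.pow 2))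
    · intro q hq
      obtain ⟨h1, h2⟩ := hne q hq
      have h3 := pd_c h1 (show b q.1 ^ 2 < 4 * a q.1 * c q.1 by linarith)
      have h4 := qt_pos (A := 4 * c q.1 / (4 * a q.1 * c q.1 - b q.1 ^ 2)) (B := -(4 * b q.1) / (4 * a q.1 * c q.1 - b q.1 ^ 2))
        (C := 4 * a q.1 / (4 * a q.1 * c q.1 - b q.1 ^ 2)) (by positivity) (by
          have e : 4 * (4 * c q.1 / (4 * a q.1 * c q.1 - b q.1 ^ 2)) * (4 * a q.1 / (4 * a q.1 * c q.1 - b q.1 ^ 2)) -
              (-(4 * b q.1) / (4 * a q.1 * c q.1 - b q.1 ^ 2)) ^ 2 = 16 / (4 * a q.1 * c q.1 - b q.1 ^ 2) := by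
            field_simp
            ring
          have h5 : 0 < 16 / (4 * a q.1 * c q.1 - b q.1 ^ 2) := by positivity
          linarith) q.2
      exact h4.ne'
  have hper : ∀ s ∈ J, Function.Periodic (He (a s) (b s) (c s)) (2 * π) := by
    intro s _ θ
    unfold He qt
    rw [cos_add_two_pi, sin_add_two_pi]
  have h := mainF hF hG hJo (H := fun s => He (a s) (b s) (c s)) hsm hper
  filter_upwards [h] with s hs hsI h0 hd hi ε hε
  have hsJ : s ∈ J := by
    rw [hJ]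
    exact ⟨hsI, h0, by linarith⟩
  have da : HasDerivAt a (deriv a s) s := ((ha.contDiffAt (hI.mem_nhds hsI)).differentiableAt (by norm_num)).hasDerivAt
  have db : HasDerivAt b (deriv b s) s := ((hb.contDiffAt (hI.mem_nhds hsI)).differentiableAt (by norm_num)).hasDerivAt
  have dc : HasDerivAt c (deriv c s) s := ((hc.contDiffAt (hI.mem_nhds hsI)).differentiableAt (by norm_num)).hasDerivAt
  obtain ⟨C, hC⟩ := hs hsJ (fun θ => (rho_He h0 hd θ).1) (forms_Mo da db dc h0 hd hi) ε hε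
  refine ⟨C, fun R hR v => ?_⟩
  obtain ⟨h1, h2⟩ := He_cnt h0 hd (show 0 ≤ R by linarith) v
  have h3 := hC R hR v
  rwa [h1, h2] at h3

/-- every lattice, almost every stretch -/
theorem stretch_main {F : Filter ℝ} (hF : IsLoc F) {e : ℝ} (hG : MainF F (Ex e)) (u v : ℝ × ℝ) (huv : u.1 * v.2 - u.2 * v.1 ≠ 0) : ∀ᶠ α : ℝ in F, 0 < α → ∀ ε : ℝ, 0 < ε → ∃ C : ℝ, ∀ R : ℝ, 1 ≤ R → ∀ c : ℝ × ℝ,
      |(Nat.card {k : ℤ × ℤ // ((k.1 : ℝ) * u.1 + k.2 * v.1 - c.1) ^ 2 + α * ((k.1 : ℝ) * u.2 + k.2 * v.2 - c.2) ^ 2 ≤ R ^ 2} : ℝ) -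
        π * R ^ 2 / (√α * |u.1 * v.2 - u.2 * v.1|)| ≤ C * R ^ (e + ε) := by
  obtain ⟨a, ha⟩ : ∃ a : ℝ → ℝ, a = fun α => u.1 ^ 2 + α * u.2 ^ 2 := ⟨_, rfl⟩
  obtain ⟨b, hb⟩ : ∃ b : ℝ → ℝ, b = fun α => 2 * (u.1 * v.1) + α * (2 * (u.2 * v.2)) := ⟨_, rfl⟩
  obtain ⟨c, hc⟩ : ∃ c : ℝ → ℝ, c = fun α => v.1 ^ 2 + α * v.2 ^ 2 := ⟨_, rfl⟩
  have sa : ContDiff ℝ 7 a := by rw [ha]; fun_prop
  have sb : ContDiff ℝ 7 b := by rw [hb]; fun_prop
  have sc : ContDiff ℝ 7 c := by rw [hc]; fun_prop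
  have lin : ∀ p q α : ℝ, HasDerivAt (fun α : ℝ => p + α * q) q α := by
    intro p q α
    have := ((hasDerivAt_id α).mul_const q).const_add p
    simpa using this
  have da : ∀ α, deriv a α = u.2 ^ 2 := fun α => by rw [ha]; exact (lin _ _ α).deriv
  have db : ∀ α, deriv b α = 2 * (u.2 * v.2) := fun α => by rw [hb]; exact (lin _ _ α).deriv
  have dc : ∀ α, deriv c α = v.2 ^ 2 := fun α => by rw [hc]; exact (lin _ _ α).deriv
  filter_upwards [forms_main hF hG isOpen_univ sa.contDiffOn sb.contDiffOn sc.contDiffOn] with α h h0 ε hε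
  obtain ⟨d, hd⟩ : ∃ d, d = u.1 * v.2 - u.2 * v.1 := ⟨_, rfl⟩
  rw [← hd] at huv ⊢
  have hd2 : 0 < d ^ 2 := by positivity
  have e1 : 4 * a α * c α - b α ^ 2 = 4 * α * d ^ 2 := by
    rw [ha, hb, hc, hd]
    ring
  have h1 : 0 < a α := by
    have h2 : 0 ≤ a α := by
      rw [ha]
      positivity
    rcases h2.lt_or_eq with h3 | h3
    · exact h3
    · exfalso
      rw [← h3] at e1
      have h4 : 0 < 4 * α * d ^ 2 := by positivity
      nlinarith [sq_nonneg (b α)]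
  have h2 : b α ^ 2 < 4 * a α * c α := by
    have h4 : 0 < 4 * α * d ^ 2 := by positivity
    linarith
  have h3 : ¬(a α * deriv b α = deriv a α * b α ∧ a α * deriv c α = deriv a α * c α) := by
    rintro ⟨h4, h5⟩
    rw [da, db, ha, hb] at h4
    rw [da, dc, ha, hc] at h5
    simp only at h4 h5
    have h6 : u.1 * u.2 * d = 0 := by
      rw [hd]
      linear_combination h4 / 2
    have h7 : (u.1 * v.2 + u.2 * v.1) * d = 0 := by
      rw [hd]
      linear_combination h5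
    have h8 : u.1 * u.2 = 0 := (mul_eq_zero.1 h6).resolve_right huv
    have h9 : u.1 * v.2 + u.2 * v.1 = 0 := (mul_eq_zero.1 h7).resolve_right huv
    apply huv
    rw [hd]
    rcases mul_eq_zero.1 h8 with h10 | h10
    · rw [h10] at h9 ⊢
      linarith
    · rw [h10] at h9 ⊢
      linarith
  obtain ⟨C, hC⟩ := h (mem_univ α) h1 h2 h3 ε hε
  refine ⟨C, fun R hR p => ?_⟩
  obtain ⟨x, hx⟩ : ∃ x : ℝ × ℝ, x = ((v.2 * p.1 - v.1 * p.2) / d, (u.1 * p.2 - u.2 * p.1) / d) := ⟨_, rfl⟩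
  have hx1 : x.1 * u.1 + x.2 * v.1 = p.1 := by
    have g1 : x.1 * u.1 + x.2 * v.1 = p.1 * (u.1 * v.2 - u.2 * v.1) / d := by
      rw [hx]
      simp only
      ring
    rw [g1, ← hd, mul_div_cancel_right₀ _ huv]
  have hx2 : x.1 * u.2 + x.2 * v.2 = p.2 := by
    have g1 : x.1 * u.2 + x.2 * v.2 = p.2 * (u.1 * v.2 - u.2 * v.1) / d := by
      rw [hx]
      simp only
      ring
    rw [g1, ← hd, mul_div_cancel_right₀ _ huv]
  have h4 := hC R hR x
  have e2 : (cQ (a α) (b α) (c α) x R : ℝ) =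
      (Nat.card {k : ℤ × ℤ // ((k.1 : ℝ) * u.1 + k.2 * v.1 - p.1) ^ 2 + α * ((k.1 : ℝ) * u.2 + k.2 * v.2 - p.2) ^ 2 ≤ R ^ 2} : ℝ) := by
    unfold cQ
    congr 1
    refine Nat.card_congr (Equiv.subtypeEquivRight fun k => ?_)
    have e3 : a α * ((k.1 : ℝ) - x.1) ^ 2 + b α * ((k.1 : ℝ) - x.1) * ((k.2 : ℝ) - x.2) + c α * ((k.2 : ℝ) - x.2) ^ 2 =
        ((k.1 : ℝ) * u.1 + k.2 * v.1 - p.1) ^ 2 + α * ((k.1 : ℝ) * u.2 + k.2 * v.2 - p.2) ^ 2 := by
      rw [← hx1, ← hx2, ha, hb, hc]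
      ring
    rw [e3]
  have e4 : 2 * π / √(4 * a α * c α - b α ^ 2) * R ^ 2 = π * R ^ 2 / (√α * |d|) := by
    have e5 : √(4 * a α * c α - b α ^ 2) = 2 * (√α * |d|) := by
      rw [e1, show 4 * α * d ^ 2 = α * (2 * d) ^ 2 by ring, sqrt_mul h0.le, sqrt_sq_eq_abs, abs_mul, abs_two]
      ring
    have h5 : 0 < √α := sqrt_pos.2 h0
    have h6 : 0 < |d| := abs_pos.2 huv
    rw [e5]
    field_simp
  rwa [e2, e4] at h4

/-- rotations of an oval -/
theorem rot_main {F : Filter ℝ} {P : (ℝ → ℝ) → Prop} (hG : MainF F P) {G : ℝ → ℝ} (h : ContDiff ℝ 7 G) (hp : Function.Periodic G (2 * π)) (hr : ∀ t, 0 < rho G t)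
    (hm : ∀ t, deriv (deriv fun t => log (rho G t)) t ≠ 0 ∨ deriv (deriv (deriv fun t => log (rho G t))) t ≠ 0) : ∀ᶠ s : ℝ in F, P (fun t => G (t - s)) := by
  have h1 := hG (fun s t => G (t - s)) (h.comp (contDiff_snd.sub contDiff_fst)) fun s t => by
    simp only
    rw [show t + 2 * π - s = t - s + 2 * π by ring]
    exact hp _
  have hd : ∀ (f : ℝ → ℝ) (s : ℝ), deriv (fun t => f (t - s)) = fun t => deriv f (t - s) := by
    intro f s
    funext t
    exact deriv_comp_sub_const f s t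
  have e1 : ∀ s, rho (fun t => G (t - s)) = fun t => rho G (t - s) := by
    intro s
    funext t
    unfold rho
    rw [hd, hd]
  have e2 : ∀ s, vel (fun s t => G (t - s)) s = fun t => -deriv (fun t => log (rho G t)) (t - s) := by
    intro s
    funext t
    unfold vel
    simp only [e1]
    exact deriv_comp_const_sub (fun t => log (rho G t)) t s
  filter_upwards [h1] with s hs
  refine hs (fun t => ?_) fun t => ?_
  · rw [e1]
    exact hr _
  · have e3 : deriv (fun t => -deriv (fun t => log (rho G t)) (t - s)) = fun t => -deriv (deriv fun t => log (rho G t)) (t - s) := by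
      funext t
      rw [deriv.fun_neg, deriv_comp_sub_const (deriv fun t => log (rho G t)) s t]
    have e4 : deriv (fun t => -deriv (deriv fun t => log (rho G t)) (t - s)) = fun t => -deriv (deriv (deriv fun t => log (rho G t))) (t - s) := by
      funext t
      rw [deriv.fun_neg, deriv_comp_sub_const (deriv (deriv fun t => log (rho G t))) s t]
    rw [e2, e3, e4]
    simp only [neg_ne_zero]
    exact hm _

/-- lines in the space of support functions: the Minkowski sums `D + s K` -/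
theorem line_main {F : Filter ℝ} {P : (ℝ → ℝ) → Prop} (hG : MainF F P) {G K : ℝ → ℝ} (h : ContDiff ℝ 7 G) (hK : ContDiff ℝ 7 K) (hp : Function.Periodic G (2 * π))
    (hpK : Function.Periodic K (2 * π)) (hm : ∀ t, deriv (rho G) t * rho K t ≠ rho G t * deriv (rho K) t ∨
      deriv (deriv (rho G)) t * rho K t ≠ rho G t * deriv (deriv (rho K)) t) :
    ∀ᶠ s : ℝ in F, (∀ t, 0 < rho G t + s * rho K t) → P (fun t => G t + s * K t) := by
  have h1 := hG (fun s t => G t + s * K t) ((h.comp contDiff_snd).add (contDiff_fst.mul (hK.comp contDiff_snd))) fun s t => by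
    simp only
    rw [hp t, hpK t]
  have c0 : ∀ {G : ℝ → ℝ}, ContDiff ℝ 7 G → ContDiff ℝ 5 (rho G) := by
    intro G h
    unfold rho
    exact (h.of_le (by norm_num)).add (h.iterate_deriv' 5 2)
  have g1 : ∀ {G : ℝ → ℝ}, ContDiff ℝ 7 G → (∀ t, HasDerivAt G (deriv G t) t) ∧ ∀ t, HasDerivAt (deriv G) (deriv (deriv G) t) t := fun {G} h =>
    ⟨fun t => ((h.differentiable (by norm_num)) t).hasDerivAt, fun t => (((h.iterate_deriv' 6 1).differentiable (by norm_num)) t).hasDerivAt⟩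
  have g2 : ∀ {G : ℝ → ℝ}, ContDiff ℝ 7 G → (∀ t, HasDerivAt (rho G) (deriv (rho G) t) t) ∧ ∀ t, HasDerivAt (deriv (rho G)) (deriv (deriv (rho G)) t) t :=
    fun {G} h => ⟨fun t => (((c0 h).differentiable (by norm_num)) t).hasDerivAt, fun t => ((((c0 h).iterate_deriv' 4 1).differentiable (by norm_num)) t).hasDerivAt⟩
  have e1 : ∀ s, rho (fun t => G t + s * K t) = fun t => rho G t + s * rho K t := by
    intro s
    funext t
    unfold rho
    have e2 : deriv (fun t => G t + s * K t) = fun t => deriv G t + s * deriv K t := by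
      funext t
      exact (((g1 h).1 t).add (((g1 hK).1 t).const_mul s)).deriv
    have e3 : deriv (fun t => deriv G t + s * deriv K t) t = deriv (deriv G) t + s * deriv (deriv K) t :=
      (((g1 h).2 t).add (((g1 hK).2 t).const_mul s)).deriv
    rw [e2, e3]
    ring
  filter_upwards [h1] with s hs hpos
  have e2 : vel (fun s t => G t + s * K t) s = fun t => rho K t / (rho G t + s * rho K t) := by
    funext t
    unfold vel
    simp only [e1]
    have h2 : HasDerivAt (fun s => rho G t + s * rho K t) (1 * rho K t) s := ((hasDerivAt_id s).mul_const (rho K t)).const_add _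
    have h3 := h2.log (hpos t).ne'
    rw [h3.deriv, one_mul]
  have hq : ∀ t, HasDerivAt (fun t => rho G t + s * rho K t) (deriv (rho G) t + s * deriv (rho K) t) t :=
    fun t => ((g2 h).1 t).add (((g2 hK).1 t).const_mul s)
  have e3 : deriv (fun t => rho K t / (rho G t + s * rho K t)) =
      fun t => (rho G t * deriv (rho K) t - deriv (rho G) t * rho K t) / (rho G t + s * rho K t) ^ 2 := by
    funext t
    have h2 := (((g2 hK).1 t).div (hq t) (hpos t).ne').deriv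
    refine Eq.trans h2 ?_
    congr 1
    ring
  refine hs (fun t => ?_) fun t => ?_
  · rw [e1]
    exact hpos t
  · rw [e2, e3]
    by_contra hcon
    push Not at hcon
    obtain ⟨h2, h3⟩ := hcon
    have hp2 := pow_pos (hpos t) 2
    have h4 : rho G t * deriv (rho K) t - deriv (rho G) t * rho K t = 0 := by
      rcases div_eq_zero_iff.1 h2 with h | h
      · exact h
      · exact absurd h hp2.ne'
    have h8 : HasDerivAt (fun t => rho G t * deriv (rho K) t - deriv (rho G) t * rho K t)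
        (rho G t * deriv (deriv (rho K)) t - deriv (deriv (rho G)) t * rho K t) t := by
      refine ((((g2 h).1 t).mul ((g2 hK).2 t)).sub (((g2 h).2 t).mul ((g2 hK).1 t))).congr_deriv ?_
      ring
    have h5 := h8.div ((hq t).pow 2) hp2.ne'
    have h6 : deriv (fun t => (rho G t * deriv (rho K) t - deriv (rho G) t * rho K t) / (rho G t + s * rho K t) ^ 2) t = _ := h5.deriv
    rw [h6] at h3
    simp only [Pi.pow_apply, h4, zero_mul, sub_zero] at h3
    have h7 : rho G t * deriv (deriv (rho K)) t - deriv (deriv (rho G)) t * rho K t = 0 := by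
      rcases div_eq_zero_iff.1 h3 with h | h
      · rcases mul_eq_zero.1 h with h | h
        · exact h
        · exact absurd h hp2.ne'
      · exact absurd h (by positivity)
    rcases hm t with h | h
    · exact h (by linarith)
    · exact h (by linarith)

/-- the complements of the small sets of level `e` -/
noncomputable def smF (e : ℝ) : Filter ℝ := ae (volume : Measure ℝ) ⊔ dimF (ENNReal.ofReal (Dm e))

theorem isLoc_small (e : ℝ) : IsLoc (smF e) := isLoc_sup isLoc_ae (isLoc_dim _)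

/-- the main theorem for families on the line -/
theorem main_small {a b : ℝ × ℝ} (hab : a.1 * b.2 - a.2 * b.1 ≠ 0) {e : ℝ} (he : 5 / 9 ≤ e) (he1 : e < 1) :
    MainF (smF e) fun G => ∀ ε : ℝ, 0 < ε → ∃ C : ℝ, ∀ R : ℝ, 1 ≤ R → ∀ c : ℝ × ℝ,
      |Pool.Agent.Helper92.LA.lcnt (a, b) G c R - (area G * R ^ 2 / |a.1 * b.2 - a.2 * b.1|)| ≤ C * R ^ (e + ε) := by
  intro H h hp
  refine ⟨?_, ?_⟩
  · have h1 := Pool.Agent.Helper92.GV.mainGL hab h hp
    filter_upwards [h1] with s hs h2 h3 ε hε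
    obtain ⟨C, hC⟩ := hs h2 h3 ε hε
    refine ⟨|C|, fun R hR c => (hC R hR c).trans ?_⟩
    calc C * R ^ (5 / 9 + ε) ≤ |C| * R ^ (5 / 9 + ε) := mul_le_mul_of_nonneg_right (le_abs_self C) (by positivity)
      _ ≤ |C| * R ^ (e + ε) := mul_le_mul_of_nonneg_left (rpow_le_rpow_of_exponent_le hR (by linarith)) (abs_nonneg C)
  · refine (dimH_mono ?_).trans (dimGL hab h hp he he1)
    intro s hs
    rw [mem_compl_iff, mem_ofPred_eq, Classical.not_imp, Classical.not_imp] at hs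
    exact hs

/-- the main theorem for families on the line, standard lattice -/
theorem main_std {e : ℝ} (he : 5 / 9 ≤ e) (he1 : e < 1) : MainF (smF e) (Ex e) := by
  intro H h hp
  filter_upwards [main_small (a := (1, 0)) (b := (0, 1)) (by norm_num) he he1 H h hp] with s hs h1 h2 ε hε
  obtain ⟨C, hC⟩ := hs h1 h2 ε hε
  refine ⟨C, fun R hR c => ?_⟩
  have h3 := hC R hR c
  rw [Pool.Agent.Helper92.GV.lcnt_std] at h3
  simpa using h3

end Pool.Agent.Helper75.GD
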