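import Mathlib.Topology.MetricSpace.HausdorffDimension
import Mathlib.MeasureTheory.Measure.Lebesgue.Basic

/-!
# The dimension of a product with an interval
-/

open MeasureTheory Real Set Filter Topology Metric
open scoped ENNReal NNReal

set_option autoImplicit false

namespace Pool.Agent.Helper75.GD

/-- slices of small sets -/
theorem hausdorff_slice {M : Type*} [MetricSpace M] [SecondCountableTopology M] [MeasurableSpace M] [BorelSpace M] {S : Set M} {d : ℝ} (hd : 0 ≤ d)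
    (h : μH[d + 1] (S ×ˢ Icc (0 : ℝ) 1) = 0) : μH[d] S = 0 := by
  classical
  refine le_antisymm ?_ (zero_le)
  rw [Measure.hausdorffMeasure_apply]
  refine iSup₂_le fun r hr => ?_
  refine ENNReal.le_of_forall_pos_le_add fun ε hε _ => ?_
  rw [zero_add]
  -- a cover of the product
  obtain ⟨r', hr'⟩ : ∃ r' : ℝ≥0∞, r' = min r 1 := ⟨_, rfl⟩
  have hr'0 : 0 < r' := by
    rw [hr']
    exact lt_min hr one_pos
  have hr'r : r' ≤ r := by
    rw [hr']
    exact min_le_left _ _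
  have hr'1 : r' ≤ 1 := by
    rw [hr']
    exact min_le_right _ _
  rw [Measure.hausdorffMeasure_apply] at h
  have h1 : (⨅ (t : ℕ → Set (M × ℝ)) (_ : S ×ˢ Icc (0 : ℝ) 1 ⊆ ⋃ n, t n) (_ : ∀ n, ediam (t n) ≤ r'), ∑' n, ⨆ _ : (t n).Nonempty, ediam (t n) ^ (d + 1)) < (ε : ℝ≥0∞) / 2 := by
    refine lt_of_le_of_lt (le_iSup₂ (f := fun (r : ℝ≥0∞) (_ : 0 < r) => ⨅ (t : ℕ → Set (M × ℝ)) (_ : S ×ˢ Icc (0 : ℝ) 1 ⊆ ⋃ n, t n) (_ : ∀ n, ediam (t n) ≤ r),
      ∑' n, ⨆ _ : (t n).Nonempty, ediam (t n) ^ (d + 1)) r' hr'0) ?_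
    rw [h]
    exact ENNReal.div_pos (by exact_mod_cast hε.ne') (by norm_num)
  simp only [iInf_lt_iff] at h1
  obtain ⟨t, hcov, hdiam, hsum⟩ := h1
  -- the weights
  obtain ⟨y, hy⟩ : ∃ y : ℕ → ℝ, ∀ n, (t n).Nonempty → ∃ z ∈ t n, z.2 = y n := by
    refine ⟨fun n => if h : (t n).Nonempty then h.some.2 else 0, fun n hn => ⟨hn.some, hn.some_mem, ?_⟩⟩
    simp only [dif_pos hn]
  obtain ⟨w, hw⟩ : ∃ w : ℕ → ℝ≥0∞, ∀ n, w n = ⨆ _ : (t n).Nonempty, ediam (t n) ^ d := ⟨_, fun _ => rfl⟩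
  obtain ⟨φ, hφ⟩ : ∃ φ : ℕ → ℝ → ℝ≥0∞, ∀ n, φ n = (closedBall (y n) (ediam (t n)).toReal).indicator fun _ => w n := ⟨_, fun _ => rfl⟩
  have hfin : ∀ n, ediam (t n) ≠ ⊤ := fun n => ne_top_of_le_ne_top (by norm_num) ((hdiam n).trans hr'1)
  have hφm : ∀ n, Measurable (φ n) := fun n => by
    rw [hφ]
    exact measurable_const.indicator measurableSet_closedBall
  have hint : ∀ n, ∫⁻ x in Icc (0 : ℝ) 1, φ n x ≤ 2 * ⨆ _ : (t n).Nonempty, ediam (t n) ^ (d + 1) := by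
    intro n
    have h2 : ∫⁻ x in Icc (0 : ℝ) 1, φ n x ≤ ∫⁻ x, φ n x := lintegral_mono' Measure.restrict_le_self le_rfl
    refine h2.trans ?_
    rw [hφ, lintegral_indicator_const measurableSet_closedBall, Real.volume_closedBall, ENNReal.ofReal_mul (by norm_num), ENNReal.ofReal_toReal (hfin n), hw]
    by_cases hn : (t n).Nonempty
    · simp only [hn, iSup_pos]
      rw [ENNReal.rpow_add_of_nonneg _ _ hd zero_le_one, ENNReal.rpow_one, show ENNReal.ofReal 2 = 2 by norm_num]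
      exact le_of_eq (by ring)
    · simp only [hn]
      simp
  have htot : ∫⁻ x in Icc (0 : ℝ) 1, ∑' n, φ n x < ε := by
    rw [lintegral_tsum fun n => (hφm n).aemeasurable]
    calc ∑' n, ∫⁻ x in Icc (0 : ℝ) 1, φ n x ≤ ∑' n, 2 * ⨆ _ : (t n).Nonempty, ediam (t n) ^ (d + 1) := ENNReal.tsum_le_tsum hint
      _ = 2 * ∑' n, ⨆ _ : (t n).Nonempty, ediam (t n) ^ (d + 1) := ENNReal.tsum_mul_left
      _ < ε := by
        rw [mul_comm]
        exact (ENNReal.lt_div_iff_mul_lt (Or.inl (by norm_num)) (Or.inl (by norm_num))).1 hsum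
  obtain ⟨x, hx, hx2⟩ : ∃ x ∈ Icc (0 : ℝ) 1, ∑' n, φ n x ≤ ε := by
    by_contra hcon
    push Not at hcon
    have h2 : ∫⁻ _ in Icc (0 : ℝ) 1, (ε : ℝ≥0∞) ≤ ∫⁻ x in Icc (0 : ℝ) 1, ∑' n, φ n x := setLIntegral_mono' measurableSet_Icc fun x hx => (hcon x hx).le
    rw [setLIntegral_const, Real.volume_Icc, sub_zero, ENNReal.ofReal_one, mul_one] at h2
    exact absurd htot (not_lt.2 h2)
  -- the slice
  have hsub : ∀ n, ediam {m : M | (m, x) ∈ t n} ≤ ediam (t n) := by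
    intro n
    refine ediam_le fun a ha b hb => ?_
    have h2 : edist (a, x) (b, x) ≤ ediam (t n) := edist_le_ediam_of_mem ha hb
    refine le_trans ?_ h2
    rw [Prod.edist_eq]
    exact le_max_left _ _
  refine iInf_le_of_le (fun n => {m : M | (m, x) ∈ t n}) (iInf_le_of_le ?_ (iInf_le_of_le ?_ (le_trans (ENNReal.tsum_le_tsum fun n => ?_) hx2)))
  · intro m hm
    have h2 := hcov (mk_mem_prod hm hx)
    rw [mem_iUnion] at h2 ⊢
    exact h2
  · intro n
    exact (hsub n).trans ((hdiam n).trans hr'r)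
  · refine iSup_le fun hne => ?_
    obtain ⟨m, hm⟩ := hne
    have hm' : (m, x) ∈ t n := hm
    have hn : (t n).Nonempty := ⟨_, hm'⟩
    obtain ⟨z, hz, hzy⟩ := hy n hn
    have h3 : x ∈ closedBall (y n) (ediam (t n)).toReal := by
      rw [mem_closedBall, ← hzy]
      have h2 : edist (m, x) z ≤ ediam (t n) := edist_le_ediam_of_mem hm' hz
      have h4 : edist x z.2 ≤ ediam (t n) := by
        refine le_trans ?_ h2
        rw [Prod.edist_eq]
        exact le_max_right _ _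
      rw [edist_dist] at h4
      exact (ENNReal.ofReal_le_iff_le_toReal (hfin n)).1 h4
    rw [hφ, indicator_of_mem h3, hw]
    simp only [hn, iSup_pos]
    exact ENNReal.rpow_le_rpow (hsub n) hd

/-- the dimension of a product with an interval -/
theorem dimH_slice {M : Type*} [MetricSpace M] [SecondCountableTopology M] {S : Set M} {D : ℝ} (h : dimH (S ×ˢ Icc (0 : ℝ) 1) ≤ ENNReal.ofReal D) :
    dimH S ≤ ENNReal.ofReal (D - 1) := by
  borelize M
  refine le_of_forall_gt_imp_ge_of_dense fun a ha => ?_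
  obtain ⟨d, hd1, hd2⟩ := ENNReal.lt_iff_exists_nnreal_btwn.1 ha
  refine le_trans ?_ hd2.le
  have hd0 : 0 < (d : ℝ) := by
    have : (0 : ℝ≥0∞) < d := lt_of_le_of_lt (zero_le) hd1
    exact_mod_cast this
  have h1 : D < d + 1 := by
    rw [← ENNReal.ofReal_coe_nnreal, ENNReal.ofReal_lt_ofReal_iff hd0] at hd1
    linarith
  have h2 : dimH (S ×ˢ Icc (0 : ℝ) 1) < ((d + 1 : ℝ≥0) : ℝ≥0∞) := by
    refine lt_of_le_of_lt h ?_
    rw [← ENNReal.ofReal_coe_nnreal, NNReal.coe_add, NNReal.coe_one]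
    exact (ENNReal.ofReal_lt_ofReal_iff (by positivity)).2 h1
  have h3 := hausdorffMeasure_of_dimH_lt h2
  rw [NNReal.coe_add, NNReal.coe_one] at h3
  refine dimH_le_of_hausdorffMeasure_ne_top ?_
  rw [hausdorff_slice hd0.le h3]
  exact ENNReal.zero_ne_top

end Pool.Agent.Helper75.GD
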