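import Pool.Agent.Helper75.GD.LMain
import Pool.Agent.Helper75.GD.Slice

/-!
# Exceptional sets (MP_fb29e9_nt): flat tori
-/

open MeasureTheory Real Set Filter Topology Metric
open scoped ENNReal NNReal

set_option autoImplicit false

namespace Pool.Agent.Helper75.GD

open Pool.Agent.Helper22.AE
open Pool.Agent.Helper92.LA (lcnt)
open Pool.Agent.Helper22.LP (Fr fdet)
open Pool.Agent.Helper75.TW (AffPos)

/-- the number of points of `ℤ + ℤ τ` in the closed disc with centre `c` and radius `R` -/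
noncomputable def tcnt (τ : ℂ) (c : ℂ) (R : ℝ) : ℝ := (Nat.card {k : ℤ × ℤ // ‖(k.1 : ℂ) + k.2 * τ - c‖ ≤ R} : ℝ)

/-- the bound for the lattice `ℤ + ℤ τ` -/
def TBd (θ : ℝ) (τ : ℂ) : Prop := ∀ ε : ℝ, 0 < ε → ∃ C : ℝ, ∀ R : ℝ, 1 ≤ R → ∀ c : ℂ, |tcnt τ c R - π * R ^ 2 / τ.im| ≤ C * R ^ (θ + ε)

private theorem disc_iffT (x y r : ℝ) (hr : 0 ≤ r) :
    (∀ θ : ℝ, x * cos θ + y * sin θ ≤ r) ↔ ‖(⟨x, y⟩ : ℂ)‖ ≤ r := by
  obtain ⟨z, hz⟩ : ∃ z : ℂ, z = ⟨x, y⟩ := ⟨_, rfl⟩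
  have hx : x = z.re := by rw [hz]
  have hy : y = z.im := by rw [hz]
  rw [← hz, hx, hy]
  constructor
  · intro h
    have h1 := h z.arg
    have h2 : ‖z‖ * cos z.arg = z.re := Complex.norm_mul_cos_arg z
    have h3 : ‖z‖ * sin z.arg = z.im := Complex.norm_mul_sin_arg z
    have h5 : z.re * cos z.arg + z.im * sin z.arg = ‖z‖ := by
      rw [← h2, ← h3]
      have h6 : cos z.arg ^ 2 + sin z.arg ^ 2 = 1 := by rw [add_comm]; exact sin_sq_add_cos_sq _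
      calc ‖z‖ * cos z.arg * cos z.arg + ‖z‖ * sin z.arg * sin z.arg
          = ‖z‖ * (cos z.arg ^ 2 + sin z.arg ^ 2) := by ring
        _ = ‖z‖ := by rw [h6, mul_one]
    rwa [h5] at h1
  · intro h θ
    have h2 := sin_sq_add_cos_sq θ
    have h4 : ‖z‖ ^ 2 = z.re ^ 2 + z.im ^ 2 := by
      rw [Complex.sq_norm, Complex.normSq_apply]
      ring
    have h3 : (z.re * cos θ + z.im * sin θ) ^ 2 + (z.re * sin θ - z.im * cos θ) ^ 2 = z.re ^ 2 + z.im ^ 2 := by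
      linear_combination (z.re ^ 2 + z.im ^ 2) * h2
    have h5 : ‖z‖ ^ 2 ≤ r ^ 2 := pow_le_pow_left₀ (norm_nonneg _) h 2
    exact abs_le_of_sq_le_sq' (by linarith [sq_nonneg (z.re * sin θ - z.im * cos θ)]) hr |>.2

/-- the points of the lattice `ℤ a + ℤ a τ` in discs -/
theorem tcnt_eq {a τ : ℂ} (ha : a ≠ 0) {R : ℝ} (hR : 0 ≤ R) (c : ℂ) :
    tcnt τ c R = lcnt ((a.re, a.im), ((a * τ).re, (a * τ).im)) (fun _ => 1) ((a * c).re, (a * c).im) (‖a‖ * R) := by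
  have hna : 0 < ‖a‖ := norm_pos_iff.2 ha
  unfold tcnt lcnt
  congr 1
  refine Nat.card_congr (Equiv.subtypeEquivRight fun k => ?_)
  simp only [mul_one]
  rw [disc_iffT _ _ _ (mul_nonneg hna.le hR)]
  have e : (⟨(k.1 : ℝ) * a.re + (k.2 : ℝ) * (a * τ).re - (a * c).re, (k.1 : ℝ) * a.im + (k.2 : ℝ) * (a * τ).im - (a * c).im⟩ : ℂ) =
      a * ((k.1 : ℂ) + k.2 * τ - c) := by
    apply Complex.ext
    · simp
      ring
    · simp
      ring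
  rw [e, norm_mul]
  exact (mul_le_mul_iff_right₀ hna).symm

theorem det_tau (a τ : ℂ) : fdet ((a.re, a.im), ((a * τ).re, (a * τ).im)) = ‖a‖ ^ 2 * τ.im := by
  rw [Complex.sq_norm, Complex.normSq_apply]
  unfold fdet
  simp only [Complex.mul_re, Complex.mul_im]
  ring

/-- the bound for `ℤ a + ℤ a τ`, `‖a‖ ≥ 1`, gives the bound for `ℤ + ℤ τ` -/
theorem TBd_of_LB {θ : ℝ} {a τ : ℂ} (hτ : 0 < τ.im) (ha : 1 ≤ ‖a‖) (h : LB (fun _ => 1) θ ((a.re, a.im), ((a * τ).re, (a * τ).im))) : TBd θ τ := by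
  have hna : 0 < ‖a‖ := by linarith
  have ha0 : a ≠ 0 := norm_pos_iff.1 hna
  intro ε hε
  obtain ⟨C, hC⟩ := h ε hε
  refine ⟨C * ‖a‖ ^ (θ + ε), fun R hR c => ?_⟩
  have hR0 : 0 ≤ R := by linarith
  have h1 := hC (‖a‖ * R) (one_le_mul_of_one_le_of_one_le ha hR) ((a * c).re, (a * c).im)
  rw [← tcnt_eq ha0 hR0, det_tau, Pool.Agent.Helper92.GC.area_one, abs_of_pos (show 0 < ‖a‖ ^ 2 * τ.im from mul_pos (by positivity) hτ), mul_rpow hna.le hR0] at h1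
  have e : π * (‖a‖ * R) ^ 2 / (‖a‖ ^ 2 * τ.im) = π * R ^ 2 / τ.im := by
    field_simp
  rw [e] at h1
  linarith

/-- the coordinates -/
noncomputable def psT (ab : Fr) : (ℂ × ℝ) × ℝ :=
  ((⟨(ab.1.1 * ab.2.1 + ab.1.2 * ab.2.2) / (ab.1.1 ^ 2 + ab.1.2 ^ 2), (ab.1.1 * ab.2.2 - ab.1.2 * ab.2.1) / (ab.1.1 ^ 2 + ab.1.2 ^ 2)⟩, ab.1.1 - 1), ab.1.2)

theorem psT_smooth {ab : Fr} (h : ab.1.1 ^ 2 + ab.1.2 ^ 2 ≠ 0) : ContDiffAt ℝ 1 psT ab := by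
  have h1 : ContDiffAt ℝ 1 (fun ab : Fr => (ab.1.1 * ab.2.1 + ab.1.2 * ab.2.2) / (ab.1.1 ^ 2 + ab.1.2 ^ 2)) ab :=
    ContDiffAt.div (by fun_prop) (by fun_prop) h
  have h2 : ContDiffAt ℝ 1 (fun ab : Fr => (ab.1.1 * ab.2.2 - ab.1.2 * ab.2.1) / (ab.1.1 ^ 2 + ab.1.2 ^ 2)) ab :=
    ContDiffAt.div (by fun_prop) (by fun_prop) h
  have h3 : ContDiffAt ℝ 1 (fun ab : Fr => (⟨(ab.1.1 * ab.2.1 + ab.1.2 * ab.2.2) / (ab.1.1 ^ 2 + ab.1.2 ^ 2),
      (ab.1.1 * ab.2.2 - ab.1.2 * ab.2.1) / (ab.1.1 ^ 2 + ab.1.2 ^ 2)⟩ : ℂ)) ab := by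
    have e : (fun ab : Fr => (⟨(ab.1.1 * ab.2.1 + ab.1.2 * ab.2.2) / (ab.1.1 ^ 2 + ab.1.2 ^ 2),
      (ab.1.1 * ab.2.2 - ab.1.2 * ab.2.1) / (ab.1.1 ^ 2 + ab.1.2 ^ 2)⟩ : ℂ)) =
        fun ab : Fr => Complex.equivRealProdCLM.symm ((ab.1.1 * ab.2.1 + ab.1.2 * ab.2.2) / (ab.1.1 ^ 2 + ab.1.2 ^ 2),
          (ab.1.1 * ab.2.2 - ab.1.2 * ab.2.1) / (ab.1.1 ^ 2 + ab.1.2 ^ 2)) := by
      funext ab
      rfl
    rw [e]
    exact Complex.equivRealProdCLM.symm.contDiff.contDiffAt.comp ab (h1.prodMk h2)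
  unfold psT
  refine (h3.prodMk ?_).prodMk ?_
  · fun_prop
  · fun_prop

/-- the exceptional tori, from the exceptional lattices -/
theorem tau_zero {θ D : ℝ} (hD : 0 ≤ D) (h : μH[D + 1 + 1] {ab : Fr | fdet ab ≠ 0 ∧ ¬ LB (fun _ => 1) θ ab} = 0) :
    μH[D] {τ : ℂ | 0 < τ.im ∧ ¬ TBd θ τ} = 0 := by
  refine hausdorff_slice hD (hausdorff_slice (by linarith)
    (measure_mono_null (t := psT '' {ab : Fr | fdet ab ≠ 0 ∧ ¬ LB (fun _ => 1) θ ab}) ?_ (null_image (by linarith) ?_ h)))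
  · rintro ⟨⟨τ, s⟩, t⟩ ⟨⟨⟨hτ, hτ2⟩, hs⟩, ht⟩
    simp only at hτ hτ2 hs ht
    obtain ⟨a, ha⟩ : ∃ a : ℂ, a = ⟨1 + s, t⟩ := ⟨_, rfl⟩
    have hre : a.re = 1 + s := by rw [ha]
    have him : a.im = t := by rw [ha]
    have hna : 1 ≤ ‖a‖ := by
      refine le_trans ?_ (Complex.re_le_norm a)
      rw [hre]
      linarith [hs.1]
    have hsq : 0 < ‖a‖ ^ 2 := by positivity
    have hsq' : ‖a‖ ^ 2 = a.re ^ 2 + a.im ^ 2 := by
      rw [Complex.sq_norm, Complex.normSq_apply]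
      ring
    have hsq0 : a.re ^ 2 + a.im ^ 2 ≠ 0 := by
      rw [← hsq']
      exact hsq.ne'
    refine ⟨((a.re, a.im), ((a * τ).re, (a * τ).im)), ⟨?_, fun h1 => hτ2 (TBd_of_LB hτ hna h1)⟩, ?_⟩
    · rw [det_tau]
      exact (mul_pos hsq hτ).ne'
    · unfold psT
      simp only [Complex.mul_re, Complex.mul_im]
      refine Prod.ext (Prod.ext ?_ ?_) ?_
      · apply Complex.ext
        · show (a.re * (a.re * τ.re - a.im * τ.im) + a.im * (a.re * τ.im + a.im * τ.re)) / (a.re ^ 2 + a.im ^ 2) = τ.re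
          rw [div_eq_iff hsq0]
          ring
        · show (a.re * (a.re * τ.im + a.im * τ.re) - a.im * (a.re * τ.re - a.im * τ.im)) / (a.re ^ 2 + a.im ^ 2) = τ.im
          rw [div_eq_iff hsq0]
          ring
      · simp only [hre]
        ring
      · exact him
  · intro ab hab
    have h1 : ab.1.1 ^ 2 + ab.1.2 ^ 2 ≠ 0 := by
      intro h0
      have h2 : ab.1.1 = 0 := by nlinarith [sq_nonneg ab.1.1, sq_nonneg ab.1.2]
      have h3 : ab.1.2 = 0 := by nlinarith [sq_nonneg ab.1.1, sq_nonneg ab.1.2]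
      apply hab.1
      unfold fdet
      rw [h2, h3]
      ring
    obtain ⟨K, t, ht, hK⟩ := (psT_smooth h1).exists_lipschitzOnWith
    exact ⟨K, t, mem_nhdsWithin_of_mem_nhds ht, hK⟩

/-- the exceptional tori -/
theorem tau_main {θ : ℝ} (hθ : 9 / 17 ≤ θ) (hθ1 : θ ≤ 5 / 8) : μH[max (9 / θ - 15) ((34 - 48 * θ) / (6 - 3 * θ))] {τ : ℂ | 0 < τ.im ∧ ¬ TBd θ τ} = 0 := by
  have h6 : ContDiff ℝ 6 (fun _ : ℝ => (1 : ℝ)) := contDiff_const
  have hrho : rho (fun _ : ℝ => (1 : ℝ)) = fun _ => 1 := by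
    funext t
    unfold rho
    simp
  have hpos : 0 < 6 - 3 * θ := by linarith
  have h := latt_aff (H := fun _ => 1) h6 (fun _ => rfl) (fun t => by simp) (fun t => by rw [hrho]; simp) hθ hθ1
  refine tau_zero (le_max_of_le_right (div_nonneg (by linarith) hpos.le)) ?_
  have e : max (9 / θ - 15) ((34 - 48 * θ) / (6 - 3 * θ)) + 1 + 1 = max (9 / θ - 13) ((46 - 54 * θ) / (6 - 3 * θ)) := by
    rw [add_assoc, ← max_add_add_right]
    congr 1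
    · ring
    · rw [div_add' _ _ _ hpos.ne']
      congr 1
      ring
  rw [e]
  exact h

/-- null sets for the Hausdorff measure of the full dimension -/
theorem vol_null {E : Type*} [NormedAddCommGroup E] [NormedSpace ℝ E] [FiniteDimensional ℝ E] [MeasureSpace E] [BorelSpace E]
    [(volume : Measure E).IsAddHaarMeasure] {S : Set E} {n : ℕ} (hn : Module.finrank ℝ E = n) (h : μH[(n : ℝ)] S = 0) : volume S = 0 := by
  have : ProperSpace E := FiniteDimensional.proper ℝ E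
  have : LocallyCompactSpace E := inferInstance
  have : SecondCountableTopology E := inferInstance
  rw [← hn] at h
  exact Measure.absolutelyContinuous_isAddHaarMeasure (volume : Measure E) μH[(Module.finrank ℝ E : ℝ)] h

/-- a larger exponent -/
theorem TBd.mono {θ θ' : ℝ} (hθ : θ ≤ θ') {τ : ℂ} (h : TBd θ τ) : TBd θ' τ := by
  intro ε hε
  obtain ⟨C, hC⟩ := h ε hε
  refine ⟨|C|, fun R hR c => (hC R hR c).trans ?_⟩
  calc C * R ^ (θ + ε) ≤ |C| * R ^ (θ + ε) := mul_le_mul_of_nonneg_right (le_abs_self C) (by positivity)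
    _ ≤ |C| * R ^ (θ' + ε) := mul_le_mul_of_nonneg_left (rpow_le_rpow_of_exponent_le hR (by linarith)) (abs_nonneg C)

/-- almost every torus -/
theorem tau_vol {θ : ℝ} (hθ : 9 / 17 ≤ θ) : volume {τ : ℂ | 0 < τ.im ∧ ¬ TBd θ τ} = 0 := by
  have h := tau_main (θ := 9 / 17) le_rfl (by norm_num)
  have e : max (9 / (9 / 17 : ℝ) - 15) ((34 - 48 * (9 / 17)) / (6 - 3 * (9 / 17))) = ((2 : ℕ) : ℝ) := by norm_num
  rw [e] at h
  refine measure_mono_null ?_ (vol_null Complex.finrank_real_complex h)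
  rintro τ ⟨h1, h2⟩
  exact ⟨h1, fun h3 => h2 (h3.mono hθ)⟩

/-- a larger exponent -/
theorem LB.mono {H : ℝ → ℝ} {θ θ' : ℝ} (hθ : θ ≤ θ') {ab : Fr} (h : LB H θ ab) : LB H θ' ab := by
  intro ε hε
  obtain ⟨C, hC⟩ := h ε hε
  refine ⟨|C|, fun R hR c => (hC R hR c).trans ?_⟩
  calc C * R ^ (θ + ε) ≤ |C| * R ^ (θ + ε) := mul_le_mul_of_nonneg_right (le_abs_self C) (by positivity)
    _ ≤ |C| * R ^ (θ' + ε) := mul_le_mul_of_nonneg_left (rpow_le_rpow_of_exponent_le hR (by linarith)) (abs_nonneg C)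

/-- null sets from almost every pair -/
theorem vol_of_ae {H : ℝ → ℝ} {θ θ' : ℝ} (h : ∀ᵐ ab : Fr, fdet ab ≠ 0 ∧ ∀ ε : ℝ, 0 < ε → ∃ C : ℝ, ∀ R : ℝ, 1 ≤ R → ∀ c : ℝ × ℝ,
    |lcnt ab H c R - area H * R ^ 2 / abs (fdet ab)| ≤ C * R ^ (θ + ε)) (hθ : θ ≤ θ') : volume {ab : Fr | fdet ab ≠ 0 ∧ ¬ LB H θ' ab} = 0 := by
  rw [ae_iff] at h
  refine measure_mono_null ?_ h
  rintro ab ⟨h1, h2⟩ h3
  have h4 : LB H θ ab := h3.2
  exact h2 (h4.mono hθ)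

theorem max_sub_two {e : ℝ} (he : e ≤ 5 / 8) : max (9 / e - 13) ((46 - 54 * e) / (6 - 3 * e)) - 2 = max (9 / e - 15) ((34 - 48 * e) / (6 - 3 * e)) := by
  have hpos : 0 < 6 - 3 * e := by linarith
  rw [← max_sub_sub_right]
  congr 1
  · ring
  · rw [div_sub' hpos.ne']
    congr 1
    ring

end Pool.Agent.Helper75.GD
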