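import Mathlib.Topology.MetricSpace.HausdorffDimension
import Mathlib.MeasureTheory.Integral.Lebesgue.Markov

/-!
# Exceptional sets (MP_fb29e9_nt): coverings and Hausdorff dimension

A set of large values of a slowly varying function is covered by few balls; the limit superior of such sets has small Hausdorff dimension.
-/

open MeasureTheory Set Filter Topology Metric
open scoped ENNReal NNReal

set_option autoImplicit false

namespace Pool.Agent.Helper75.GD

/-- finite coverings from separated sets -/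
theorem cover_of_sep {M : Type*} [PseudoMetricSpace M] (B : Set M) (δ : ℝ) (K : ℕ)
    (h : ∀ F : Finset M, (F : Set M) ⊆ B → (∀ x ∈ F, ∀ y ∈ F, x ≠ y → δ < dist x y) → F.card ≤ K) :
    ∃ F : Finset M, (F : Set M) ⊆ B ∧ (∀ x ∈ F, ∀ y ∈ F, x ≠ y → δ < dist x y) ∧ ∀ y ∈ B, ∃ x ∈ F, dist y x ≤ δ ∨ y = x := by
  classical
  obtain ⟨P, hP⟩ : ∃ P : ℕ → Prop, P = fun n => ∃ F : Finset M, F.card = n ∧ (F : Set M) ⊆ B ∧ ∀ x ∈ F, ∀ y ∈ F, x ≠ y → δ < dist x y := ⟨_, rfl⟩
  have h0 : P 0 := by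
    rw [hP]
    exact ⟨∅, by simp, by simp, by simp⟩
  have hn : P (Nat.findGreatest P K) := Nat.findGreatest_spec (Nat.zero_le K) h0
  have hmax : ∀ n, P n → n ≤ Nat.findGreatest P K := by
    intro n hn
    refine Nat.le_findGreatest ?_ hn
    rw [hP] at hn
    obtain ⟨F, h1, h2, h3⟩ := hn
    rw [← h1]
    exact h F h2 h3
  obtain ⟨n, hn'⟩ : ∃ n, n = Nat.findGreatest P K := ⟨_, rfl⟩
  rw [← hn'] at hn hmax
  rw [hP] at hn
  obtain ⟨F, h1, h2, h3⟩ := hn
  refine ⟨F, h2, h3, fun y hy => ?_⟩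
  by_contra hc
  push Not at hc
  have h4 : y ∉ F := by
    intro h5
    exact (hc y h5).2 rfl
  have h6 : P (n + 1) := by
    rw [hP]
    refine ⟨insert y F, by rw [Finset.card_insert_of_notMem h4, h1], ?_, ?_⟩
    · intro z hz
      rcases Finset.mem_insert.1 (Finset.mem_coe.1 hz) with h7 | h7
      · rw [h7]
        exact hy
      · exact h2 (Finset.mem_coe.2 h7)
    · intro a ha b hb hab
      rcases Finset.mem_insert.1 ha with ha | ha
      · rcases Finset.mem_insert.1 hb with hb | hb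
        · exact absurd (ha.trans hb.symm) hab
        · rw [ha]
          exact (hc b hb).1
      · rcases Finset.mem_insert.1 hb with hb | hb
        · rw [hb, dist_comm]
          exact (hc a ha).1
        · exact h3 a ha b hb hab
  have h7 := hmax _ h6
  omega

/-- the set where a slowly varying function is large: a covering by few balls -/
theorem few_balls {M : Type*} [PseudoMetricSpace M] [MeasurableSpace M] [BorelSpace M] (μ : Measure M) {W : M → ℝ≥0∞} {B : Set M} {δ : ℝ}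
    {m τ A : ℝ≥0∞} (hm : ∀ x ∈ B, m ≤ μ (closedBall x (δ / 2))) (hst : ∀ x ∈ B, ∀ y, dist y x ≤ δ / 2 → τ ≤ W y)
    (hA : ∫⁻ x, W x ∂μ ≤ A) (hfin : A ≠ ⊤) (hmt : m * τ ≠ 0) :
    ∃ F : Finset M, (F : Set M) ⊆ B ∧ (F.card : ℝ≥0∞) * (m * τ) ≤ A ∧ ∀ y ∈ B, ∃ x ∈ F, y ∈ closedBall x (max δ 0) := by
  classical
  have key : ∀ F : Finset M, (F : Set M) ⊆ B → (∀ x ∈ F, ∀ y ∈ F, x ≠ y → δ < dist x y) → (F.card : ℝ≥0∞) * (m * τ) ≤ A := by
    intro F hF hsep
    have h1 : ∀ x ∈ F, m * τ ≤ ∫⁻ y in closedBall x (δ / 2), W y ∂μ := by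
      intro x hx
      have h2 : ∫⁻ _ in closedBall x (δ / 2), τ ∂μ ≤ ∫⁻ y in closedBall x (δ / 2), W y ∂μ :=
        setLIntegral_mono' measurableSet_closedBall fun y hy => hst x (hF hx) y (mem_closedBall.1 hy)
      rw [setLIntegral_const] at h2
      refine le_trans ?_ h2
      rw [mul_comm]
      exact mul_le_mul_right (hm x (hF hx)) _
    have h3 : (F : Set M).PairwiseDisjoint fun x => closedBall x (δ / 2) := by
      intro x hx y hy hxy
      rw [Function.onFun, Set.disjoint_left]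
      intro z hz1 hz2
      have h4 := hsep x hx y hy hxy
      have h5 := mem_closedBall.1 hz1
      have h6 := mem_closedBall.1 hz2
      have h7 := dist_triangle_left x y z
      linarith
    calc (F.card : ℝ≥0∞) * (m * τ) = ∑ _x ∈ F, m * τ := by rw [Finset.sum_const, nsmul_eq_mul]
      _ ≤ ∑ x ∈ F, ∫⁻ y in closedBall x (δ / 2), W y ∂μ := Finset.sum_le_sum h1
      _ = ∫⁻ y in ⋃ x ∈ F, closedBall x (δ / 2), W y ∂μ := by
          rw [lintegral_biUnion_finset h3 fun x _ => measurableSet_closedBall]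
      _ ≤ ∫⁻ y, W y ∂μ := setLIntegral_le_lintegral _ _
      _ ≤ A := hA
  have hK : ∃ K : ℕ, ∀ F : Finset M, (F : Set M) ⊆ B → (∀ x ∈ F, ∀ y ∈ F, x ≠ y → δ < dist x y) → F.card ≤ K := by
    have h1 : A / (m * τ) ≠ ⊤ := ENNReal.div_ne_top hfin hmt
    refine ⟨⌈(A / (m * τ)).toReal⌉₊, fun F hF hsep => ?_⟩
    have h2 := key F hF hsep
    have h5 : (F.card : ℝ≥0∞) ≤ A / (m * τ) := by
      rcases eq_or_ne (m * τ) ⊤ with h6 | h6
      · rw [h6] at h2
        rcases Nat.eq_zero_or_pos F.card with h7 | h7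
        · rw [h7]
          simp
        · rw [ENNReal.mul_top (by exact_mod_cast h7.ne')] at h2
          exact absurd (top_le_iff.1 h2) hfin
      · exact (ENNReal.le_div_iff_mul_le (Or.inl hmt) (Or.inl h6)).2 h2
    have h3 : (F.card : ℝ) ≤ (A / (m * τ)).toReal := by
      have h4 := ENNReal.toReal_mono h1 h5
      rwa [ENNReal.toReal_natCast] at h4
    exact_mod_cast h3.trans (Nat.le_ceil _)
  obtain ⟨K, hK⟩ := hK
  obtain ⟨F, h1, h2, h3⟩ := cover_of_sep B δ K hK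
  refine ⟨F, h1, key F h1 h2, fun y hy => ?_⟩
  obtain ⟨x, hx, h4⟩ := h3 y hy
  refine ⟨x, hx, ?_⟩
  rw [mem_closedBall]
  rcases h4 with h4 | h4
  · exact h4.trans (le_max_left _ _)
  · rw [h4, dist_self]
    exact le_max_right _ _

/-- Hausdorff measure and limit superior -/
theorem hausdorff_cantelli {M : Type*} [EMetricSpace M] [MeasurableSpace M] [BorelSpace M] {ι : ℕ → Type*} [∀ n, Countable (ι n)] {d : ℝ}
    (E : Set M) (U : ∀ j : ℕ, ι j → Set M) (ρ : ℕ → ℝ≥0∞) (hρ : Tendsto ρ atTop (𝓝 0)) (hanti : Antitone ρ)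
    (hdiam : ∀ j i, ediam (U j i) ≤ ρ j) (hE : ∀ s ∈ E, ∃ᶠ j in atTop, ∃ i, s ∈ U j i) (hsum : ∑' j, ∑' i, ediam (U j i) ^ d ≠ ⊤) :
    μH[d] E = 0 := by
  have h1 := Measure.hausdorffMeasure_le_liminf_tsum (β := ℕ) (ι := fun n => Σ k : ℕ, ι (k + n)) d E (l := atTop) ρ hρ (fun n i => U (i.1 + n) i.2)
    (Eventually.of_forall fun n i => (hdiam _ _).trans (hanti (by omega)))
    (Eventually.of_forall fun n s hs => by
      obtain ⟨j, hj, i, hi⟩ := ((frequently_atTop.1 (hE s hs)) n)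
      obtain ⟨k, rfl⟩ := Nat.exists_eq_add_of_le' hj
      rw [mem_iUnion]
      exact ⟨⟨k, i⟩, hi⟩)
  have h2 : ∀ n, ∑' i : (Σ k : ℕ, ι (k + n)), ediam (U (i.1 + n) i.2) ^ d = ∑' k : ℕ, ∑' i : ι (k + n), ediam (U (k + n) i) ^ d :=
    fun n => ENNReal.tsum_sigma' (fun i : (Σ k : ℕ, ι (k + n)) => ediam (U (i.1 + n) i.2) ^ d)
  have h3 : Tendsto (fun n => ∑' k : ℕ, ∑' i : ι (k + n), ediam (U (k + n) i) ^ d) atTop (𝓝 0) :=
    ENNReal.tendsto_sum_nat_add (fun j => ∑' i, ediam (U j i) ^ d) hsum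
  simp only [h2] at h1
  rw [h3.liminf_eq] at h1
  exact le_antisymm h1 bot_le

end Pool.Agent.Helper75.GD
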