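import Pool.Agent.Helper75.GD.Cov
import Pool.Agent.Helper60.RT.Defs
import Pool.Agent.Helper75.TW.B1

/-!
# Exceptional sets (MP_fb29e9_nt): the dimension of the set of large moments
-/

open MeasureTheory Real Set Filter Topology Metric
open scoped ENNReal NNReal

set_option autoImplicit false

namespace Pool.Agent.Helper75.GD

open Pool.Agent.Helper60.RT (FR)
open Pool.Agent.Helper75.TW (TB TB_pos)

/-- the bound of the dimension -/
noncomputable def Dm (θ : ℝ) : ℝ := 1 - 12 * (θ - 5 / 9) / (2 - θ)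

theorem TB_split {θ X N : ℝ} (hX : 0 < X) : TB 12 θ X N = X ^ (12 * (θ - 5 / 9)) * TB 12 (5 / 9) X N := by
  unfold TB
  have h1 : X ^ (θ - 1 / 2) = X ^ (θ - 5 / 9) * X ^ (5 / 9 - 1 / 2 : ℝ) := by
    rw [← rpow_add hX]
    congr 1
    ring
  have h2 : (X ^ (θ - 5 / 9)) ^ 12 = X ^ (12 * (θ - 5 / 9)) := by
    rw [← rpow_natCast, ← rpow_mul hX.le]
    congr 1
    push_cast
    ring
  rw [h1, mul_assoc, mul_pow, h2]
  ring

theorem FR_TB75 {X N : ℝ} (hX : 1 ≤ X) (hN : 1 ≤ N) (hν : X ^ (1 / 9 : ℝ) ≤ N) : FR X N ≤ 2 * TB 12 (5 / 9) X N := by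
  have hX0 : 0 < X := by linarith
  have hN0 : 0 < N := by linarith
  have e1 : TB 12 (5 / 9) X N = X ^ (2 / 3 : ℝ) * N ^ 15 := by
    unfold TB
    rw [mul_pow, ← rpow_natCast (X ^ (5 / 9 - 1 / 2 : ℝ)), ← rpow_mul hX0.le, ← rpow_natCast (N ^ (3 / 2 : ℝ)), ← rpow_mul hN0.le,
      show ((5 / 9 - 1 / 2 : ℝ) * ((12 : ℕ) : ℝ)) = 2 / 3 by norm_num, show ((3 / 2 : ℝ) * ((12 : ℕ) : ℝ)) = ((18 : ℕ) : ℝ) by norm_num, rpow_natCast]
    field_simp
  have e2 : X * X ^ (-(1 / 3) : ℝ) = X ^ (2 / 3 : ℝ) := by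
    nth_rewrite 1 [← rpow_one X]
    rw [← rpow_add hX0]
    norm_num
  have h1 : X ≤ X ^ (2 / 3 : ℝ) * N ^ 3 := by
    have h2 : (X ^ (1 / 9 : ℝ)) ^ 3 ≤ N ^ 3 := pow_le_pow_left₀ (by positivity) hν 3
    have h3 : (X ^ (1 / 9 : ℝ)) ^ 3 = X ^ (1 / 3 : ℝ) := by
      rw [← rpow_natCast, ← rpow_mul hX0.le]
      congr 1
      norm_num
    rw [h3] at h2
    calc X = X ^ (2 / 3 : ℝ) * X ^ (1 / 3 : ℝ) := by
          rw [← rpow_add hX0]
          norm_num
      _ ≤ X ^ (2 / 3 : ℝ) * N ^ 3 := mul_le_mul_of_nonneg_left h2 (by positivity)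
  rw [e1]
  unfold FR
  have h3 := mul_le_mul_of_nonneg_right h1 (show 0 ≤ N ^ 12 by positivity)
  have e3 : X * (N ^ 12 + N ^ 15 * X ^ (-(1 / 3) : ℝ)) = X * N ^ 12 + (X * X ^ (-(1 / 3) : ℝ)) * N ^ 15 := by ring
  rw [e3, e2]
  have e4 : X ^ (2 / 3 : ℝ) * N ^ 3 * N ^ 12 = X ^ (2 / 3 : ℝ) * N ^ 15 := by ring
  linarith

private theorem geo75 {r : ℝ} (hr : 0 ≤ r) (hr1 : r < 1) (A : ℝ) : ∑' p : ℕ, ENNReal.ofReal (((p : ℝ) + 1) * (A * r ^ p)) ≠ ⊤ := by
  have h1 : ‖r‖ < 1 := by rwa [norm_of_nonneg hr]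
  have h2 := summable_pow_mul_geometric_of_norm_lt_one 1 h1
  have h3 := summable_pow_mul_geometric_of_norm_lt_one 0 h1
  have h4 : Summable fun p : ℕ => ((p : ℝ) + 1) * (A * r ^ p) := by
    refine ((h2.add h3).mul_left A).congr fun p => ?_
    ring
  exact h4.tsum_ofReal_ne_top

private theorem ediam_ball75 (x : ℝ) {δ : ℝ} : ediam (closedBall x δ) = ENNReal.ofReal (2 * δ) := by
  rw [Real.closedBall_eq_Icc, Real.ediam_Icc]
  congr 1
  ring

/-- one block: the number of intervals -/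
theorem block {W : ℝ → ℝ} {a b ρ K δ τ A : ℝ} (hδ : 0 < δ) (hδρ : δ ≤ ρ) (hK : 0 < K) (hτ : 0 < τ)
    (hst : ∀ s ∈ Icc a b, ∀ s' ∈ Icc a b, |s' - s| ≤ δ → W s' ≤ K * W s)
    (hA : ∫⁻ s in Icc a b, ENNReal.ofReal (W s) ≤ ENNReal.ofReal A) (hA0 : 0 ≤ A) :
    ∃ F : Finset ℝ, (F.card : ℝ) * (δ * τ) ≤ K * A ∧ ∀ s ∈ Icc (a + ρ) (b - ρ), τ < W s → ∃ x ∈ F, s ∈ closedBall x δ := by
  obtain ⟨S, hS⟩ : ∃ S : Set ℝ, S = {s | s ∈ Icc (a + ρ) (b - ρ) ∧ τ < W s} := ⟨_, rfl⟩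
  have hsub : ∀ x ∈ S, ∀ y, dist y x ≤ δ / 2 → y ∈ Icc a b := by
    intro x hx y hy
    rw [hS] at hx
    rw [Real.dist_eq] at hy
    have h1 := abs_le.1 hy
    exact ⟨by linarith [h1.1, hx.1.1], by linarith [h1.2, hx.1.2]⟩
  have hxm : ∀ x ∈ S, x ∈ Icc a b := fun x hx => hsub x hx x (by rw [dist_self]; linarith)
  obtain ⟨F, h1, h2, h3⟩ := few_balls (μ := (volume : Measure ℝ).restrict (Icc a b)) (W := fun s => ENNReal.ofReal (W s)) (B := S) (δ := δ)
    (m := ENNReal.ofReal δ) (τ := ENNReal.ofReal (τ / K)) (A := ENNReal.ofReal A)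
    (by
      intro x hx
      rw [Measure.restrict_apply measurableSet_closedBall]
      have e1 : closedBall x (δ / 2) ∩ Icc a b = closedBall x (δ / 2) := inter_eq_left.2 fun y hy => hsub x hx y (mem_closedBall.1 hy)
      rw [e1, Real.volume_closedBall]
      exact ENNReal.ofReal_le_ofReal (by linarith))
    (by
      intro x hx y hy
      refine ENNReal.ofReal_le_ofReal ?_
      have h4 := hsub x hx y hy
      have h5 := hst y h4 x (hxm x hx) (by
        rw [abs_sub_comm, ← Real.dist_eq]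
        linarith)
      rw [hS] at hx
      rw [div_le_iff₀ hK]
      linarith [hx.2])
    hA ENNReal.ofReal_ne_top
    (by
      rw [← ENNReal.ofReal_mul hδ.le]
      have : 0 < δ * (τ / K) := by positivity
      exact (ENNReal.ofReal_pos.2 this).ne')
  refine ⟨F, ?_, fun s hs hτs => ?_⟩
  · rw [← ENNReal.ofReal_mul hδ.le, ← ENNReal.ofReal_natCast, ← ENNReal.ofReal_mul (Nat.cast_nonneg _)] at h2
    have h4 := (ENNReal.ofReal_le_ofReal_iff hA0).1 h2
    have h5 := mul_le_mul_of_nonneg_left h4 hK.le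
    have h6 : K * ((F.card : ℝ) * (δ * (τ / K))) = (F.card : ℝ) * (δ * τ) := by field_simp
    rwa [h6] at h5
  · obtain ⟨x, hx, hsx⟩ := h3 s (by rw [hS]; exact ⟨hs, hτs⟩)
    rw [max_eq_left hδ.le] at hsx
    exact ⟨x, hx, hsx⟩

/-- the dimension of the set where infinitely many blocks are large -/
theorem dim_core {W : ℕ → ℕ → ℝ → ℝ} {a b ρ B K θ e : ℝ} (hρ : 0 < ρ) (hB : 1 ≤ B) (hK : 0 < K)
    (hst : ∀ (p n : ℕ), ∀ s ∈ Icc a b, ∀ s' ∈ Icc a b, |s' - s| * B * ((2 : ℝ) ^ p * 2 ^ n) ≤ 1 → W p n s' ≤ K * W p n s)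
    (hm : ∀ η : ℝ, 0 < η → ∃ C : ℝ, 1 ≤ C ∧ ∀ p n : ℕ, n ≤ p → ((2 : ℝ) ^ p) ^ (1 / 10 : ℝ) ≤ (2 : ℝ) ^ n → (2 : ℝ) ^ n ≤ ((2 : ℝ) ^ p) ^ (4 / 9 + 1 / 1000 : ℝ) →
      ∫⁻ s in Icc a b, ENNReal.ofReal (W p n s) ≤ ENNReal.ofReal (C * ((2 : ℝ) ^ p) ^ η * FR ((2 : ℝ) ^ p) ((2 : ℝ) ^ n)))
    (hθ : 5 / 9 ≤ θ) (hθ1 : θ < 1) (he : 0 < e) {d : ℝ} (hd : 0 < d) (hdθ : Dm θ ≤ d) (hd1 : d ≤ 1) :
    μH[d] {s | s ∈ Icc (a + ρ) (b - ρ) ∧ ¬ ∃ C : ℝ, 0 ≤ C ∧ ∀ p n : ℕ, n ≤ p → ((2 : ℝ) ^ p) ^ (1 / 9 : ℝ) ≤ (2 : ℝ) ^ n →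
      (2 : ℝ) ^ n ≤ ((2 : ℝ) ^ p) ^ (1 - θ) → W p n s ≤ C * (((2 : ℝ) ^ p) ^ e * TB 12 (θ + e) ((2 : ℝ) ^ p) (2 ^ n))} = 0 := by
  classical
  have hX0 : ∀ p : ℕ, (0 : ℝ) < 2 ^ p := fun p => by positivity
  have hX1 : ∀ p : ℕ, (1 : ℝ) ≤ 2 ^ p := fun p => one_le_pow₀ (by norm_num)
  obtain ⟨C, hC, hm1⟩ := hm e he
  obtain ⟨B', hB'⟩ : ∃ B' : ℝ, B' = B + 1 / ρ := ⟨_, rfl⟩
  have hρ' : 0 < 1 / ρ := by positivity
  have hBB : B ≤ B' := by
    rw [hB']
    linarith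
  have hB'1 : 1 ≤ B' := hB.trans hBB
  have hB'0 : 0 < B' := by linarith
  have hB'ρ : 1 / B' ≤ ρ := by
    rw [div_le_iff₀ hB'0, hB']
    have : ρ * (1 / ρ) = 1 := by field_simp
    nlinarith
  obtain ⟨Q, hQ⟩ : ∃ Q : ℕ → ℕ → Prop, Q = fun p n => n ≤ p ∧ ((2 : ℝ) ^ p) ^ (1 / 9 : ℝ) ≤ (2 : ℝ) ^ n ∧ (2 : ℝ) ^ n ≤ ((2 : ℝ) ^ p) ^ (1 - θ) := ⟨_, rfl⟩
  obtain ⟨δ, hδ⟩ : ∃ δ : ℕ → ℕ → ℝ, ∀ p n, δ p n = 1 / (B' * ((2 : ℝ) ^ p * 2 ^ n)) := ⟨_, fun _ _ => rfl⟩
  obtain ⟨τ, hτ⟩ : ∃ τ : ℕ → ℕ → ℝ, ∀ p n, τ p n = ((2 : ℝ) ^ p) ^ e * TB 12 (θ + e) ((2 : ℝ) ^ p) (2 ^ n) := ⟨_, fun _ _ => rfl⟩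
  have hδ0 : ∀ p n, 0 < δ p n := fun p n => by
    rw [hδ]
    positivity
  have hδρ : ∀ p n, δ p n ≤ ρ := fun p n => by
    refine le_trans ?_ hB'ρ
    rw [hδ]
    refine one_div_le_one_div_of_le hB'0 ?_
    have h1 := hX1 p
    have h2 := hX1 n
    have h3 : (1 : ℝ) ≤ 2 ^ p * 2 ^ n := one_le_mul_of_one_le_of_one_le h1 h2
    nlinarith
  have hδp : ∀ p n, δ p n ≤ (1 / 2 : ℝ) ^ p := fun p n => by
    rw [hδ, one_div_pow]
    refine one_div_le_one_div_of_le (hX0 p) ?_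
    have h2 := hX1 n
    have h3 : (2 : ℝ) ^ p ≤ 2 ^ p * 2 ^ n := le_mul_of_one_le_right (hX0 p).le h2
    have h4 : 0 < (2 : ℝ) ^ p * 2 ^ n := mul_pos (hX0 p) (hX0 n)
    nlinarith
  have hτ0 : ∀ p n, 0 < τ p n := fun p n => by
    rw [hτ]
    exact mul_pos (rpow_pos_of_pos (hX0 p) _) (TB_pos (hX0 p) (hX0 n))
  -- the intervals of one block
  have hblock : ∀ p n, ∃ F : Finset ℝ, (Q p n → (F.card : ℝ) * (δ p n * τ p n) ≤ K * (C * ((2 : ℝ) ^ p) ^ e * FR ((2 : ℝ) ^ p) ((2 : ℝ) ^ n)) ∧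
      ∀ s ∈ Icc (a + ρ) (b - ρ), τ p n < W p n s → ∃ x ∈ F, s ∈ closedBall x (δ p n)) ∧ (¬ Q p n → F = ∅) := by
    intro p n
    by_cases hq : Q p n
    · have hq' := hq
      rw [hQ] at hq'
      obtain ⟨q0, q1, q2⟩ := hq'
      have h1 := hm1 p n q0 ((rpow_le_rpow_of_exponent_le (hX1 p) (by norm_num)).trans q1) (q2.trans (rpow_le_rpow_of_exponent_le (hX1 p) (by linarith)))
      have hFR : 0 < FR ((2 : ℝ) ^ p) ((2 : ℝ) ^ n) := by
        unfold FR
        positivity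
      obtain ⟨F, h2, h3⟩ := block (W := W p n) (a := a) (b := b) (hδ0 p n) (hδρ p n) hK (hτ0 p n) (fun s hs s' hs' hss => by
        refine hst p n s hs s' hs' ?_
        rw [hδ, le_div_iff₀ (by positivity)] at hss
        refine le_trans ?_ hss
        have h4 : 0 ≤ |s' - s| := abs_nonneg _
        have h5 : 0 < (2 : ℝ) ^ p * 2 ^ n := mul_pos (hX0 p) (hX0 n)
        calc |s' - s| * B * ((2 : ℝ) ^ p * 2 ^ n) ≤ |s' - s| * B' * ((2 : ℝ) ^ p * 2 ^ n) := by gcongr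
          _ = |s' - s| * (B' * ((2 : ℝ) ^ p * 2 ^ n)) := by ring) h1 (by positivity)
      exact ⟨F, fun _ => ⟨h2, h3⟩, fun h => absurd hq h⟩
    · exact ⟨∅, fun h => absurd h hq, fun _ => rfl⟩
  choose F hF1 hF2 using hblock
  refine hausdorff_cantelli (ι := fun p => Σ n : Fin (p + 1), {x // x ∈ F p n}) _ (fun p i => closedBall i.2.1 (δ p i.1))
    (fun p => ENNReal.ofReal (2 * (1 / 2 : ℝ) ^ p)) ?_ ?_ ?_ ?_ ?_
  · -- tends to zero
    have h1 : Tendsto (fun p : ℕ => 2 * (1 / 2 : ℝ) ^ p) atTop (𝓝 (2 * 0)) := (tendsto_pow_atTop_nhds_zero_of_lt_one (by norm_num) (by norm_num)).const_mul 2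
    rw [mul_zero] at h1
    have h2 := ENNReal.tendsto_ofReal h1
    rwa [ENNReal.ofReal_zero] at h2
  · intro p q hpq
    refine ENNReal.ofReal_le_ofReal ?_
    have h1 : (1 / 2 : ℝ) ^ q ≤ (1 / 2 : ℝ) ^ p := pow_le_pow_of_le_one (by norm_num) (by norm_num) hpq
    linarith
  · intro p i
    rw [ediam_ball75]
    refine ENNReal.ofReal_le_ofReal ?_
    have := hδp p i.1
    linarith
  · -- every exceptional point is in infinitely many intervals
    rintro s ⟨hs, hs2⟩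
    by_contra hcon
    rw [not_frequently, eventually_atTop] at hcon
    obtain ⟨p0, hp0⟩ := hcon
    refine hs2 ?_
    obtain ⟨T, hT⟩ : ∃ T : ℝ, T = ∑ p ∈ Finset.range p0, ∑ n ∈ Finset.range (p + 1), |W p n s| / τ p n := ⟨_, rfl⟩
    have hT0 : 0 ≤ T := by
      rw [hT]
      exact Finset.sum_nonneg fun p _ => Finset.sum_nonneg fun n _ => div_nonneg (abs_nonneg _) (hτ0 p n).le
    refine ⟨T + 1, by linarith, fun p n q0 q1 q2 => ?_⟩
    rw [← hτ]
    have hq : Q p n := by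
      rw [hQ]
      exact ⟨q0, q1, q2⟩
    rcases lt_or_ge p p0 with hp | hp
    · have h1 : |W p n s| / τ p n ≤ T := by
        rw [hT]
        refine le_trans ?_ (Finset.single_le_sum (f := fun p => ∑ n ∈ Finset.range (p + 1), |W p n s| / τ p n)
          (fun p _ => Finset.sum_nonneg fun n _ => div_nonneg (abs_nonneg _) (hτ0 p n).le) (Finset.mem_range.2 hp))
        exact Finset.single_le_sum (f := fun n => |W p n s| / τ p n) (fun n _ => div_nonneg (abs_nonneg _) (hτ0 p n).le) (Finset.mem_range.2 (Nat.lt_succ_iff.2 q0))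
      rw [div_le_iff₀ (hτ0 p n)] at h1
      have h2 := le_abs_self (W p n s)
      have h3 := (hτ0 p n).le
      nlinarith
    · have h1 : ¬ τ p n < W p n s := by
        intro h2
        obtain ⟨x, hx, h3⟩ := (hF1 p n hq).2 s hs h2
        exact hp0 p hp ⟨⟨⟨n, Nat.lt_succ_iff.2 q0⟩, ⟨x, hx⟩⟩, h3⟩
      have h2 := not_lt.1 h1
      have h3 := mul_nonneg hT0 (hτ0 p n).le
      linarith
  · -- the sum
    obtain ⟨r, hr⟩ : ∃ r : ℝ, r = (2 : ℝ) ^ (-e) := ⟨_, rfl⟩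
    have hr0 : 0 ≤ r := by
      rw [hr]
      positivity
    have hr1 : r < 1 := by
      rw [hr]
      exact rpow_lt_one_of_one_lt_of_neg (by norm_num) (by linarith)
    refine ne_top_of_le_ne_top (geo75 hr0 hr1 (4 * K * C * B')) (ENNReal.tsum_le_tsum fun p => ?_)
    rw [ENNReal.tsum_sigma', tsum_fintype]
    have hone : ∀ n : Fin (p + 1), ∑' i : {x // x ∈ F p n}, ediam (closedBall i.1 (δ p n)) ^ d ≤ ENNReal.ofReal (4 * K * C * B' * r ^ p) := by
      intro n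
      have e1 : ∀ i : {x // x ∈ F p n}, ediam (closedBall i.1 (δ p n)) ^ d = ENNReal.ofReal ((2 * δ p n) ^ d) := by
        intro i
        rw [ediam_ball75, ENNReal.ofReal_rpow_of_pos (by have := hδ0 p n; linarith)]
      simp only [e1]
      rw [tsum_fintype, Finset.sum_const, Finset.card_univ, Fintype.card_coe, nsmul_eq_mul, ← ENNReal.ofReal_natCast, ← ENNReal.ofReal_mul (Nat.cast_nonneg _)]
      refine ENNReal.ofReal_le_ofReal ?_
      by_cases hq : Q p n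
      · have h1 := (hF1 p n hq).1
        rw [hQ] at hq
        obtain ⟨q0, q1, q2⟩ := hq
        have hN1 := hX1 (n : ℕ)
        obtain ⟨X, hX⟩ : ∃ X : ℝ, X = (2 : ℝ) ^ p := ⟨_, rfl⟩
        obtain ⟨N, hN⟩ : ∃ N : ℝ, N = (2 : ℝ) ^ (n : ℕ) := ⟨_, rfl⟩
        obtain ⟨dl, hdl⟩ : ∃ dl : ℝ, dl = δ p n := ⟨_, rfl⟩
        have hX1' : 1 ≤ X := by
          rw [hX]
          exact hX1 p
        have hX0' : 0 < X := by linarith
        have hN0' : 0 < N := by
          rw [hN]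
          exact hX0 n
        have hC0 : 0 < C := by linarith
        have hrp : r ^ p = X ^ (-e) := by
          rw [hr, hX, ← rpow_natCast, ← rpow_mul (by norm_num), ← rpow_natCast, ← rpow_mul (by norm_num)]
          congr 1
          ring
        have hT := TB_pos (q := 12) (θ := 5 / 9) hX0' (show 0 < N by rw [hN]; exact hX0 n)
        have h2 := FR_TB75 (X := X) (N := N) hX1' (by rw [hN]; exact hN1) (by rw [hX, hN]; exact q1)
        have h3 : τ p n = X ^ e * (X ^ (12 * (θ + e - 5 / 9)) * TB 12 (5 / 9) X N) := by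
          rw [hτ, ← hX, ← hN, TB_split hX0']
        rw [h3, ← hX, ← hN, ← hdl] at h1
        rw [← hdl]
        have hdl0 : 0 < dl := by
          rw [hdl]
          exact hδ0 p n
        -- the number of intervals times the length
        have h4 : ((F p n).card : ℝ) * dl * X ^ (12 * (θ + e - 5 / 9)) ≤ 2 * K * C := by
          have h5 : K * (C * X ^ e * FR X N) ≤ K * (C * X ^ e * (2 * TB 12 (5 / 9) X N)) := by gcongr
          have h6 := h1.trans h5
          have h7 : 0 < X ^ e * TB 12 (5 / 9) X N := by positivity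
          have h8 : ((F p n).card : ℝ) * (dl * (X ^ e * (X ^ (12 * (θ + e - 5 / 9)) * TB 12 (5 / 9) X N))) =
            (((F p n).card : ℝ) * dl * X ^ (12 * (θ + e - 5 / 9))) * (X ^ e * TB 12 (5 / 9) X N) := by ring
          have h9 : K * (C * X ^ e * (2 * TB 12 (5 / 9) X N)) = (2 * K * C) * (X ^ e * TB 12 (5 / 9) X N) := by ring
          rw [h8, h9] at h6
          exact le_of_mul_le_mul_right h6 h7
        have h10 : (2 * dl) ^ d ≤ 2 * (dl * dl ^ (d - 1)) := by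
          rw [mul_rpow (by norm_num) hdl0.le]
          have h11 : (2 : ℝ) ^ d ≤ 2 := by
            calc (2 : ℝ) ^ d ≤ 2 ^ (1 : ℝ) := rpow_le_rpow_of_exponent_le (by norm_num) hd1
              _ = 2 := rpow_one 2
          have h12 : dl * dl ^ (d - 1) = dl ^ d := by
            nth_rewrite 1 [← rpow_one dl]
            rw [← rpow_add hdl0]
            congr 1
            ring
          rw [h12]
          exact mul_le_mul_of_nonneg_right h11 (by positivity)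
        have h13 : dl ^ (d - 1) ≤ B' * X ^ (12 * (θ - 5 / 9)) := by
          have h14 : dl ^ (d - 1) = (B' * (X * N)) ^ (1 - d) := by
            rw [hdl, hδ, ← hX, ← hN, one_div, inv_rpow (by positivity), ← rpow_neg (by positivity)]
            congr 1
            ring
          rw [h14, mul_rpow hB'0.le (by positivity)]
          have h15 : B' ^ (1 - d) ≤ B' := by
            calc B' ^ (1 - d) ≤ B' ^ (1 : ℝ) := rpow_le_rpow_of_exponent_le hB'1 (by linarith)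
              _ = B' := rpow_one _
          have h16 : X * N ≤ X ^ (2 - θ) := by
            calc X * N ≤ X * X ^ (1 - θ) := mul_le_mul_of_nonneg_left (by rw [hX, hN]; exact q2) hX0'.le
              _ = X ^ (2 - θ) := by
                nth_rewrite 1 [← rpow_one X]
                rw [← rpow_add hX0']
                congr 1
                ring
          have h17 : (X * N) ^ (1 - d) ≤ X ^ (12 * (θ - 5 / 9)) := by
            calc (X * N) ^ (1 - d) ≤ (X ^ (2 - θ)) ^ (1 - d) := rpow_le_rpow (by positivity) h16 (by linarith)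
              _ = X ^ ((2 - θ) * (1 - d)) := by rw [← rpow_mul hX0'.le]
              _ ≤ X ^ (12 * (θ - 5 / 9)) := by
                refine rpow_le_rpow_of_exponent_le hX1' ?_
                unfold Dm at hdθ
                have h18 : 0 < 2 - θ := by linarith
                have h19 : 1 - d ≤ 12 * (θ - 5 / 9) / (2 - θ) := by linarith
                rw [le_div_iff₀ h18] at h19
                linarith
          exact mul_le_mul h15 h17 (by positivity) hB'0.le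
        have h20 : X ^ (12 * (θ + e - 5 / 9)) = X ^ (12 * (θ - 5 / 9)) * X ^ (12 * e) := by
          rw [← rpow_add hX0']
          congr 1
          ring
        have h21 : X ^ (-e) * X ^ (12 * e) ≥ 1 := by
          rw [← rpow_add hX0']
          exact one_le_rpow hX1' (by linarith)
        rw [hrp]
        have hcard : (0 : ℝ) ≤ (F p n).card := Nat.cast_nonneg _
        have hXe : 0 ≤ X ^ (-e) := by positivity
        have hXt : 0 < X ^ (12 * (θ - 5 / 9)) := by positivity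
        rw [h20] at h4
        have h22 : ((F p n).card : ℝ) * dl * X ^ (12 * (θ - 5 / 9)) ≤ 2 * K * C * X ^ (-e) := by
          have h23 := mul_le_mul_of_nonneg_right h4 hXe
          refine le_trans ?_ h23
          have h24 : 0 ≤ ((F p n).card : ℝ) * dl * X ^ (12 * (θ - 5 / 9)) := by positivity
          calc ((F p n).card : ℝ) * dl * X ^ (12 * (θ - 5 / 9)) = ((F p n).card : ℝ) * dl * X ^ (12 * (θ - 5 / 9)) * 1 := by ring
            _ ≤ ((F p n).card : ℝ) * dl * X ^ (12 * (θ - 5 / 9)) * (X ^ (-e) * X ^ (12 * e)) := mul_le_mul_of_nonneg_left h21 h24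
            _ = _ := by ring
        calc ((F p n).card : ℝ) * (2 * dl) ^ d ≤ ((F p n).card : ℝ) * (2 * (dl * (B' * X ^ (12 * (θ - 5 / 9))))) := by
              refine mul_le_mul_of_nonneg_left (h10.trans ?_) hcard
              have := mul_le_mul_of_nonneg_left h13 hdl0.le
              linarith
          _ = 2 * B' * (((F p n).card : ℝ) * dl * X ^ (12 * (θ - 5 / 9))) := by ring
          _ ≤ 2 * B' * (2 * K * C * X ^ (-e)) := mul_le_mul_of_nonneg_left h22 (by positivity)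
          _ = 4 * K * C * B' * X ^ (-e) := by ring
      · rw [hF2 p n hq]
        simp only [Finset.card_empty, Nat.cast_zero, zero_mul]
        positivity
    refine (Finset.sum_le_sum fun n _ => hone n).trans (le_of_eq ?_)
    rw [Finset.sum_const, Finset.card_univ, Fintype.card_fin, nsmul_eq_mul, ← ENNReal.ofReal_natCast, ← ENNReal.ofReal_mul (Nat.cast_nonneg _)]
    congr 1
    push_cast
    ring

end Pool.Agent.Helper75.GD
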