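import Pool.Agent.Helper75.GD.Cov
import Mathlib.Analysis.SpecialFunctions.Pow.Real
import Mathlib.MeasureTheory.Integral.Bochner.Basic

/-!
# Exceptional sets (MP_fb29e9_nt): the dimension of the set of large blocks, general spaces of parameters
-/

open MeasureTheory Real Set Filter Topology Metric
open scoped ENNReal NNReal

set_option autoImplicit false

namespace Pool.Agent.Helper75.GD

private theorem geo75' {r : ℝ} (hr : 0 ≤ r) (hr1 : r < 1) (A : ℝ) : ∑' p : ℕ, ENNReal.ofReal (((p : ℝ) + 1) * (A * r ^ p)) ≠ ⊤ := by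
  have h1 : ‖r‖ < 1 := by rwa [norm_of_nonneg hr]
  have h2 := summable_pow_mul_geometric_of_norm_lt_one 1 h1
  have h3 := summable_pow_mul_geometric_of_norm_lt_one 0 h1
  have h4 : Summable fun p : ℕ => ((p : ℝ) + 1) * (A * r ^ p) := by
    refine ((h2.add h3).mul_left A).congr fun p => ?_
    ring
  exact h4.tsum_ofReal_ne_top

private theorem ediam_ball75' {M : Type*} [PseudoMetricSpace M] {x : M} {δ : ℝ} (hδ : 0 ≤ δ) : ediam (closedBall x δ) ≤ ENNReal.ofReal (2 * δ) := by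
  refine ediam_le fun y hy z hz => ?_
  rw [edist_dist]
  refine ENNReal.ofReal_le_ofReal ?_
  have h1 := mem_closedBall.1 hy
  have h2 := mem_closedBall.1 hz
  have h3 := dist_triangle_right y z x
  linarith

/-- one block: the number of balls -/
theorem block_gen {M : Type*} [PseudoMetricSpace M] [MeasurableSpace M] [BorelSpace M] (μ : Measure M) {W : M → ℝ} {S : Set M} {K δ τ A m : ℝ}
    (hδ : 0 < δ) (hK : 0 < K) (hτ : 0 < τ) (hm : 0 < m) (hA0 : 0 ≤ A) (hμ : ∀ x ∈ S, ENNReal.ofReal m ≤ μ (closedBall x (δ / 2)))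
    (hst : ∀ x ∈ S, ∀ y, dist y x ≤ δ / 2 → W x ≤ K * W y)
    (hA : ∫⁻ x, ENNReal.ofReal (W x) ∂μ ≤ ENNReal.ofReal A) :
    ∃ F : Finset M, (F.card : ℝ) * (m * τ) ≤ K * A ∧ ∀ s ∈ S, τ < W s → ∃ x ∈ F, s ∈ closedBall x δ := by
  obtain ⟨F, h1, h2, h3⟩ := few_balls (μ := μ) (W := fun s => ENNReal.ofReal (W s)) (B := {s | s ∈ S ∧ τ < W s}) (δ := δ)
    (m := ENNReal.ofReal m) (τ := ENNReal.ofReal (τ / K)) (A := ENNReal.ofReal A)
    (fun x hx => hμ x hx.1)
    (by
      intro x hx y hy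
      refine ENNReal.ofReal_le_ofReal ?_
      have h5 := hst x hx.1 y hy
      have h6 := hx.2
      rw [div_le_iff₀ hK]
      linarith)
    hA ENNReal.ofReal_ne_top
    (by
      rw [← ENNReal.ofReal_mul hm.le]
      have : 0 < m * (τ / K) := by positivity
      exact (ENNReal.ofReal_pos.2 this).ne')
  refine ⟨F, ?_, fun s hs hτs => ?_⟩
  · rw [← ENNReal.ofReal_mul hm.le, ← ENNReal.ofReal_natCast, ← ENNReal.ofReal_mul (Nat.cast_nonneg _)] at h2
    have h4 := (ENNReal.ofReal_le_ofReal_iff hA0).1 h2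
    have h5 := mul_le_mul_of_nonneg_left h4 hK.le
    have h6 : K * ((F.card : ℝ) * (m * (τ / K))) = (F.card : ℝ) * (m * τ) := by field_simp
    rwa [h6] at h5
  · obtain ⟨x, hx, hsx⟩ := h3 s ⟨hs, hτs⟩
    rw [max_eq_left hδ.le] at hsx
    exact ⟨x, hx, hsx⟩

/-- the dimension of the set where infinitely many blocks are large -/
theorem dim_gen {M : Type*} [MetricSpace M] [MeasurableSpace M] [BorelSpace M] (μ : Measure M) {W : ℕ → ℕ → M → ℝ} {S : Set M} {Q : ℕ → ℕ → Prop}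
    {δ τ A m : ℕ → ℕ → ℝ} {K C r d : ℝ} (hK : 0 < K) (hC : 0 ≤ C) (hr : 0 ≤ r) (hr1 : r < 1) (hd : 0 < d)
    (hQ : ∀ p n, Q p n → n ≤ p) (hδ : ∀ p n, 0 < δ p n) (hδp : ∀ p n, δ p n ≤ (1 / 2 : ℝ) ^ p) (hτ : ∀ p n, 0 < τ p n) (hm : ∀ p n, 0 < m p n)
    (hA0 : ∀ p n, 0 ≤ A p n)
    (hμ : ∀ p n, Q p n → ∀ x ∈ S, ENNReal.ofReal (m p n) ≤ μ (closedBall x (δ p n / 2)))
    (hst : ∀ p n, Q p n → ∀ x ∈ S, ∀ y, dist y x ≤ δ p n / 2 → W p n x ≤ K * W p n y)
    (hA : ∀ p n, Q p n → ∫⁻ x, ENNReal.ofReal (W p n x) ∂μ ≤ ENNReal.ofReal (A p n))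
    (hsum : ∀ p n, Q p n → A p n * (2 * δ p n) ^ d ≤ C * r ^ p * (m p n * τ p n)) :
    μH[d] {s | s ∈ S ∧ ¬ ∃ C : ℝ, 0 ≤ C ∧ ∀ p n : ℕ, Q p n → W p n s ≤ C * τ p n} = 0 := by
  classical
  have hblock : ∀ p n, ∃ F : Finset M, (Q p n → (F.card : ℝ) * (m p n * τ p n) ≤ K * A p n ∧
      ∀ s ∈ S, τ p n < W p n s → ∃ x ∈ F, s ∈ closedBall x (δ p n)) ∧ (¬ Q p n → F = ∅) := by
    intro p n
    by_cases hq : Q p n
    · obtain ⟨F, h2, h3⟩ := block_gen μ (W := W p n) (S := S) (hδ p n) hK (hτ p n) (hm p n) (hA0 p n) (hμ p n hq) (hst p n hq) (hA p n hq)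
      exact ⟨F, fun _ => ⟨h2, h3⟩, fun h => absurd hq h⟩
    · exact ⟨∅, fun h => absurd h hq, fun _ => rfl⟩
  choose F hF1 hF2 using hblock
  refine hausdorff_cantelli (ι := fun p => Σ n : Fin (p + 1), {x // x ∈ F p n}) _ (fun p i => closedBall i.2.1 (δ p i.1))
    (fun p => ENNReal.ofReal (2 * (1 / 2 : ℝ) ^ p)) ?_ ?_ ?_ ?_ ?_
  · have h1 : Tendsto (fun p : ℕ => 2 * (1 / 2 : ℝ) ^ p) atTop (𝓝 (2 * 0)) := (tendsto_pow_atTop_nhds_zero_of_lt_one (by norm_num) (by norm_num)).const_mul 2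
    rw [mul_zero] at h1
    have h2 := ENNReal.tendsto_ofReal h1
    rwa [ENNReal.ofReal_zero] at h2
  · intro p q hpq
    refine ENNReal.ofReal_le_ofReal ?_
    have h1 : (1 / 2 : ℝ) ^ q ≤ (1 / 2 : ℝ) ^ p := pow_le_pow_of_le_one (by norm_num) (by norm_num) hpq
    linarith
  · intro p i
    refine (ediam_ball75' (hδ _ _).le).trans (ENNReal.ofReal_le_ofReal ?_)
    have := hδp p i.1
    linarith
  · rintro s ⟨hs, hs2⟩
    by_contra hcon
    rw [not_frequently, eventually_atTop] at hcon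
    obtain ⟨p0, hp0⟩ := hcon
    refine hs2 ?_
    obtain ⟨T, hT⟩ : ∃ T : ℝ, T = ∑ p ∈ Finset.range p0, ∑ n ∈ Finset.range (p + 1), |W p n s| / τ p n := ⟨_, rfl⟩
    have hT0 : 0 ≤ T := by
      rw [hT]
      exact Finset.sum_nonneg fun p _ => Finset.sum_nonneg fun n _ => div_nonneg (abs_nonneg _) (hτ p n).le
    refine ⟨T + 1, by linarith, fun p n hq => ?_⟩
    have q0 := hQ p n hq
    rcases lt_or_ge p p0 with hp | hp
    · have h1 : |W p n s| / τ p n ≤ T := by
        rw [hT]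
        refine le_trans ?_ (Finset.single_le_sum (f := fun p => ∑ n ∈ Finset.range (p + 1), |W p n s| / τ p n)
          (fun p _ => Finset.sum_nonneg fun n _ => div_nonneg (abs_nonneg _) (hτ p n).le) (Finset.mem_range.2 hp))
        exact Finset.single_le_sum (f := fun n => |W p n s| / τ p n) (fun n _ => div_nonneg (abs_nonneg _) (hτ p n).le) (Finset.mem_range.2 (Nat.lt_succ_iff.2 q0))
      rw [div_le_iff₀ (hτ p n)] at h1
      have h2 := le_abs_self (W p n s)
      have h3 := (hτ p n).le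
      nlinarith
    · have h1 : ¬ τ p n < W p n s := by
        intro h2
        obtain ⟨x, hx, h3⟩ := (hF1 p n hq).2 s hs h2
        exact hp0 p hp ⟨⟨⟨n, Nat.lt_succ_iff.2 q0⟩, ⟨x, hx⟩⟩, h3⟩
      have h2 := not_lt.1 h1
      have h3 := mul_nonneg hT0 (hτ p n).le
      linarith
  · refine ne_top_of_le_ne_top (geo75' hr hr1 (K * C)) (ENNReal.tsum_le_tsum fun p => ?_)
    rw [ENNReal.tsum_sigma', tsum_fintype]
    have hone : ∀ n : Fin (p + 1), ∑' i : {x // x ∈ F p n}, ediam (closedBall i.1 (δ p n)) ^ d ≤ ENNReal.ofReal (K * C * r ^ p) := by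
      intro n
      have e1 : ∀ i : {x // x ∈ F p n}, ediam (closedBall i.1 (δ p n)) ^ d ≤ ENNReal.ofReal ((2 * δ p n) ^ d) := by
        intro i
        refine (ENNReal.rpow_le_rpow (ediam_ball75' (hδ _ _).le) hd.le).trans (le_of_eq ?_)
        rw [ENNReal.ofReal_rpow_of_pos (by have := hδ p n; linarith)]
      refine (ENNReal.tsum_le_tsum e1).trans ?_
      rw [tsum_fintype, Finset.sum_const, Finset.card_univ, Fintype.card_coe, nsmul_eq_mul, ← ENNReal.ofReal_natCast, ← ENNReal.ofReal_mul (Nat.cast_nonneg _)]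
      refine ENNReal.ofReal_le_ofReal ?_
      by_cases hq : Q p n
      · have h1 := (hF1 p n hq).1
        have h2 := hsum p n hq
        have h3 : 0 < m p n * τ p n := mul_pos (hm p n) (hτ p n)
        have h4 : 0 ≤ (2 * δ p n) ^ d := by
          have := hδ p n
          positivity
        refine le_of_mul_le_mul_right ?_ h3
        calc ((F p n).card : ℝ) * (2 * δ p n) ^ d * (m p n * τ p n) = ((F p n).card : ℝ) * (m p n * τ p n) * (2 * δ p n) ^ d := by ring
          _ ≤ K * A p n * (2 * δ p n) ^ d := mul_le_mul_of_nonneg_right h1 h4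
          _ = K * (A p n * (2 * δ p n) ^ d) := by ring
          _ ≤ K * (C * r ^ p * (m p n * τ p n)) := mul_le_mul_of_nonneg_left h2 hK.le
          _ = K * C * r ^ p * (m p n * τ p n) := by ring
      · rw [hF2 p n hq]
        simp only [Finset.card_empty, Nat.cast_zero, zero_mul]
        positivity
    refine (Finset.sum_le_sum fun n _ => hone n).trans (le_of_eq ?_)
    rw [Finset.sum_const, Finset.card_univ, Fintype.card_fin, nsmul_eq_mul, ← ENNReal.ofReal_natCast, ← ENNReal.ofReal_mul (Nat.cast_nonneg _)]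
    congr 1
    push_cast
    ring

end Pool.Agent.Helper75.GD
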