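import Pool.Agent.Helper75.GD.WJ
import Pool.Agent.Helper75.TW.Fin

/-!
# Exceptional sets (MP_fb29e9_nt): frames
-/

open MeasureTheory Real Set Filter Topology Metric
open scoped ENNReal NNReal

set_option autoImplicit false

namespace Pool.Agent.Helper75.GD

open Pool.Agent.Helper22.AE
open Pool.Agent.Helper22.AC (cntc ga)
open Pool.Agent.Helper75.TW (m20 m20_nonneg J20 Mm mm_JJ mm_J20 TB TB_pos MomF F12 tb_num frame_core)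
open Pool.Agent.Helper92.LA (JJ HL WL)
open Pool.Agent.Helper22.LP (Fr fdet hom Hf wr)

/-- the bound for a frame -/
def FB (H : ℝ → ℝ) (θ : ℝ) (f : Fr) : Prop :=
  ∀ ε : ℝ, 0 < ε → ∃ C : ℝ, ∀ R : ℝ, 1 ≤ R → ∀ c : ℝ × ℝ, |cntc (Hf H f) c R - area (Hf H f) * R ^ 2| ≤ C * R ^ (θ + ε)

/-- the blocks of one moment are small -/
def GoodJ (J : Fr → (ℝ × ℝ → ℝ) → ℝ → ℕ → ℝ) (q : ℕ) (H : ℝ → ℝ) (α₀ θ e ν ν' : ℝ) (f : Fr) : Prop :=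
  ∃ C : ℝ, 0 ≤ C ∧ ∀ p n : ℕ, (n ≤ p ∧ ((2 : ℝ) ^ p) ^ ν ≤ (2 : ℝ) ^ n ∧ (2 : ℝ) ^ n ≤ ((2 : ℝ) ^ p) ^ ν') →
    WJ J H α₀ p n f ≤ C * (((2 : ℝ) ^ p) ^ e * TB q (θ + e) ((2 : ℝ) ^ p) (2 ^ n))

theorem GoodJ.mono {J : Fr → (ℝ × ℝ → ℝ) → ℝ → ℕ → ℝ} {q : ℕ} {H : ℝ → ℝ} {α₀ θ e ν ν' μ μ' : ℝ} {f : Fr} (h : GoodJ J q H α₀ θ e ν ν' f) (h1 : ν ≤ μ) (h2 : μ' ≤ ν') :
    GoodJ J q H α₀ θ e μ μ' f := by
  obtain ⟨C, hC, h3⟩ := h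
  refine ⟨C, hC, fun p n hq => h3 p n ⟨hq.1, ?_, ?_⟩⟩
  · exact (rpow_le_rpow_of_exponent_le (one_le_pow₀ (by norm_num)) h1).trans hq.2.1
  · exact hq.2.2.trans (rpow_le_rpow_of_exponent_le (one_le_pow₀ (by norm_num)) h2)

/-- a range of frequencies with one block only -/
theorem goodJ_one {J : Fr → (ℝ × ℝ → ℝ) → ℝ → ℕ → ℝ} {q : ℕ} {H : ℝ → ℝ} {α₀ θ e ν ν' : ℝ} (f : Fr) (h : ν' < ν) : GoodJ J q H α₀ θ e ν ν' f := by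
  refine ⟨|WJ J H α₀ 0 0 f|, abs_nonneg _, fun p n hq => ?_⟩
  have hp : p = 0 := by
    by_contra hp
    have h1 : (1 : ℝ) < 2 ^ p := one_lt_pow₀ (by norm_num) hp
    have h2 := hq.2.1.trans hq.2.2
    have h3 : ((2 : ℝ) ^ p) ^ ν' < ((2 : ℝ) ^ p) ^ ν := rpow_lt_rpow_of_exponent_lt h1 h
    linarith
  have hn0 : n = 0 := by
    have := hq.1
    omega
  subst hp hn0
  have e1 : TB q (θ + e) ((2 : ℝ) ^ 0) ((2 : ℝ) ^ 0) = 1 := by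
    unfold TB
    norm_num
  rw [e1]
  simp only [pow_zero, one_rpow, mul_one]
  exact le_abs_self _

/-- one frame: the lattice points from the moments -/
theorem good_FB {H : ℝ → ℝ} (hH : IsSupp H) {α₀ B : ℝ} (ha0 : 0 < α₀) (ha1 : α₀ < π / 2)
    (hjc : Continuous fun q : ℝ × (ℝ × ℝ) => hom (ga H q.1) q.2)
    (hfam : ∀ α ∈ Icc (-α₀) α₀, HL B (hom (ga H α)) ∧ WL B (wr H α) ∧ WL B (fun _ => 1)) {θ ν₂ : ℝ} (hθ : 1 / 2 < θ)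
    {f : Fr} (hf : 0 < fdet f) {e : ℝ} (he : 0 < e) (hθe : θ + e < 1)
    (h20 : GoodJ J20 20 H α₀ θ e (2 * (θ + e) - 1) ν₂ f) (h12 : GoodJ JJ 12 H α₀ θ e ν₂ (1 - θ) f) :
    ∃ C : ℝ, ∀ R : ℝ, 1 ≤ R → ∀ c : ℝ × ℝ, |cntc (Hf H f) c R - area (Hf H f) * R ^ 2| ≤ C * R ^ (θ + 3 * e) := by
  obtain ⟨C₁, hC₁, h1⟩ := h20
  obtain ⟨C₂, hC₂, h2⟩ := h12
  have hT : ∀ (q p n : ℕ), 0 ≤ ((2 : ℝ) ^ p) ^ e * TB q (θ + e) ((2 : ℝ) ^ p) (2 ^ n) := fun q p n => by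
    have := (TB_pos (q := q) (θ := θ + e) (show (0 : ℝ) < 2 ^ p by positivity) (show (0 : ℝ) < 2 ^ n by positivity)).le
    positivity
  obtain ⟨C, hC⟩ := frame_core hH ha0 ha1 hjc hfam hf.ne' (θ := θ + e) (ν₂ := ν₂) (ν₃ := 1 - θ) (by linarith) hθe he (by linarith) (by linarith)
    (C₁ := max C₁ C₂) (le_max_of_le_left hC₁)
    (fun p n hn q1 q2 => (h1 p n ⟨hn, q1, q2⟩).trans (mul_le_mul_of_nonneg_right (le_max_left _ _) (hT _ _ _)))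
    (fun p n hn q1 q2 => (h2 p n ⟨hn, q1, q2⟩).trans (mul_le_mul_of_nonneg_right (le_max_right _ _) (hT _ _ _)))
  refine ⟨C, fun R hR c => ?_⟩
  have h6 := hC R hR c
  have e1 : θ + e + 2 * e = θ + 3 * e := by ring
  rwa [e1] at h6

/-- the exceptional frames, from the sets of large blocks -/
theorem frame_zero {H : ℝ → ℝ} (hH : IsSupp H) {α₀ B : ℝ} (ha0 : 0 < α₀) (ha1 : α₀ < π / 2)
    (hjc : Continuous fun q : ℝ × (ℝ × ℝ) => hom (ga H q.1) q.2)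
    (hfam : ∀ α ∈ Icc (-α₀) α₀, HL B (hom (ga H α)) ∧ WL B (wr H α) ∧ WL B (fun _ => 1)) {θ ν₂ d : ℝ} (hθ : 1 / 2 < θ) (hθ1 : θ < 1)
    {U : Set Fr} (hU : ∀ f ∈ U, 0 < fdet f)
    (h20 : ∀ e : ℝ, 0 < e → μH[d] {f | f ∈ U ∧ ¬ GoodJ J20 20 H α₀ θ e (2 * (θ + e) - 1) ν₂ f} = 0)
    (h12 : ∀ e : ℝ, 0 < e → μH[d] {f | f ∈ U ∧ ¬ GoodJ JJ 12 H α₀ θ e ν₂ (1 - θ) f} = 0) :
    μH[d] {f | f ∈ U ∧ ¬ FB H θ f} = 0 := by
  obtain ⟨e, he⟩ : ∃ e : ℕ → ℝ, ∀ j, e j = (1 - θ) / (3 * ((j : ℝ) + 1)) := ⟨_, fun _ => rfl⟩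
  have he0 : ∀ j, 0 < e j := fun j => by
    rw [he]
    have : 0 < 1 - θ := by linarith
    positivity
  have he1 : ∀ j, θ + e j < 1 := fun j => by
    have h2 : e j ≤ (1 - θ) / 3 := by
      rw [he]
      refine div_le_div_of_nonneg_left (by linarith) (by norm_num) ?_
      have : (0 : ℝ) ≤ j := Nat.cast_nonneg j
      linarith
    linarith
  have hsub : {f | f ∈ U ∧ ¬ FB H θ f} ⊆ ⋃ j : ℕ, ({f | f ∈ U ∧ ¬ GoodJ J20 20 H α₀ θ (e j) (2 * (θ + e j) - 1) ν₂ f} ∪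
      {f | f ∈ U ∧ ¬ GoodJ JJ 12 H α₀ θ (e j) ν₂ (1 - θ) f}) := by
    rintro f ⟨hf, hf2⟩
    unfold FB at hf2
    push Not at hf2
    obtain ⟨ε, hε, hf3⟩ := hf2
    obtain ⟨j, hj⟩ := exists_nat_gt ((1 - θ) / ε)
    rw [mem_iUnion]
    refine ⟨j, ?_⟩
    by_contra hcon
    rw [mem_union, not_or] at hcon
    have g1 : GoodJ J20 20 H α₀ θ (e j) (2 * (θ + e j) - 1) ν₂ f := by
      by_contra h
      exact hcon.1 ⟨hf, h⟩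
    have g2 : GoodJ JJ 12 H α₀ θ (e j) ν₂ (1 - θ) f := by
      by_contra h
      exact hcon.2 ⟨hf, h⟩
    obtain ⟨C, hC⟩ := good_FB hH ha0 ha1 hjc hfam hθ (hU f hf) (he0 j) (he1 j) g1 g2
    obtain ⟨R, hR, c, hRc⟩ := hf3 |C|
    refine absurd ((hC R hR c).trans ?_) (not_le.2 hRc)
    have h6 : 3 * e j ≤ ε := by
      rw [he]
      have hj1 : (0 : ℝ) < (j : ℝ) + 1 := by positivity
      rw [div_lt_iff₀ hε] at hj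
      have h7 : 3 * ((1 - θ) / (3 * ((j : ℝ) + 1))) = (1 - θ) / ((j : ℝ) + 1) := by field_simp
      rw [h7, div_le_iff₀ hj1]
      nlinarith
    calc C * R ^ (θ + 3 * e j) ≤ |C| * R ^ (θ + 3 * e j) := mul_le_mul_of_nonneg_right (le_abs_self C) (by positivity)
      _ ≤ |C| * R ^ (θ + ε) := mul_le_mul_of_nonneg_left (rpow_le_rpow_of_exponent_le hR (by linarith)) (abs_nonneg C)
  refine measure_mono_null hsub (measure_iUnion_null fun j => measure_union_null (h20 _ (he0 j)) (h12 _ (he0 j)))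

/-- from small balls to the whole space of frames -/
theorem frame_glob {H : ℝ → ℝ} {θ D : ℝ} (hD : 0 < D)
    (h : ∀ g : Fr, 0 < fdet g → ∃ ρ : ℝ, 0 < ρ ∧ μH[D] {f | f ∈ closedBall g ρ ∧ ¬ FB H θ f} = 0) :
    dimH {f | 0 < fdet f ∧ ¬ FB H θ f} ≤ ENNReal.ofReal D := by
  by_contra hcon
  obtain ⟨g, hg, h1⟩ := exists_mem_nhdsWithin_lt_dimH_of_lt_dimH (not_le.1 hcon)
  obtain ⟨ρ, hρ, h2⟩ := h g hg.1
  have h3 := h1 ({f | 0 < fdet f ∧ ¬ FB H θ f} ∩ closedBall g ρ) (inter_mem self_mem_nhdsWithin (mem_nhdsWithin_of_mem_nhds (closedBall_mem_nhds g hρ)))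
  have h4 : dimH ({f | 0 < fdet f ∧ ¬ FB H θ f} ∩ closedBall g ρ) ≤ dimH {f | f ∈ closedBall g ρ ∧ ¬ FB H θ f} := dimH_mono fun f hf => ⟨hf.2, hf.1.2⟩
  have h5 : dimH {f | f ∈ closedBall g ρ ∧ ¬ FB H θ f} ≤ ((D.toNNReal : ℝ≥0) : ℝ≥0∞) := by
    refine dimH_le_of_hausdorffMeasure_ne_top ?_
    rw [Real.coe_toNNReal _ hD.le, h2]
    exact ENNReal.zero_ne_top
  exact absurd (h3.trans_le (h4.trans h5)) (lt_irrefl _)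

/-- a frame with positive determinant has a ball of such frames -/
theorem fdet_ball {g : Fr} (hg : 0 < fdet g) : ∃ ρ : ℝ, 0 < ρ ∧ ∀ f ∈ closedBall g (2 * ρ), 0 < fdet f := by
  have hc : Continuous fun f : Fr => fdet f := by
    unfold fdet
    fun_prop
  have h1 : {f : Fr | 0 < fdet f} ∈ 𝓝 g := (isOpen_Ioi.preimage hc).mem_nhds hg
  obtain ⟨r, hr, h2⟩ := Metric.nhds_basis_closedBall.mem_iff.1 h1
  exact ⟨r / 2, by linarith, fun f hf => h2 (by rwa [mul_div_cancel₀ _ (by norm_num : (2 : ℝ) ≠ 0)] at hf)⟩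

theorem num20 {θ κ ν₁ ν₂ X N : ℝ} (hX : 1 ≤ X) (hN : 1 ≤ N) (h1 : X ^ ν₁ ≤ N) (h2 : N ≤ X ^ ν₂)
    (a1 : κ * (1 + ν₁) ≤ 20 * θ - 11 + 7 * ν₁) (a2 : κ * (1 + ν₂) ≤ 20 * θ - 11 + 7 * ν₂)
    (b1 : κ * (1 + ν₁) ≤ 20 * θ - 37 / 4 - 21 / 4 * ν₁) (b2 : κ * (1 + ν₂) ≤ 20 * θ - 37 / 4 - 21 / 4 * ν₂) :
    X * (N ^ 20 + N ^ 34 * (X * N) ^ (-(7 / 4) : ℝ)) * (X * N) ^ κ ≤ 2 * TB 20 θ X N := by
  have hX0 : 0 < X := by linarith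
  have hN0 : 0 < N := by linarith
  have t1 : X ^ (1 + κ) * N ^ (20 + κ) ≤ TB 20 θ X N :=
    tb_num hX hN0 h1 h2 (by push_cast; linarith) (by push_cast; linarith)
  have t2 : X ^ (-(3 / 4) + κ) * N ^ (129 / 4 + κ) ≤ TB 20 θ X N :=
    tb_num hX hN0 h1 h2 (by push_cast; linarith) (by push_cast; linarith)
  have e1 : X ^ (1 + κ) * N ^ (20 + κ) = X * N ^ 20 * (X * N) ^ κ := by
    rw [rpow_add hX0, rpow_one, rpow_add hN0, show (20 : ℝ) = ((20 : ℕ) : ℝ) by norm_num, rpow_natCast, mul_rpow hX0.le hN0.le]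
    ring
  have e2 : X ^ (-(3 / 4) + κ) * N ^ (129 / 4 + κ) = X * (N ^ 34 * (X * N) ^ (-(7 / 4) : ℝ)) * (X * N) ^ κ := by
    rw [mul_rpow hX0.le hN0.le, mul_rpow hX0.le hN0.le, rpow_add hX0, rpow_add hN0, show (-(3 / 4) : ℝ) = 1 + -(7 / 4) by norm_num, rpow_add hX0, rpow_one,
      show (129 / 4 : ℝ) = ((34 : ℕ) : ℝ) + -(7 / 4) by norm_num, rpow_add hN0, rpow_natCast]
    ring
  rw [e1] at t1
  rw [e2] at t2
  have e3 : X * (N ^ 20 + N ^ 34 * (X * N) ^ (-(7 / 4) : ℝ)) * (X * N) ^ κ =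
      X * N ^ 20 * (X * N) ^ κ + X * (N ^ 34 * (X * N) ^ (-(7 / 4) : ℝ)) * (X * N) ^ κ := by ring
  rw [e3]
  linarith

theorem num12 {θ κ ν₁ ν₂ X N : ℝ} (hX : 1 ≤ X) (hN : 1 ≤ N) (h1 : X ^ ν₁ ≤ N) (h2 : N ≤ X ^ ν₂)
    (a1 : κ * (1 + ν₁) ≤ 12 * θ - 7 + 3 * ν₁) (a2 : κ * (1 + ν₂) ≤ 12 * θ - 7 + 3 * ν₂)
    (b1 : κ * (1 + ν₁) ≤ 12 * θ - 16 / 3 - 2 * ν₁) (b2 : κ * (1 + ν₂) ≤ 12 * θ - 16 / 3 - 2 * ν₂) :
    F12 X N * (X * N) ^ κ ≤ 2 * TB 12 θ X N := by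
  have hX0 : 0 < X := by linarith
  have hN0 : 0 < N := by linarith
  have t1 : X ^ (1 + κ) * N ^ (12 + κ) ≤ TB 12 θ X N :=
    tb_num hX hN0 h1 h2 (by push_cast; linarith) (by push_cast; linarith)
  have t2 : X ^ (-(2 / 3) + κ) * N ^ (17 + κ) ≤ TB 12 θ X N :=
    tb_num hX hN0 h1 h2 (by push_cast; linarith) (by push_cast; linarith)
  have e1 : X ^ (1 + κ) * N ^ (12 + κ) = X * N ^ 12 * (X * N) ^ κ := by
    rw [rpow_add hX0, rpow_one, rpow_add hN0, show (12 : ℝ) = ((12 : ℕ) : ℝ) by norm_num, rpow_natCast, mul_rpow hX0.le hN0.le]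
    ring
  have e2 : X ^ (-(2 / 3) + κ) * N ^ (17 + κ) = X * (N ^ 17 * X ^ (-(5 / 3) : ℝ)) * (X * N) ^ κ := by
    rw [mul_rpow hX0.le hN0.le, rpow_add hX0, rpow_add hN0, show (-(2 / 3) : ℝ) = 1 + -(5 / 3) by norm_num, rpow_add hX0, rpow_one,
      show (17 : ℝ) = ((17 : ℕ) : ℝ) by norm_num, rpow_natCast]
    ring
  rw [e1] at t1
  rw [e2] at t2
  have e3 : F12 X N * (X * N) ^ κ = X * N ^ 12 * (X * N) ^ κ + X * (N ^ 17 * X ^ (-(5 / 3) : ℝ)) * (X * N) ^ κ := by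
    unfold F12
    ring
  rw [e3]
  linarith

theorem F12_nonneg (X N : ℝ) (hX : 1 ≤ X) (hN : 1 ≤ N) : 0 ≤ F12 X N := by
  have hX0 : 0 < X := by linarith
  have hN0 : 0 < N := by linarith
  unfold F12
  positivity

end Pool.Agent.Helper75.GD
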