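import Pool.Agent.Helper75.GD.LDim
import Pool.Agent.Helper75.TW.GenLast

/-!
# Exceptional sets (MP_fb29e9_nt): the dimension of the set of exceptional lattices
-/

open MeasureTheory Real Set Filter Topology Metric
open scoped ENNReal NNReal

set_option autoImplicit false

namespace Pool.Agent.Helper75.GD

open Pool.Agent.Helper22.AE
open Pool.Agent.Helper22.AC (cntc ga)
open Pool.Agent.Helper75.TW (m20 m20_nonneg J20 Mm mm_JJ mm_J20 TB TB_pos MomF F12 tb_num frame_core AffPos AffOk afn momS_all)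
open Pool.Agent.Helper92.LA (JJ HL WL dl fdet_dl dl_dl lcnt lcnt_eq lcnt_swap)
open Pool.Agent.Helper22.LP (Fr fdet hom Hf wr area_lin)

private theorem k0_mass75' {α₀ β : ℝ} (h0 : 0 < α₀) (h1 : α₀ < π / 2) (hβ : 0 < β) : ∫ α in Icc (-α₀) α₀, k0 β α ≤ 20 := by
  have hpi := Real.pi_pos
  have h2 := k0_int hβ
  rw [intervalIntegral.integral_of_le (by linarith)] at h2
  refine le_trans (setIntegral_mono_set ?_ (Eventually.of_forall (Pool.Agent.Helper22.OV.o3_k0_nonneg hβ)) (Eventually.of_forall ?_)) h2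
  · rw [← integrableOn_Icc_iff_integrableOn_Ioc]
    exact (Pool.Agent.Helper22.OV.o3_k0_cont hβ).continuousOn.integrableOn_compact isCompact_Icc
  · intro x hx
    exact ⟨by linarith [hx.1], by linarith [hx.2]⟩

/-- from small balls to the whole space of frames -/
theorem frame_glob0 {H : ℝ → ℝ} {θ D : ℝ} (h : ∀ g : Fr, 0 < fdet g → ∃ ρ : ℝ, 0 < ρ ∧ μH[D] {f | f ∈ closedBall g ρ ∧ ¬ FB H θ f} = 0) :
    μH[D] {f : Fr | 0 < fdet f ∧ ¬ FB H θ f} = 0 := by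
  refine measure_null_of_locally_null _ fun g hg => ?_
  obtain ⟨ρ, hρ, h1⟩ := h g hg.1
  refine ⟨{f | 0 < fdet f ∧ ¬ FB H θ f} ∩ closedBall g ρ, inter_mem self_mem_nhdsWithin (mem_nhdsWithin_of_mem_nhds (closedBall_mem_nhds g hρ)), ?_⟩
  refine measure_mono_null ?_ h1
  intro f hf
  exact ⟨hf.2, hf.1.2⟩

/-- images of null sets -/
theorem null_image {X Y : Type*} [EMetricSpace X] [EMetricSpace Y] [MeasurableSpace X] [BorelSpace X] [MeasurableSpace Y] [BorelSpace Y]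
    [SecondCountableTopology X] {f : X → Y} {S : Set X} {d : ℝ} (hd : 0 ≤ d) (hf : ∀ x ∈ S, ∃ K : ℝ≥0, ∃ t ∈ 𝓝[S] x, LipschitzOnWith K f t)
    (h : μH[d] S = 0) : μH[d] (f '' S) = 0 := by
  choose! K t ht hK using hf
  rcases TopologicalSpace.countable_cover_nhdsWithin ht with ⟨u, hus, huc, huU⟩
  have h1 : f '' S ⊆ ⋃ x ∈ u, f '' (t x ∩ S) := by
    rintro y ⟨x, hx, rfl⟩
    have h2 := huU hx
    rw [mem_iUnion₂] at h2 ⊢
    obtain ⟨i, hi, hi2⟩ := h2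
    exact ⟨i, hi, mem_image_of_mem f ⟨hi2, hx⟩⟩
  refine measure_mono_null h1 ((measure_biUnion_null_iff huc).2 fun x hx => ?_)
  have h2 := ((hK x (hus hx)).mono (inter_subset_left (s := t x) (t := S))).hausdorffMeasure_image_le hd
  rw [measure_mono_null inter_subset_right h, mul_zero] at h2
  exact le_antisymm h2 zero_le

/-- the exceptional frames of an oval -/
theorem frames12 {H : ℝ → ℝ} (hH : IsSupp H) (h5 : ContDiff ℝ 5 H) {θ : ℝ} (hθ : 5 / 9 ≤ θ) (hθ1 : θ ≤ 5 / 8) :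
    μH[5 / θ - 5] {f : Fr | 0 < fdet f ∧ ¬ FB H θ f} = 0 := by
  have hθ0 : 0 < θ := by linarith
  obtain ⟨α₀, c₁, B, ha0, ha1, hc₁, hc₁1, hB, hjc, hfam⟩ := Pool.Agent.Helper92.LA.fam hH h5
  obtain ⟨κ, hκ⟩ : ∃ κ : ℝ, κ = 9 - 5 / θ := ⟨_, rfl⟩
  have hκθ : κ * θ = 9 * θ - 5 := by
    rw [hκ]
    field_simp
  have hκ0 : 0 ≤ κ := by
    rw [hκ, sub_nonneg, div_le_iff₀ hθ0]
    linarith
  have hκ4 : κ < 4 := by
    by_contra h
    have : 4 * θ ≤ κ * θ := mul_le_mul_of_nonneg_right (not_lt.1 h) hθ0.le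
    linarith
  have hD : 5 / θ - 5 = 4 - κ := by
    rw [hκ]
    ring
  rw [hD]
  refine frame_glob0 fun g hg => ?_
  obtain ⟨ρ, hρ, hball⟩ := fdet_ball hg
  have hball' : ∀ f ∈ closedBall g ρ, 0 < fdet f := fun f hf => hball f (closedBall_subset_closedBall (by linarith) hf)
  have key : κ * (2 - θ) * θ = (9 * θ - 5) * (2 - θ) := by
    rw [mul_right_comm, hκθ]
  refine ⟨ρ, hρ, frame_zero hH ha0 ha1 hjc (fun α hα => (hfam α hα).2) (ν₂ := 2 * θ - 1) (by linarith) (by linarith) hball' (fun e he => ?_) (fun e he => ?_)⟩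
  · have e1 : {f | f ∈ closedBall g ρ ∧ ¬ GoodJ J20 20 H α₀ θ e (2 * (θ + e) - 1) (2 * θ - 1) f} = ∅ := by
      ext f
      simp only [mem_ofPred_eq, mem_empty_iff_false, iff_false, not_and, not_not]
      intro _
      exact goodJ_one f (by linarith)
    rw [e1]
    exact measure_empty
  · exact frame_dim mm_JJ KS_pos sj_JJ h5 hH.per hjc (fun p n => k0_mass75' ha0 ha1 (beta_pos75 p n)) (P := Pool.Agent.Helper60.LT.Hom c₁ B)
      (fun α hα => (hfam α hα).1) (F := F12) (μ₁ := 0) (μ₂ := 1) (q := 12) (by norm_num)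
      (Pool.Agent.Helper86.LK.momF12 hc₁ hc₁1 hB (momS_all hc₁ hc₁1 hB) le_rfl) (by linarith) (by linarith) hκ0 hκ4 F12_nonneg
      (fun X N hX hN h1 h2 => num12 hX hN h1 h2
        (by nlinarith)
        (by
          refine le_of_mul_le_mul_right ?_ hθ0
          nlinarith [mul_nonneg (show 0 ≤ 2 / 3 - θ by linarith) (show 0 ≤ 5 / 6 - θ by linarith)])
        (by nlinarith)
        (by
          refine le_of_mul_le_mul_right ?_ hθ0
          nlinarith [mul_nonneg (show 0 ≤ 90 / 138 - θ by linarith) (show 0 ≤ 92 / 138 - θ by linarith)])) he hρ hball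

/-- the exceptional frames of an oval, with the moments of order 20 -/
theorem frames20 {H : ℝ → ℝ} (hH : IsSupp H) (h5 : ContDiff ℝ 5 H) {α₀ c₁ B : ℝ} (ha0 : 0 < α₀) (ha1 : α₀ < π / 2) (hc₁ : 0 < c₁) (hc₁1 : c₁ ≤ 1) (hB : 1 ≤ B)
    (hjc : Continuous fun q : ℝ × (ℝ × ℝ) => hom (ga H q.1) q.2)
    (hfam : ∀ α ∈ Icc (-α₀) α₀, Pool.Agent.Helper60.LT.Hom c₁ B (hom (ga H α)) ∧ HL B (hom (ga H α)) ∧ WL B (wr H α) ∧ WL B (fun _ => 1))
    {P : (ℝ × ℝ → ℝ) → Prop} (hP : ∀ α ∈ Icc (-α₀) α₀, P (hom (ga H α)))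
    (hq : MomF J20 (fun X N => X * (N ^ 20 + N ^ 34 * (X * N) ^ (-(7 / 4) : ℝ))) P 0 (1 / 3)) {θ : ℝ} (hθ : 9 / 17 ≤ θ) (hθ1 : θ ≤ 5 / 8) :
    μH[max (9 / θ - 13) ((46 - 54 * θ) / (6 - 3 * θ))] {f : Fr | 0 < fdet f ∧ ¬ FB H θ f} = 0 := by
  have hθ0 : 0 < θ := by linarith
  have hθ2 : 0 < 2 - θ := by linarith
  have hθ6 : 0 < 6 - 3 * θ := by linarith
  obtain ⟨κ, hκ⟩ : ∃ κ : ℝ, κ = 4 - max (9 / θ - 13) ((46 - 54 * θ) / (6 - 3 * θ)) := ⟨_, rfl⟩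
  have hD : max (9 / θ - 13) ((46 - 54 * θ) / (6 - 3 * θ)) = 4 - κ := by
    rw [hκ]
    ring
  rw [hD]
  have hk1 : κ * θ ≤ 17 * θ - 9 := by
    have h1 : κ ≤ 17 - 9 / θ := by
      rw [hκ]
      linarith [le_max_left (9 / θ - 13) ((46 - 54 * θ) / (6 - 3 * θ))]
    refine (mul_le_mul_of_nonneg_right h1 hθ0.le).trans (le_of_eq ?_)
    field_simp
  have hk2 : κ * (2 - θ) ≤ 14 * θ - 22 / 3 := by
    have h1 : κ ≤ 4 - (46 - 54 * θ) / (6 - 3 * θ) := by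
      rw [hκ]
      linarith [le_max_right (9 / θ - 13) ((46 - 54 * θ) / (6 - 3 * θ))]
    refine (mul_le_mul_of_nonneg_right h1 hθ2.le).trans (le_of_eq ?_)
    have h2 : (46 - 54 * θ) / (6 - 3 * θ) * (2 - θ) = (46 - 54 * θ) / 3 := by
      rw [show 6 - 3 * θ = 3 * (2 - θ) by ring]
      field_simp
    rw [sub_mul, h2]
    ring
  have hκ0 : 0 ≤ κ := by
    rw [hκ, sub_nonneg]
    refine max_le ?_ ?_
    · have : 9 / θ ≤ 17 := by
        rw [div_le_iff₀ hθ0]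
        linarith
      linarith
    · rw [div_le_iff₀ hθ6]
      linarith
  have hκ4 : κ < 4 := by
    have h1 : 0 < (46 - 54 * θ) / (6 - 3 * θ) := div_pos (by linarith) hθ6
    rw [hκ]
    linarith [le_max_right (9 / θ - 13) ((46 - 54 * θ) / (6 - 3 * θ))]
  have hQ : 0 ≤ (θ - 9 / 17) * (5 / 8 - θ) := mul_nonneg (by linarith) (by linarith)
  have tr : ∀ a b : ℝ, 0 ≤ a → (14 * θ - 22 / 3) * a ≤ b * (2 - θ) → κ * a ≤ b := by
    intro a b ha hab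
    refine le_of_mul_le_mul_right ?_ hθ2
    calc κ * a * (2 - θ) = κ * (2 - θ) * a := by ring
      _ ≤ (14 * θ - 22 / 3) * a := mul_le_mul_of_nonneg_right hk2 ha
      _ ≤ b * (2 - θ) := hab
  have c1 : κ * (1 + (2 * θ - 1)) ≤ 20 * θ - 11 + 7 * (2 * θ - 1) := by nlinarith
  have c2 : κ * (1 + (32 * θ - 9) / 33) ≤ 20 * θ - 11 + 7 * ((32 * θ - 9) / 33) := tr _ _ (by linarith) (by nlinarith)
  have c3 : κ * (1 + (2 * θ - 1)) ≤ 20 * θ - 37 / 4 - 21 / 4 * (2 * θ - 1) := tr _ _ (by linarith) (by nlinarith)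
  have c4 : κ * (1 + (32 * θ - 9) / 33) ≤ 20 * θ - 37 / 4 - 21 / 4 * ((32 * θ - 9) / 33) := tr _ _ (by linarith) (by nlinarith)
  have d1 : κ * (1 + (32 * θ - 9) / 33) ≤ 12 * θ - 7 + 3 * ((32 * θ - 9) / 33) := tr _ _ (by linarith) (by nlinarith)
  have d2 : κ * (1 + (1 - θ)) ≤ 12 * θ - 7 + 3 * (1 - θ) := by nlinarith
  have d3 : κ * (1 + (32 * θ - 9) / 33) ≤ 12 * θ - 16 / 3 - 2 * ((32 * θ - 9) / 33) := tr _ _ (by linarith) (by nlinarith)
  have d4 : κ * (1 + (1 - θ)) ≤ 12 * θ - 16 / 3 - 2 * (1 - θ) := by nlinarith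
  refine frame_glob0 fun g hg => ?_
  obtain ⟨ρ, hρ, hball⟩ := fdet_ball hg
  have hball' : ∀ f ∈ closedBall g ρ, 0 < fdet f := fun f hf => hball f (closedBall_subset_closedBall (by linarith) hf)
  refine ⟨ρ, hρ, frame_zero hH ha0 ha1 hjc (fun α hα => (hfam α hα).2) (ν₂ := (32 * θ - 9) / 33) (by linarith) (by linarith) hball' (fun e he => ?_) (fun e he => ?_)⟩
  · have h1 := frame_dim mm_J20 KS20_pos sj_J20 h5 hH.per hjc (fun p n => k0_mass75' ha0 ha1 (beta_pos75 p n)) hP (q := 20) (by norm_num) hq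
      (ν := 2 * θ - 1) (ν' := (32 * θ - 9) / 33) (θ := θ) (κ := κ) (by linarith) (by linarith) hκ0 hκ4 Pool.Agent.Helper75.TW.F20q_nonneg
      (fun X N hX hN h1 h2 => num20 hX hN h1 h2 c1 c2 c3 c4) he hρ hball
    refine measure_mono_null ?_ h1
    rintro f ⟨hf1, hf2⟩
    exact ⟨hf1, fun h => hf2 (GoodJ.mono h (by linarith) le_rfl)⟩
  · exact frame_dim mm_JJ KS_pos sj_JJ h5 hH.per hjc (fun p n => k0_mass75' ha0 ha1 (beta_pos75 p n)) (P := Pool.Agent.Helper60.LT.Hom c₁ B)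
      (fun α hα => (hfam α hα).1) (F := F12) (μ₁ := 0) (μ₂ := 1) (q := 12) (by norm_num)
      (Pool.Agent.Helper86.LK.momF12 hc₁ hc₁1 hB (momS_all hc₁ hc₁1 hB) le_rfl) (by linarith) (by linarith) hκ0 hκ4 F12_nonneg
      (fun X N hX hN h1 h2 => num12 hX hN h1 h2 d1 d2 d3 d4) he hρ hball

/-- the bound for a lattice -/
def LB (H : ℝ → ℝ) (θ : ℝ) (ab : Fr) : Prop :=
  ∀ ε : ℝ, 0 < ε → ∃ C : ℝ, ∀ R : ℝ, 1 ≤ R → ∀ c : ℝ × ℝ, |lcnt ab H c R - area H * R ^ 2 / abs (fdet ab)| ≤ C * R ^ (θ + ε)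

theorem LB_of_FB {H : ℝ → ℝ} (hp : Function.Periodic H (2 * π)) {θ : ℝ} {ab : Fr} (h : fdet ab ≠ 0) (hb : FB H θ (dl ab)) : LB H θ ab := by
  intro ε hε
  obtain ⟨C, hC⟩ := hb ε hε
  refine ⟨C, fun R hR c => ?_⟩
  have h3 := hC R hR ((dl ab).1.1 * c.1 + (dl ab).1.2 * c.2, (dl ab).2.1 * c.1 + (dl ab).2.2 * c.2)
  have hdl : fdet (dl ab) ≠ 0 := by
    rw [fdet_dl h]
    positivity
  rw [← lcnt_eq hp h, area_lin hp hdl, fdet_dl h, abs_div, abs_one] at h3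
  have e : 1 / |fdet ab| * area H * R ^ 2 = area H * R ^ 2 / |fdet ab| := by ring
  rwa [e] at h3

theorem LB_swap {H : ℝ → ℝ} {θ : ℝ} {ab : Fr} (h : LB H θ (ab.2, ab.1)) : LB H θ ab := by
  intro ε hε
  have e : fdet (ab.2, ab.1) = -fdet ab := by
    unfold fdet
    simp only
    ring
  obtain ⟨C, hC⟩ := h ε hε
  refine ⟨C, fun R hR c => ?_⟩
  have h8 := hC R hR c
  rwa [lcnt_swap, e, abs_neg] at h8

theorem LB_shf {H : ℝ → ℝ} {θ : ℝ} {ab : Fr} (v : ℝ × ℝ) (h : LB (Pool.Agent.Helper22.OV.shf H v) θ ab) : LB H θ ab := by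
  intro ε hε
  obtain ⟨C, hC⟩ := h ε hε
  refine ⟨C, fun R hR c => ?_⟩
  have h1 := hC R hR (c.1 - R * v.1, c.2 - R * v.2)
  rw [Pool.Agent.Helper22.OV.area_shf] at h1
  have h2 : lcnt ab (Pool.Agent.Helper22.OV.shf H v) (c.1 - R * v.1, c.2 - R * v.2) R = lcnt ab H c R := by
    unfold lcnt
    congr 1
    refine Nat.card_congr (Equiv.subtypeEquivRight fun k => ?_)
    refine forall_congr' fun t => ?_
    unfold Pool.Agent.Helper22.OV.shf
    simp only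
    constructor
    · intro h
      linarith
    · intro h
      linarith
  rwa [h2] at h1

/-- from frames to lattices -/
theorem latt_zero {H : ℝ → ℝ} (hp : Function.Periodic H (2 * π)) {θ : ℝ} {D : ℝ} (hD : 0 ≤ D) (h : μH[D] {f : Fr | 0 < fdet f ∧ ¬ FB H θ f} = 0) :
    μH[D] {ab : Fr | fdet ab ≠ 0 ∧ ¬ LB H θ ab} = 0 := by
  have h1 : μH[D] {ab : Fr | 0 < fdet ab ∧ ¬ LB H θ ab} = 0 := by
    have hsub : {ab : Fr | 0 < fdet ab ∧ ¬ LB H θ ab} ⊆ dl '' {f : Fr | 0 < fdet f ∧ ¬ FB H θ f} := by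
      rintro ab ⟨h1, h2⟩
      refine ⟨dl ab, ⟨?_, fun h3 => h2 (LB_of_FB hp h1.ne' h3)⟩, dl_dl h1.ne'⟩
      rw [fdet_dl h1.ne']
      positivity
    refine measure_mono_null hsub (null_image hD (fun f hf => ?_) h)
    have hc : ContDiffAt ℝ 1 dl f := by
      have h0 : fdet f ≠ 0 := hf.1.ne'
      have hfd : ContDiffAt ℝ 1 fdet f := by
        unfold fdet
        fun_prop
      unfold dl
      refine ((ContDiffAt.div (by fun_prop) hfd h0).prodMk (ContDiffAt.div (by fun_prop) hfd h0)).prodMk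
        ((ContDiffAt.div (by fun_prop) hfd h0).prodMk (ContDiffAt.div (by fun_prop) hfd h0))
    obtain ⟨K, t, ht, hK⟩ := hc.exists_lipschitzOnWith
    exact ⟨K, t, mem_nhdsWithin_of_mem_nhds ht, hK⟩
  have h2 : μH[D] (Prod.swap '' {ab : Fr | 0 < fdet ab ∧ ¬ LB H θ ab}) = 0 := by
    have hl : LipschitzWith (max 1 1) (Prod.swap : Fr → Fr) := LipschitzWith.prod_snd.prodMk LipschitzWith.prod_fst
    exact null_image hD (fun x _ => ⟨_, univ, Filter.univ_mem, hl.lipschitzOnWith⟩) h1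
  have hsub : {ab : Fr | fdet ab ≠ 0 ∧ ¬ LB H θ ab} ⊆ {ab : Fr | 0 < fdet ab ∧ ¬ LB H θ ab} ∪ Prod.swap '' {ab : Fr | 0 < fdet ab ∧ ¬ LB H θ ab} := by
    rintro ab ⟨h3, h4⟩
    rcases lt_or_gt_of_ne h3 with h5 | h5
    · right
      refine ⟨(ab.2, ab.1), ⟨?_, fun h6 => h4 (LB_swap h6)⟩, rfl⟩
      have e : fdet (ab.2, ab.1) = -fdet ab := by
        unfold fdet
        simp only
        ring
      rw [e]
      linarith
    · exact Or.inl ⟨h5, h4⟩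
  exact measure_mono_null hsub (measure_union_null h1 h2)

/-- every oval of class `C⁵` -/
theorem latt12 {H : ℝ → ℝ} (h5 : ContDiff ℝ 5 H) (hp : Function.Periodic H (2 * π)) (hr : ∀ t, 0 < H t + deriv (deriv H) t) {θ : ℝ} (hθ : 5 / 9 ≤ θ)
    (hθ1 : θ ≤ 5 / 8) : μH[5 / θ - 5] {ab : Fr | fdet ab ≠ 0 ∧ ¬ LB H θ ab} = 0 := by
  have hD : 0 ≤ 5 / θ - 5 := by
    rw [sub_nonneg, le_div_iff₀ (by linarith)]
    linarith
  obtain ⟨v, hv⟩ := Pool.Agent.Helper22.OV.exists_shift (h5.of_le (by norm_num)) hp hr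
  refine measure_mono_null ?_ (latt_zero hv.per hD (frames12 hv (Pool.Agent.Helper22.OV.shf_smooth v h5) hθ hθ1))
  rintro ab ⟨h1, h2⟩
  exact ⟨h1, fun h => h2 (LB_shf v h)⟩

/-- ovals with positive affine curvature -/
theorem latt_aff {H : ℝ → ℝ} (h6 : ContDiff ℝ 6 H) (hp : Function.Periodic H (2 * π)) (hr : ∀ t, 0 < H t + deriv (deriv H) t) (ha : AffPos H)
    {θ : ℝ} (hθ : 9 / 17 ≤ θ) (hθ1 : θ ≤ 5 / 8) :
    μH[max (9 / θ - 13) ((46 - 54 * θ) / (6 - 3 * θ))] {ab : Fr | fdet ab ≠ 0 ∧ ¬ LB H θ ab} = 0 := by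
  have hD : 0 ≤ max (9 / θ - 13) ((46 - 54 * θ) / (6 - 3 * θ)) := le_max_of_le_right (div_nonneg (by linarith) (by linarith))
  have h2 : ContDiff ℝ 2 H := h6.of_le (by norm_num)
  obtain ⟨v, hv⟩ := Pool.Agent.Helper22.OV.exists_shift h2 hp hr
  have e : rho (Pool.Agent.Helper22.OV.shf H v) = rho H := by
    funext t
    exact Pool.Agent.Helper22.OV.shf_rho v h2 t
  have ha' : AffPos (Pool.Agent.Helper22.OV.shf H v) := by
    intro t
    rw [e]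
    exact ha t
  have h6' := Pool.Agent.Helper22.OV.shf_smooth v h6
  obtain ⟨α₀, c₁, B, ha0, ha1, hc₁, hc₁1, hB, hjc, hfam⟩ := Pool.Agent.Helper3.AC.fam_aff hv h6' ha'
  refine measure_mono_null ?_ (latt_zero hv.per hD (frames20 hv (h6'.of_le (by norm_num)) ha0 ha1 hc₁ hc₁1 hB hjc
    (fun α hα => ⟨(hfam α hα).1.hom, (hfam α hα).2⟩) (fun α hα => (hfam α hα).1) (Pool.Agent.Helper3.AC.mom_cpt20 hc₁ hB) hθ hθ1))
  rintro ab ⟨h1, h2⟩
  exact ⟨h1, fun h => h2 (LB_shf v h)⟩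

/-- ovals whose affine curvature has no multiple zero -/
theorem latt_gen {H : ℝ → ℝ} (h7 : ContDiff ℝ 7 H) (hp : Function.Periodic H (2 * π)) (hr : ∀ t, 0 < H t + deriv (deriv H) t) (ha : AffOk H)
    {θ : ℝ} (hθ : 9 / 17 ≤ θ) (hθ1 : θ ≤ 5 / 8) :
    μH[max (9 / θ - 13) ((46 - 54 * θ) / (6 - 3 * θ))] {ab : Fr | fdet ab ≠ 0 ∧ ¬ LB H θ ab} = 0 := by
  have hD : 0 ≤ max (9 / θ - 13) ((46 - 54 * θ) / (6 - 3 * θ)) := le_max_of_le_right (div_nonneg (by linarith) (by linarith))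
  have h2 : ContDiff ℝ 2 H := h7.of_le (by norm_num)
  obtain ⟨v, hv⟩ := Pool.Agent.Helper22.OV.exists_shift h2 hp hr
  have e : rho (Pool.Agent.Helper22.OV.shf H v) = rho H := by
    funext t
    exact Pool.Agent.Helper22.OV.shf_rho v h2 t
  have e2 : afn (Pool.Agent.Helper22.OV.shf H v) = afn H := by
    unfold afn
    rw [e]
  have ha' : AffOk (Pool.Agent.Helper22.OV.shf H v) := by
    intro t
    rw [e2]
    exact ha t
  have h7' := Pool.Agent.Helper22.OV.shf_smooth v h7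
  obtain ⟨α₀, c₁, B, ha0, ha1, hc₁, hc₁1, hB, hjc, hfam⟩ := Pool.Agent.Helper92.AG.fam_gen hv h7' ha'
  refine measure_mono_null ?_ (latt_zero hv.per hD (frames20 hv (h7'.of_le (by norm_num)) ha0 ha1 hc₁ hc₁1 hB hjc
    (fun α hα => ⟨(hfam α hα).1.hom, (hfam α hα).2⟩) (fun α hα => (hfam α hα).1) (Pool.Agent.Helper92.AG.mom_cptG hc₁ hB) hθ hθ1))
  rintro ab ⟨h1, h2⟩
  exact ⟨h1, fun h => h2 (LB_shf v h)⟩

end Pool.Agent.Helper75.GD
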