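import Pool.Agent.Helper75.GD.Stab

/-!
# Exceptional sets (MP_fb29e9_nt): the averaged moment of a member varies slowly along the curve
-/

open MeasureTheory Real Set Filter Topology

set_option autoImplicit false

namespace Pool.Agent.Helper75.GD

open Pool.Agent.Helper22.AE
open Pool.Agent.Helper22.AC (cntc ga)
open Pool.Agent.Helper92.GC (dt tp Tq uu tt arc dd sqa m6)
open Pool.Agent.Helper92.DT (m12 IsMul12 m12_nonneg)
open Pool.Agent.Helper60.RT (FR cn)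
open Pool.Agent.Helper92.LA (JJ m12_cont_coef)
open Pool.Agent.Helper22.LP (hom fk)
open Pool.Agent.Helper92.GV (f0 vr Wm)
open Pool.Agent.Helper75.GCF (Qf Qf_sm Qf_hom)

theorem FR_pos75 {X N : ℝ} (hX : 0 < X) (hN : 0 < N) : 0 < FR X N := by
  unfold FR
  positivity

theorem JJ_nonneg75 (f : (ℝ × ℝ) × (ℝ × ℝ)) (h : ℝ × ℝ → ℝ) (X : ℝ) (N : ℕ) : 0 ≤ JJ f h X N := by
  unfold JJ m12
  exact integral_nonneg fun _ => integral_nonneg fun _ => by positivity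

theorem JJ_joint75 {H : ℝ → ℝ → ℝ} (hc : ∀ v : ℝ × ℝ, Continuous fun q : ℝ × ℝ => hom (ga (H q.1) q.2) v) (X : ℝ) (N : ℕ) :
    Continuous fun q : ℝ × ℝ => JJ f0 (hom (ga (H q.1) q.2)) X N := by
  unfold JJ
  refine continuous_parametric_integral_of_continuous (f := fun (q : ℝ × ℝ) (r : ℝ) => m12 (sqa N) (fun k => ee (r * hom (ga (H q.1) q.2) (fk f0 k)))) ?_ isCompact_Icc
  have h1 : Continuous fun z : (ℝ × ℝ) × ℝ => m12 (sqa N) (fun k => ee (z.2 * hom (ga (H z.1.1) z.1.2) (fk f0 k))) := by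
    refine m12_cont_coef (sqa N) (fun (z : (ℝ × ℝ) × ℝ) k => ee (z.2 * hom (ga (H z.1.1) z.1.2) (fk f0 k))) fun k _ => ?_
    refine ee_cont.comp (continuous_snd.mul ?_)
    exact (hc (fk f0 k)).comp continuous_fst
  exact h1

theorem JJ_a75 {H : ℝ → ℝ → ℝ} (hc : ∀ v : ℝ × ℝ, Continuous fun q : ℝ × ℝ => hom (ga (H q.1) q.2) v) (s X : ℝ) (N : ℕ) :
    Continuous fun α : ℝ => JJ f0 (hom (ga (H s) α)) X N := by
  have h1 : Continuous fun α : ℝ => ((s, α) : ℝ × ℝ) := continuous_const.prodMk continuous_id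
  obtain ⟨G, hG⟩ : ∃ G : ℝ × ℝ → ℝ, ∀ q, G q = JJ f0 (hom (ga (H q.1) q.2)) X N := ⟨_, fun _ => rfl⟩
  have h2 : Continuous G := by
    have e1 : G = fun q : ℝ × ℝ => JJ f0 (hom (ga (H q.1) q.2)) X N := funext hG
    rw [e1]
    exact JJ_joint75 hc X N
  have h3 : Continuous fun α : ℝ => G (s, α) := h2.comp h1
  have e2 : (fun α : ℝ => JJ f0 (hom (ga (H s) α)) X N) = fun α : ℝ => G (s, α) := by
    funext α
    rw [hG]
  rw [e2]
  exact h3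

theorem JJ_s75 {H : ℝ → ℝ → ℝ} (hc : ∀ v : ℝ × ℝ, Continuous fun q : ℝ × ℝ => hom (ga (H q.1) q.2) v) (α X : ℝ) (N : ℕ) :
    Continuous fun s : ℝ => JJ f0 (hom (ga (H s) α)) X N := by
  have h1 : Continuous fun s : ℝ => ((s, α) : ℝ × ℝ) := continuous_id.prodMk continuous_const
  obtain ⟨G, hG⟩ : ∃ G : ℝ × ℝ → ℝ, ∀ q, G q = JJ f0 (hom (ga (H q.1) q.2)) X N := ⟨_, fun _ => rfl⟩
  have h2 : Continuous G := by
    have e1 : G = fun q : ℝ × ℝ => JJ f0 (hom (ga (H q.1) q.2)) X N := funext hG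
    rw [e1]
    exact JJ_joint75 hc X N
  have h3 : Continuous fun s : ℝ => G (s, α) := h2.comp h1
  have e2 : (fun s : ℝ => JJ f0 (hom (ga (H s) α)) X N) = fun s : ℝ => G (s, α) := by
    funext s
    rw [hG]
  rw [e2]
  exact h3

theorem beta_pos75 (p n : ℕ) : 0 < 1 / sqrt ((2 : ℝ) ^ p * ((2 ^ n : ℕ) : ℝ)) := by
  have : (0 : ℝ) < ((2 ^ n : ℕ) : ℝ) := by exact_mod_cast Nat.one_le_two_pow
  positivity

theorem Wm_cont75 {H : ℝ → ℝ → ℝ} (hc : ∀ v : ℝ × ℝ, Continuous fun q : ℝ × ℝ => hom (ga (H q.1) q.2) v) (α₁ : ℝ) (p n : ℕ) :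
    Continuous (Wm H α₁ p n) := by
  unfold Wm
  refine continuous_parametric_integral_of_continuous
    (f := fun (s : ℝ) (α : ℝ) => k0 (1 / sqrt ((2 : ℝ) ^ p * ((2 ^ n : ℕ) : ℝ))) α * JJ f0 (hom (ga (H s) α)) ((2 : ℝ) ^ p) (2 ^ n)) ?_ isCompact_Icc
  have hk := Pool.Agent.Helper22.OV.o3_k0_cont (beta_pos75 p n)
  exact (hk.comp continuous_snd).mul (JJ_joint75 hc _ _)

theorem Wm_nonneg75 (H : ℝ → ℝ → ℝ) (α₁ : ℝ) (p n : ℕ) (s : ℝ) : 0 ≤ Wm H α₁ p n s := by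
  unfold Wm
  exact integral_nonneg fun α => mul_nonneg (Pool.Agent.Helper22.OV.o3_k0_nonneg (beta_pos75 p n) α) (JJ_nonneg75 _ _ _ _)

theorem hom_cont75 {G : ℝ → ℝ → ℝ} (h : ContDiff ℝ 7 fun q : ℝ × ℝ => G q.1 q.2) (v : ℝ × ℝ) : Continuous fun q : ℝ × ℝ => hom (ga (G q.1) q.2) v := by
  have h0 : ContDiff ℝ ((6 + 1 : ℕ) : ℕ∞) fun q : ℝ × ℝ => G q.1 q.2 := h.of_le (by norm_cast)
  have h1 : Continuous (Pool.Agent.Helper75.GCF.Gf G) := (Pool.Agent.Helper75.GCF.Gf_sm h0).continuous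
  have h2 : Continuous fun q : ℝ × ℝ => ((q.2, q.1, Pool.Agent.Helper22.LP.tr v) : ℝ × ℝ × ℝ) := by fun_prop
  have h3 : Continuous fun q : ℝ × ℝ => Pool.Agent.Helper22.LP.nr v * Pool.Agent.Helper75.GCF.Gf G (q.2, q.1, Pool.Agent.Helper22.LP.tr v) := continuous_const.mul (h1.comp h2)
  have e1 : (fun q : ℝ × ℝ => hom (ga (G q.1) q.2) v) = fun q : ℝ × ℝ => Pool.Agent.Helper22.LP.nr v * Pool.Agent.Helper75.GCF.Gf G (q.2, q.1, Pool.Agent.Helper22.LP.tr v) := by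
    funext q
    rfl
  rw [e1]
  exact h3

/-- the constant of the comparison of two members -/
noncomputable def KS : ℝ := 4 ^ 12 * exp (3800 * 32) ^ 12 * 576 ^ 12

theorem KS_pos : 0 < KS := by
  unfold KS
  positivity

/-- the averaged moments of two close members -/
theorem stab_Wm {H : ℝ → ℝ → ℝ} (h : ContDiff ℝ 7 fun q : ℝ × ℝ => H q.1 q.2) (hp : ∀ s, Function.Periodic (H s) (2 * π)) (s₀ δ : ℝ) :
    ∃ B : ℝ, 1 ≤ B ∧ ∀ α₁ ≤ δ, ∀ (p n : ℕ) (s s' : ℝ), |s - s₀| ≤ δ → |s' - s₀| ≤ δ → |s' - s| * B * ((2 : ℝ) ^ p * 2 ^ n) ≤ 1 →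
      Wm H α₁ p n s' ≤ KS * Wm H α₁ p n s := by
  have h0 : ContDiff ℝ ((2 + 1 : ℕ) : ℕ∞) fun q : ℝ × ℝ => H q.1 q.2 := h.of_le (by norm_cast)
  have hQ : ∀ j : ℕ, ∃ B : ℝ, 1 ≤ B ∧ ∀ α s s' : ℝ, |α| ≤ δ → |s - s₀| ≤ δ → |s' - s₀| ≤ δ → ∀ t t' : ℝ, |t| ≤ 1 → |t'| ≤ 1 →
      |Qf H ((j : ℝ) * (π / 2)) (α, s', t) - Qf H ((j : ℝ) * (π / 2)) (α, s, t)| ≤ B * |s' - s| ∧
      |(Qf H ((j : ℝ) * (π / 2)) (α, s', t) - Qf H ((j : ℝ) * (π / 2)) (α, s, t)) - (Qf H ((j : ℝ) * (π / 2)) (α, s', t') - Qf H ((j : ℝ) * (π / 2)) (α, s, t'))| ≤ B * |s' - s| * |t - t'| :=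
    fun j => cross_lip (Qf_sm h0 _) s₀ δ 1
  choose B hB hQ using hQ
  obtain ⟨B', hB'⟩ : ∃ B' : ℝ, B' = B 0 + B 1 + B 2 + B 3 := ⟨_, rfl⟩
  have hj : ∀ j : ℕ, j < 4 → B j ≤ B' := by
    intro j hj
    have h1 := hB 0
    have h2 := hB 1
    have h3 := hB 2
    have h4 := hB 3
    rw [hB']
    interval_cases j <;> linarith
  have hB1 : 1 ≤ B' := (hB 0).trans (hj 0 (by norm_num))
  have hB0 : 0 ≤ B' := by linarith
  refine ⟨B', hB1, fun α₁ hα₁ p n s s' hs hs' hss => ?_⟩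
  have hc := hom_cont75 h
  have hX : (1 : ℝ) ≤ 2 ^ p := one_le_pow₀ (by norm_num)
  have hN : 1 ≤ 2 ^ n := Nat.one_le_two_pow
  have key : ∀ α ∈ Icc (-α₁) α₁, JJ f0 (hom (ga (H s') α)) ((2 : ℝ) ^ p) (2 ^ n) ≤ KS * JJ f0 (hom (ga (H s) α)) ((2 : ℝ) ^ p) (2 ^ n) := by
    intro α hα
    have hα' : |α| ≤ δ := (abs_le.2 hα).trans hα₁
    have hcr : ∀ s : ℝ, Continuous fun r : ℝ => m12 (sqa (2 ^ n)) (fun k => ee (r * hom (ga (H s) α) (fk f0 k))) := fun s =>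
      m12_cont_coef (sqa (2 ^ n)) (fun (r : ℝ) k => ee (r * hom (ga (H s) α) (fk f0 k))) fun k _ => ee_cont.comp (continuous_id.mul continuous_const)
    unfold JJ
    rw [← integral_const_mul]
    refine setIntegral_mono_on ((hcr s').continuousOn.integrableOn_compact isCompact_Icc) ((continuous_const.mul (hcr s)).continuousOn.integrableOn_compact isCompact_Icc) measurableSet_Icc fun r hr => ?_
    have hr0 : |r| ≤ 8 * (2 : ℝ) ^ p := by
      rw [abs_le]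
      constructor
      · linarith [hr.1]
      · exact hr.2
    have hv : ∀ (j : ℕ) (s t : ℝ), hom (ga (H s) α) (vr ((j : ℝ) * (π / 2)) t) = Qf H ((j : ℝ) * (π / 2)) (α, s, t) := fun j s t => (Qf_hom hp _ α s t).symm
    refine stab_sqa (κ := B' * |s' - s|) hN (by positivity) hr0 ?_ ?_ ?_
    · push_cast
      linarith
    · intro j hj4 t ht
      rw [hv, hv]
      refine ((hQ j α s s' hα' hs hs' t t ht ht).1).trans ?_
      exact mul_le_mul_of_nonneg_right (hj j hj4) (abs_nonneg _)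
    · intro j hj4 t t' ht ht'
      rw [hv, hv, hv, hv]
      refine ((hQ j α s s' hα' hs hs' t t' ht ht').2).trans ?_
      exact mul_le_mul_of_nonneg_right (mul_le_mul_of_nonneg_right (hj j hj4) (abs_nonneg _)) (abs_nonneg _)
  have hk := Pool.Agent.Helper22.OV.o3_k0_cont (beta_pos75 p n)
  have hk0 := Pool.Agent.Helper22.OV.o3_k0_nonneg (beta_pos75 p n)
  unfold Wm
  rw [← integral_const_mul]
  refine setIntegral_mono_on ((hk.mul (JJ_a75 hc s' _ _)).continuousOn.integrableOn_compact isCompact_Icc)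
    ((continuous_const.mul (hk.mul (JJ_a75 hc s _ _))).continuousOn.integrableOn_compact isCompact_Icc) measurableSet_Icc fun α hα => ?_
  have h1 := mul_le_mul_of_nonneg_left (key α hα) (hk0 α)
  linarith

end Pool.Agent.Helper75.GD
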