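import Pool.Agent.Helper75.GD.Dim
import Pool.Agent.Helper75.GD.Wst
import Pool.Agent.Helper92.GV.Latt

/-!
# Exceptional sets (MP_fb29e9_nt): generic curves of ovals
-/

open MeasureTheory Real Set Filter Topology
open scoped ENNReal NNReal

set_option autoImplicit false

namespace Pool.Agent.Helper75.GD

open Pool.Agent.Helper22.AE
open Pool.Agent.Helper22.AC (cntc ga)
open Pool.Agent.Helper60.RT (FR cn)
open Pool.Agent.Helper60.GM (Fam mf RN momG)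
open Pool.Agent.Helper92.LA (JJ HL WL lcnt lcnt_eq dl fdet_dl)
open Pool.Agent.Helper22.LP (fdet Hf hom nr tr fk qa qa_pos area_lin)
open Pool.Agent.Helper92.GV (f0 Wm Hf_f0 curve_int lcnt_std Hf_joint rho_Hf Mo_Hf)
open Pool.Agent.Helper75.TW (TB TB_pos J20 frame_core)
open Pool.Agent.Helper75.GCF (Mo famH famH_all famH_q shf_rho' shf_Mo shf_sm supp_near)
open Pool.Agent.Helper22.OV (shf cntc_shf area_shf)

private theorem k0_mass75 {α₀ β : ℝ} (h0 : 0 < α₀) (h1 : α₀ < π / 2) (hβ : 0 < β) : ∫ α in Icc (-α₀) α₀, k0 β α ≤ 20 := by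
  have hpi := Real.pi_pos
  have h2 := k0_int hβ
  rw [intervalIntegral.integral_of_le (by linarith)] at h2
  refine le_trans (setIntegral_mono_set ?_ (Eventually.of_forall (Pool.Agent.Helper22.OV.o3_k0_nonneg hβ)) (Eventually.of_forall ?_)) h2
  · rw [← integrableOn_Icc_iff_integrableOn_Ioc]
    exact (Pool.Agent.Helper22.OV.o3_k0_cont hβ).continuousOn.integrableOn_compact isCompact_Icc
  · intro x hx
    exact ⟨by linarith [hx.1], by linarith [hx.2]⟩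

/-- the integral of the averaged moment over the curve -/
private theorem Wm_int75 {H : ℝ → ℝ → ℝ} (hc : ∀ v : ℝ × ℝ, Continuous fun q : ℝ × ℝ => hom (ga (H q.1) q.2) v) {a b α₁ : ℝ} (h0 : 0 < α₁) (h1 : α₁ < π / 2)
    (p n : ℕ) {D : ℝ} (hD : 0 ≤ D) (hm : ∀ α ∈ Icc (-α₁) α₁, ∫⁻ s in Icc a b, ENNReal.ofReal (JJ f0 (hom (ga (H s) α)) ((2 : ℝ) ^ p) (2 ^ n)) ≤ ENNReal.ofReal D) :
    ∫⁻ s in Icc a b, ENNReal.ofReal (Wm H α₁ p n s) ≤ ENNReal.ofReal (20 * D) := by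
  have hk := Pool.Agent.Helper22.OV.o3_k0_cont (beta_pos75 p n)
  have hk0 := Pool.Agent.Helper22.OV.o3_k0_nonneg (beta_pos75 p n)
  obtain ⟨β, hβ⟩ : ∃ β : ℝ, β = 1 / sqrt ((2 : ℝ) ^ p * ((2 ^ n : ℕ) : ℝ)) := ⟨_, rfl⟩
  rw [← hβ] at hk hk0
  have e1 : ∀ s, ENNReal.ofReal (Wm H α₁ p n s) = ∫⁻ α in Icc (-α₁) α₁, ENNReal.ofReal (k0 β α * JJ f0 (hom (ga (H s) α)) ((2 : ℝ) ^ p) (2 ^ n)) := by
    intro s
    unfold Wm
    rw [← hβ, ofReal_integral_eq_lintegral_ofReal]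
    · exact (hk.mul (JJ_a75 hc s _ _)).continuousOn.integrableOn_compact isCompact_Icc
    · exact Eventually.of_forall fun α => mul_nonneg (hk0 α) (JJ_nonneg75 _ _ _ _)
  simp only [e1]
  have hcont : Continuous fun q : ℝ × ℝ => k0 β q.2 * JJ f0 (hom (ga (H q.1) q.2)) ((2 : ℝ) ^ p) (2 ^ n) := (hk.comp continuous_snd).mul (JJ_joint75 hc _ _)
  rw [lintegral_lintegral_swap]
  swap
  · exact (hcont.measurable.ennreal_ofReal).aemeasurable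
  have e2 : ∀ α ∈ Icc (-α₁) α₁, ∫⁻ s in Icc a b, ENNReal.ofReal (k0 β α * JJ f0 (hom (ga (H s) α)) ((2 : ℝ) ^ p) (2 ^ n)) ≤ ENNReal.ofReal (k0 β α) * ENNReal.ofReal D := by
    intro α hα
    have e3 : ∀ s, ENNReal.ofReal (k0 β α * JJ f0 (hom (ga (H s) α)) ((2 : ℝ) ^ p) (2 ^ n)) =
        ENNReal.ofReal (k0 β α) * ENNReal.ofReal (JJ f0 (hom (ga (H s) α)) ((2 : ℝ) ^ p) (2 ^ n)) := fun s => ENNReal.ofReal_mul (hk0 α)
    simp only [e3]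
    rw [lintegral_const_mul _ (JJ_s75 hc α _ _).measurable.ennreal_ofReal]
    exact mul_le_mul_right (hm α hα) _
  refine (setLIntegral_mono' measurableSet_Icc e2).trans ?_
  rw [lintegral_mul_const _ hk.measurable.ennreal_ofReal]
  have e4 : ∫⁻ α in Icc (-α₁) α₁, ENNReal.ofReal (k0 β α) = ENNReal.ofReal (∫ α in Icc (-α₁) α₁, k0 β α) := by
    rw [ofReal_integral_eq_lintegral_ofReal]
    · exact hk.continuousOn.integrableOn_compact isCompact_Icc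
    · exact Eventually.of_forall fun α => hk0 α
  rw [e4, ← ENNReal.ofReal_mul (integral_nonneg fun α => hk0 α)]
  refine ENNReal.ofReal_le_ofReal (mul_le_mul_of_nonneg_right ?_ hD)
  rw [hβ]
  exact k0_mass75 h0 h1 (beta_pos75 p n)

/-- one member of the family: the lattice points -/
private theorem memb75 {H : ℝ → ℝ → ℝ} (hc : ∀ v : ℝ × ℝ, Continuous fun q : ℝ × ℝ => hom (ga (H q.1) q.2) v) {α₁ : ℝ} (h0 : 0 < α₁)
    {s : ℝ} (hH : IsSupp (H s)) (h5 : ContDiff ℝ 5 (H s)) {θ e : ℝ} (hθ : 5 / 9 ≤ θ) (he : 0 < e) (hθe : θ + e < 1)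
    (hs : ∃ C : ℝ, 0 ≤ C ∧ ∀ p n : ℕ, n ≤ p → ((2 : ℝ) ^ p) ^ (1 / 9 : ℝ) ≤ (2 : ℝ) ^ n → (2 : ℝ) ^ n ≤ ((2 : ℝ) ^ p) ^ (1 - θ) →
      Wm H α₁ p n s ≤ C * (((2 : ℝ) ^ p) ^ e * TB 12 (θ + e) ((2 : ℝ) ^ p) (2 ^ n))) :
    ∃ C : ℝ, ∀ R : ℝ, 1 ≤ R → ∀ c : ℝ × ℝ, |cntc (H s) c R - area (H s) * R ^ 2| ≤ C * R ^ (θ + 3 * e) := by
  have hf : fdet f0 ≠ 0 := by
    unfold fdet f0
    norm_num
  obtain ⟨α₀, c₁, Bf, ha0, ha1, hc₁, hc₁1, hBf, hjc, hfam⟩ := Pool.Agent.Helper92.LA.fam hH h5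
  obtain ⟨α₂, hα₂⟩ : ∃ α₂ : ℝ, α₂ = min α₀ α₁ := ⟨_, rfl⟩
  have hα₂0 : 0 < α₂ := by
    rw [hα₂]
    exact lt_min ha0 h0
  have hα₂a : α₂ ≤ α₀ := by
    rw [hα₂]
    exact min_le_left _ _
  have hα₂b : α₂ ≤ α₁ := by
    rw [hα₂]
    exact min_le_right _ _
  obtain ⟨C₀, hC₀, hW⟩ := hs
  obtain ⟨K, hK⟩ : ∃ K : ℝ, K = ∫ α in Icc (-α₂) α₂, k0 (1 / sqrt ((2 : ℝ) ^ 0 * ((2 ^ 0 : ℕ) : ℝ))) α * J20 f0 (hom (ga (H s) α)) ((2 : ℝ) ^ 0) (2 ^ 0) := ⟨_, rfl⟩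
  obtain ⟨C₁, hC₁⟩ : ∃ C₁ : ℝ, C₁ = C₀ + |K| := ⟨_, rfl⟩
  have hC₁0 : 0 ≤ C₁ := by
    rw [hC₁]
    positivity
  obtain ⟨C, hC⟩ := frame_core hH hα₂0 (hα₂a.trans_lt ha1) hjc (fun α hα => (hfam α ⟨by linarith [hα.1], by linarith [hα.2]⟩).2) hf (θ := θ + e)
    (ν₂ := 1 / 9) (ν₃ := 1 - θ) (by linarith) hθe he (by linarith) (by linarith) hC₁0
    (by
      intro p n hn q1 q2
      have hp : p = 0 := by
        by_contra hp
        have h1 : (1 : ℝ) < 2 ^ p := one_lt_pow₀ (by norm_num) hp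
        have h2 := q1.trans q2
        have h3 : ((2 : ℝ) ^ p) ^ (1 / 9 : ℝ) < ((2 : ℝ) ^ p) ^ (2 * (θ + e) - 1 : ℝ) :=
          rpow_lt_rpow_of_exponent_lt h1 (by linarith)
        linarith
      have hn0 : n = 0 := by omega
      subst hp hn0
      rw [← hK]
      have e1 : TB 20 (θ + e) ((2 : ℝ) ^ 0) ((2 : ℝ) ^ 0) = 1 := by
        unfold TB
        norm_num
      rw [e1]
      simp only [pow_zero, one_rpow, mul_one]
      rw [hC₁]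
      have h1 := le_abs_self K
      linarith)
    (by
      intro p n hn q1 q2
      have h1 := hW p n hn q1 q2
      have hT := (TB_pos (q := 12) (θ := θ + e) (show (0 : ℝ) < 2 ^ p by positivity) (show (0 : ℝ) < 2 ^ n by positivity)).le
      have hk := Pool.Agent.Helper22.OV.o3_k0_cont (beta_pos75 p n)
      have h5 : ∫ α in Icc (-α₂) α₂, k0 (1 / sqrt ((2 : ℝ) ^ p * ((2 ^ n : ℕ) : ℝ))) α * JJ f0 (hom (ga (H s) α)) ((2 : ℝ) ^ p) (2 ^ n) ≤ Wm H α₁ p n s := by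
        unfold Wm
        refine setIntegral_mono_set ?_ (Eventually.of_forall fun α => mul_nonneg (Pool.Agent.Helper22.OV.o3_k0_nonneg (beta_pos75 p n) α) (JJ_nonneg75 _ _ _ _))
          (Eventually.of_forall fun x hx => ⟨by linarith [hx.1], by linarith [hx.2]⟩)
        exact (hk.mul (JJ_a75 hc s _ _)).continuousOn.integrableOn_compact isCompact_Icc
      have h9 : 0 ≤ |K| * (((2 : ℝ) ^ p) ^ e * TB 12 (θ + e) ((2 : ℝ) ^ p) (2 ^ n)) := by positivity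
      rw [hC₁]
      refine (h5.trans h1).trans ?_
      linarith)
  refine ⟨C, fun R hR c => ?_⟩
  have h6 := hC R hR c
  rw [Hf_f0 hH.per] at h6
  have e1 : θ + e + 2 * e = θ + 3 * e := by ring
  rwa [e1] at h6

/-- dimension from the measures -/
theorem dim_le {S : Set ℝ} {D : ℝ} (hD1 : D ≤ 1) (h : ∀ d : ℝ, 0 < d → D ≤ d → d ≤ 1 → μH[d] S = 0) : dimH S ≤ ENNReal.ofReal D := by
  rcases lt_or_ge 0 D with hD | hD
  · have h1 := h D hD le_rfl hD1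
    have h2 : dimH S ≤ (D.toNNReal : ℝ≥0∞) := by
      refine dimH_le_of_hausdorffMeasure_ne_top ?_
      rw [Real.coe_toNNReal _ hD.le, h1]
      exact ENNReal.zero_ne_top
    exact h2
  · rw [ENNReal.ofReal_of_nonpos hD]
    refine ENNReal.le_of_forall_pos_le_add fun ε hε _ => ?_
    rw [zero_add]
    rcases le_total ε 1 with h1 | h1
    · refine dimH_le_of_hausdorffMeasure_ne_top ?_
      rw [h ε (by exact_mod_cast hε) (hD.trans ε.2) (by exact_mod_cast h1)]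
      exact ENNReal.zero_ne_top
    · refine (dimH_le_of_hausdorffMeasure_ne_top (d := 1) ?_).trans (by exact_mod_cast h1)
      rw [NNReal.coe_one, h 1 one_pos (by linarith) le_rfl]
      exact ENNReal.zero_ne_top

theorem Dm_le_one {θ : ℝ} (hθ : 5 / 9 ≤ θ) (hθ1 : θ < 1) : Dm θ ≤ 1 := by
  unfold Dm
  have h1 : 0 ≤ 12 * (θ - 5 / 9) / (2 - θ) := div_nonneg (by linarith) (by linarith)
  linarith

/-- a piece of the curve, from the moments -/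
private theorem piece75 {H : ℝ → ℝ → ℝ} (h : ContDiff ℝ 7 fun q : ℝ × ℝ => H q.1 q.2) (hp : ∀ s, Function.Periodic (H s) (2 * π)) {s₀ δ : ℝ} (hδ : 0 < δ) (h1 : δ < π / 2)
    (hH : ∀ s ∈ Icc (s₀ - δ / 2) (s₀ + δ / 2), IsSupp (H s))
    (hm : ∀ η : ℝ, 0 < η → ∃ C : ℝ, 1 ≤ C ∧ ∀ (X : ℝ) (N : ℕ), 1 ≤ X → 1 ≤ N → X ^ (1 / 10 : ℝ) ≤ N → (N : ℝ) ≤ X ^ (4 / 9 + 1 / 1000 : ℝ) →
      ∀ α ∈ Icc (-δ) δ, ∫⁻ s in Icc (s₀ - δ / 2) (s₀ + δ / 2), ENNReal.ofReal (JJ f0 (hom (ga (H s) α)) X N) ≤ ENNReal.ofReal (C * X ^ η * FR X N))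
    {θ : ℝ} (hθ : 5 / 9 ≤ θ) (hθ1 : θ < 1) :
    dimH {s | s ∈ Icc (s₀ - δ / 4) (s₀ + δ / 4) ∧ ¬ ∀ ε : ℝ, 0 < ε → ∃ C : ℝ, ∀ R : ℝ, 1 ≤ R → ∀ c : ℝ × ℝ,
      |cntc (H s) c R - area (H s) * R ^ 2| ≤ C * R ^ (θ + ε)} ≤ ENNReal.ofReal (Dm θ) := by
  have hc := hom_cont75 h
  have h5 : ∀ s, ContDiff ℝ 5 (H s) := fun s => (h.of_le (by norm_num)).comp (contDiff_const.prodMk contDiff_id)
  have hNr : ∀ n : ℕ, ((2 ^ n : ℕ) : ℝ) = (2 : ℝ) ^ n := fun n => by push_cast; rfl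
  obtain ⟨B, hB, hst⟩ := stab_Wm h hp s₀ δ
  have hmem : ∀ s ∈ Icc (s₀ - δ / 2) (s₀ + δ / 2), |s - s₀| ≤ δ := by
    intro s hs
    rw [abs_le]
    constructor
    · linarith [hs.1]
    · linarith [hs.2]
  obtain ⟨e, he⟩ : ∃ e : ℕ → ℝ, ∀ j, e j = (1 - θ) / (3 * ((j : ℝ) + 1)) := ⟨_, fun _ => rfl⟩
  have he0 : ∀ j, 0 < e j := fun j => by
    rw [he]
    have : 0 < 1 - θ := by linarith
    positivity
  have he1 : ∀ j, θ + e j < 1 := fun j => by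
    have h2 : e j ≤ (1 - θ) / 3 := by
      rw [he]
      refine div_le_div_of_nonneg_left (by linarith) (by norm_num) ?_
      have : (0 : ℝ) ≤ j := Nat.cast_nonneg j
      linarith
    linarith
  obtain ⟨E, hE⟩ : ∃ E : ℕ → Set ℝ, ∀ j, E j = {s | s ∈ Icc (s₀ - δ / 2 + δ / 4) (s₀ + δ / 2 - δ / 4) ∧ ¬ ∃ C : ℝ, 0 ≤ C ∧ ∀ p n : ℕ, n ≤ p →
      ((2 : ℝ) ^ p) ^ (1 / 9 : ℝ) ≤ (2 : ℝ) ^ n → (2 : ℝ) ^ n ≤ ((2 : ℝ) ^ p) ^ (1 - θ) →
      Wm H δ p n s ≤ C * (((2 : ℝ) ^ p) ^ (e j) * TB 12 (θ + e j) ((2 : ℝ) ^ p) (2 ^ n))} := ⟨_, fun _ => rfl⟩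
  have hEd : ∀ j, dimH (E j) ≤ ENNReal.ofReal (Dm θ) := by
    intro j
    refine dim_le (Dm_le_one hθ hθ1) fun d hd hdθ hd1 => ?_
    rw [hE]
    refine dim_core (W := Wm H δ) (B := B) (K := KS) (by linarith) hB KS_pos
      (fun p n s hs s' hs' hss => hst δ le_rfl p n s s' (hmem s hs) (hmem s' hs') hss) ?_ hθ hθ1 (he0 j) hd hdθ hd1
    intro η hη
    obtain ⟨C, hC, hm1⟩ := hm η hη
    refine ⟨20 * C, by linarith, fun p n hn q1 q2 => ?_⟩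
    have hX1 : (1 : ℝ) ≤ 2 ^ p := one_le_pow₀ (by norm_num)
    have h3 := hm1 ((2 : ℝ) ^ p) (2 ^ n) hX1 Nat.one_le_two_pow (by rw [hNr]; exact q1) (by rw [hNr]; exact q2)
    rw [hNr] at h3
    have hD : 0 ≤ C * ((2 : ℝ) ^ p) ^ η * FR ((2 : ℝ) ^ p) ((2 : ℝ) ^ n) := by
      have := (FR_pos75 (show (0 : ℝ) < 2 ^ p by positivity) (show (0 : ℝ) < 2 ^ n by positivity)).le
      positivity
    refine (Wm_int75 hc hδ h1 p n hD h3).trans (le_of_eq ?_)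
    congr 1
    ring
  have hsub : {s | s ∈ Icc (s₀ - δ / 4) (s₀ + δ / 4) ∧ ¬ ∀ ε : ℝ, 0 < ε → ∃ C : ℝ, ∀ R : ℝ, 1 ≤ R → ∀ c : ℝ × ℝ,
      |cntc (H s) c R - area (H s) * R ^ 2| ≤ C * R ^ (θ + ε)} ⊆ ⋃ j, E j := by
    rintro s ⟨hs, hs2⟩
    push Not at hs2
    obtain ⟨ε, hε, hs3⟩ := hs2
    obtain ⟨j, hj⟩ := exists_nat_gt ((1 - θ) / ε)
    rw [mem_iUnion]
    refine ⟨j, ?_⟩
    rw [hE]
    refine ⟨⟨by linarith [hs.1], by linarith [hs.2]⟩, fun hcon => ?_⟩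
    have hmem1 : s ∈ Icc (s₀ - δ / 2) (s₀ + δ / 2) := ⟨by linarith [hs.1], by linarith [hs.2]⟩
    obtain ⟨C, hC⟩ := memb75 hc hδ (hH s hmem1) (h5 s) hθ (he0 j) (he1 j) hcon
    obtain ⟨R, hR, c, hRc⟩ := hs3 |C|
    refine absurd ((hC R hR c).trans ?_) (not_le.2 hRc)
    have h6 : 3 * e j ≤ ε := by
      rw [he]
      have hj1 : (0 : ℝ) < (j : ℝ) + 1 := by positivity
      rw [div_lt_iff₀ hε] at hj
      have h7 : 3 * ((1 - θ) / (3 * ((j : ℝ) + 1))) = (1 - θ) / ((j : ℝ) + 1) := by field_simp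
      rw [h7, div_le_iff₀ hj1]
      nlinarith
    calc C * R ^ (θ + 3 * e j) ≤ |C| * R ^ (θ + 3 * e j) := mul_le_mul_of_nonneg_right (le_abs_self C) (by positivity)
      _ ≤ |C| * R ^ (θ + ε) := mul_le_mul_of_nonneg_left (rpow_le_rpow_of_exponent_le hR (by linarith)) (abs_nonneg C)
  calc _ ≤ dimH (⋃ j, E j) := dimH_mono hsub
    _ = ⨆ j, dimH (E j) := dimH_iUnion E
    _ ≤ _ := iSup_le hEd

/-- near a generic member -/
theorem local_dim {H : ℝ → ℝ → ℝ} (h : ContDiff ℝ 7 fun q : ℝ × ℝ => H q.1 q.2) (hp : ∀ s, Function.Periodic (H s) (2 * π)) {s₀ : ℝ} (hr : ∀ θ, 0 < rho (H s₀) θ) (hv : Mo H s₀)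
    {θ : ℝ} (hθ : 5 / 9 ≤ θ) (hθ1 : θ < 1) :
    ∃ δ : ℝ, 0 < δ ∧ dimH {s | s ∈ Icc (s₀ - δ) (s₀ + δ) ∧ ¬ ∀ ε : ℝ, 0 < ε → ∃ C : ℝ, ∀ R : ℝ, 1 ≤ R → ∀ c : ℝ × ℝ,
      |cntc (H s) c R - area (H s) * R ^ 2| ≤ C * R ^ (θ + ε)} ≤ ENNReal.ofReal (Dm θ) := by
  obtain ⟨v, δ₀, hδ₀, hsup⟩ := supp_near h hp hr
  obtain ⟨G, hG⟩ : ∃ G : ℝ → ℝ → ℝ, G = fun s => shf (H s) v := ⟨_, rfl⟩
  have g7 : ContDiff ℝ 7 fun q : ℝ × ℝ => G q.1 q.2 := by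
    rw [hG]
    exact shf_sm h v
  have g7' : ContDiff ℝ ((7 : ℕ) : ℕ∞) fun q : ℝ × ℝ => G q.1 q.2 := g7.of_le (by norm_cast)
  have gp : ∀ s, Function.Periodic (G s) (2 * π) := by
    intro s t
    rw [hG]
    simp only
    unfold shf
    rw [hp s t, cos_add_two_pi, sin_add_two_pi]
  have gr : ∀ θ, 0 < rho (G s₀) θ := by
    intro θ
    rw [hG]
    simp only
    rw [shf_rho' h]
    exact hr θ
  have gv : Mo G s₀ := by
    rw [hG]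
    exact shf_Mo h v hv
  obtain ⟨Φ, hΦ⟩ : ∃ Φ : Finset ℝ, Φ = (Finset.range 4).image (fun j : ℕ => (j : ℝ) * (π / 2)) := ⟨_, rfl⟩
  obtain ⟨δ₁, hδ₁, hfam⟩ := famH_all g7' gr gv Φ
  obtain ⟨δ, hδd⟩ : ∃ δ : ℝ, δ = min δ₁ (min δ₀ (1 / 2)) := ⟨_, rfl⟩
  have hδ : 0 < δ := by
    rw [hδd]
    exact lt_min hδ₁ (lt_min hδ₀ (by norm_num))
  have hδa : δ ≤ δ₁ := by
    rw [hδd]
    exact min_le_left _ _
  have hδb : δ ≤ δ₀ := by
    rw [hδd]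
    exact (min_le_right _ _).trans (min_le_left _ _)
  have hδc : δ ≤ 1 / 2 := by
    rw [hδd]
    exact (min_le_right _ _).trans (min_le_right _ _)
  obtain ⟨B, hB, hok⟩ := hfam δ hδ hδa
  have hmem : ∀ s ∈ Icc (s₀ - δ / 2) (s₀ + δ / 2), |s - s₀| ≤ δ₀ := by
    intro s hs
    rw [abs_le]
    constructor
    · linarith [hs.1]
    · linarith [hs.2]
  have hpi := pi_gt_three
  have key := piece75 (H := G) g7 gp (s₀ := s₀) hδ (by linarith)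
    (fun s hs => by
      rw [hG]
      exact hsup s (hmem s hs))
    (by
      intro η hη
      obtain ⟨C, hC, hm⟩ := momG (B₀ := B) (B := 8) hη hB (by norm_num)
      refine ⟨4 ^ 12 * δ * C + 1, ?_, fun X N hX hN h1 h2 α hα => ?_⟩
      · have : 0 ≤ 4 ^ 12 * δ * C := by positivity
        linarith
      · have hα2 : |α| ≤ 2 * δ := by
          rw [abs_le]
          constructor
          · linarith [hα.1]
          · linarith [hα.2]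
        have hFR : 0 ≤ FR X N := by
          unfold FR
          positivity
        have hD : 0 ≤ C * X ^ η * FR X N := by positivity
        have hjΦ : ∀ j : ℕ, j < 4 → (j : ℝ) * (π / 2) ∈ Φ := by
          intro j hj
          rw [hΦ, Finset.mem_image]
          exact ⟨j, Finset.mem_range.2 hj, rfl⟩
        have h3 := curve_int (H := G) (α := α) (s₀ := s₀) hδ (fun j => famH G ((j : ℝ) * (π / 2)) α s₀ δ)
          (fun j _ s t => by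
            rw [famH_q gp]
            rfl)
          (fun j hj => (hok α hα2 _ (hjΦ j hj)).cont) hX hN hD (fun j hj => hm _ (hok α hα2 _ (hjΦ j hj)) X N hX hN h1 h2)
        refine h3.trans (ENNReal.ofReal_le_ofReal ?_)
        have h4 : 0 ≤ X ^ η * FR X N := by positivity
        calc 4 ^ 12 * δ * (C * X ^ η * FR X N) = 4 ^ 12 * δ * C * (X ^ η * FR X N) := by ring
          _ ≤ (4 ^ 12 * δ * C + 1) * (X ^ η * FR X N) := mul_le_mul_of_nonneg_right (by linarith) h4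
          _ = (4 ^ 12 * δ * C + 1) * X ^ η * FR X N := by ring) hθ hθ1
  refine ⟨δ / 4, by linarith, (dimH_mono ?_).trans key⟩
  rintro s ⟨hs, hs2⟩
  refine ⟨hs, fun hcon => hs2 fun ε hε => ?_⟩
  obtain ⟨C, hC⟩ := hcon ε hε
  refine ⟨C, fun R hR c => ?_⟩
  have h5 := hC R hR (c.1 - R * v.1, c.2 - R * v.2)
  rw [hG] at h5
  simp only at h5
  rwa [cntc_shf, area_shf] at h5

/-- the exceptional generic members, standard lattice -/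
theorem dimG {H : ℝ → ℝ → ℝ} (h : ContDiff ℝ 7 fun q : ℝ × ℝ => H q.1 q.2) (hp : ∀ s, Function.Periodic (H s) (2 * π)) {θ : ℝ} (hθ : 5 / 9 ≤ θ) (hθ1 : θ < 1) :
    dimH {s | (∀ t, 0 < rho (H s) t) ∧ Mo H s ∧ ¬ ∀ ε : ℝ, 0 < ε → ∃ C : ℝ, ∀ R : ℝ, 1 ≤ R → ∀ c : ℝ × ℝ,
      |lcnt ((1, 0), (0, 1)) (H s) c R - area (H s) * R ^ 2| ≤ C * R ^ (θ + ε)} ≤ ENNReal.ofReal (Dm θ) := by
  simp only [lcnt_std]
  by_contra hcon
  obtain ⟨s₀, hs₀, h1⟩ := exists_mem_nhdsWithin_lt_dimH_of_lt_dimH (not_le.1 hcon)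
  obtain ⟨hr, hv, -⟩ := hs₀
  obtain ⟨δ, hδ, h2⟩ := local_dim h hp hr hv hθ hθ1
  refine absurd (h1 _ (inter_mem_nhdsWithin _ (Icc_mem_nhds (show s₀ - δ < s₀ by linarith) (show s₀ < s₀ + δ by linarith)))) (not_lt.2 ((dimH_mono ?_).trans h2))
  rintro s ⟨⟨-, -, h3⟩, h4⟩
  exact ⟨h4, h3⟩

/-- the exceptional generic members, every lattice -/
theorem dimGL {a b : ℝ × ℝ} (hab : a.1 * b.2 - a.2 * b.1 ≠ 0) {H : ℝ → ℝ → ℝ} (h : ContDiff ℝ 7 fun q : ℝ × ℝ => H q.1 q.2)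
    (hp : ∀ s, Function.Periodic (H s) (2 * π)) {θ : ℝ} (hθ : 5 / 9 ≤ θ) (hθ1 : θ < 1) :
    dimH {s | (∀ t, 0 < rho (H s) t) ∧ Mo H s ∧ ¬ ∀ ε : ℝ, 0 < ε → ∃ C : ℝ, ∀ R : ℝ, 1 ≤ R → ∀ c : ℝ × ℝ,
      |lcnt (a, b) (H s) c R - (area (H s) * R ^ 2 / |a.1 * b.2 - a.2 * b.1|)| ≤ C * R ^ (θ + ε)} ≤ ENNReal.ofReal (Dm θ) := by
  have hab' : fdet (a, b) ≠ 0 := hab
  have hf : fdet (dl (a, b)) ≠ 0 := by
    rw [fdet_dl hab']
    positivity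
  have hs : ∀ s, ContDiff ℝ 2 (H s) := fun s => (h.of_le (by norm_num)).comp (contDiff_const.prodMk contDiff_id)
  have key := dimG (H := fun s => Hf (H s) (dl (a, b))) (Hf_joint h hp hf) (fun s t => by
    unfold Hf
    rw [cos_add_two_pi, sin_add_two_pi]) hθ hθ1
  refine (dimH_mono ?_).trans key
  rintro s ⟨hr, hv, hbad⟩
  refine ⟨?_, Mo_Hf h hp hf hr hv, fun hcon => hbad fun ε hε => ?_⟩
  · intro t
    rw [rho_Hf (hs s) (hp s) hf]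
    have hq : 0 < qa (dl (a, b)) t := qa_pos hf t
    have := sqrt_pos.2 hq
    exact mul_pos (hr _) (by positivity)
  · obtain ⟨C, hC⟩ := hcon ε hε
    refine ⟨C, fun R hR c => ?_⟩
    have h5 := hC R hR ((dl (a, b)).1.1 * c.1 + (dl (a, b)).1.2 * c.2, (dl (a, b)).2.1 * c.1 + (dl (a, b)).2.2 * c.2)
    rw [lcnt_std, area_lin (hp s) hf, fdet_dl hab', ← lcnt_eq (hp s) hab' c R, abs_div, abs_one] at h5
    have e1 : 1 / |fdet (a, b)| * area (H s) * R ^ 2 = area (H s) * R ^ 2 / |fdet (a, b)| := by ring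
    rw [e1] at h5
    exact h5

end Pool.Agent.Helper75.GD
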