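import Pool.Agent.Helper75.GD.Stab20
import Pool.Agent.Helper75.TW.B1

/-!
# Exceptional sets (MP_fb29e9_nt): the moments of a frame vary slowly
-/

open MeasureTheory Real Set Filter Topology Metric

set_option autoImplicit false

namespace Pool.Agent.Helper75.GD

open Pool.Agent.Helper22.AE
open Pool.Agent.Helper22.AC (cntc ga)
open Pool.Agent.Helper92.GC (dt tp Tq uu tt arc dd sqa m6)
open Pool.Agent.Helper92.DT (m12 m12_nonneg)
open Pool.Agent.Helper75.TW (m20 m20_nonneg J20 Mm mm_JJ mm_J20 m20_cont_coef)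
open Pool.Agent.Helper92.LA (JJ m12_cont_coef)
open Pool.Agent.Helper22.LP (Fr fv fk fdet fv_ne nr tr nr_cos nr_sin nr_pos nr_eq hom Hf)
open Pool.Agent.Helper92.GV (f0 vr)
open Pool.Agent.Helper75.GCF (Qf Qf_sm Qf_hom)

/-- the phase is a smooth function of the parameter `α` and of the vector, off the origin -/
theorem psi_at {H : ℝ → ℝ} (h5 : ContDiff ℝ 5 H) (hp : Function.Periodic H (2 * π)) (α₀ : ℝ) {v₀ : ℝ × ℝ} (hv : v₀ ≠ 0) :
    ContDiffAt ℝ ((2 : ℕ) : ℕ∞) (fun z : ℝ × (ℝ × ℝ) => hom (ga H z.1) z.2) (α₀, v₀) := by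
  obtain ⟨θ, hθ⟩ : ∃ θ : ℝ, θ = tr v₀ := ⟨_, rfl⟩
  have hsc := sin_sq_add_cos_sq θ
  have hu0 : v₀.1 * cos θ + v₀.2 * sin θ = nr v₀ := by
    rw [hθ]
    have h1 := nr_cos v₀
    have h2 := nr_sin v₀
    have h3 := sin_sq_add_cos_sq (tr v₀)
    linear_combination cos (tr v₀) * h1 + sin (tr v₀) * h2 + nr v₀ * h3
  have hupos : 0 < v₀.1 * cos θ + v₀.2 * sin θ := by
    rw [hu0]
    exact nr_pos hv
  have hQ : ContDiff ℝ ((2 : ℕ) : ℕ∞) (Qf (fun _ => H) θ) := by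
    refine Qf_sm (n := 2) ?_ θ
    exact (h5.of_le (by norm_cast)).comp contDiff_snd
  have hu : ContDiff ℝ ((2 : ℕ) : ℕ∞) fun z : ℝ × (ℝ × ℝ) => z.2.1 * cos θ + z.2.2 * sin θ := by fun_prop
  have hw : ContDiff ℝ ((2 : ℕ) : ℕ∞) fun z : ℝ × (ℝ × ℝ) => -(z.2.1 * sin θ) + z.2.2 * cos θ := by fun_prop
  have heq : (fun z : ℝ × (ℝ × ℝ) => hom (ga H z.1) z.2) =ᶠ[𝓝 (α₀, v₀)]
      fun z => (z.2.1 * cos θ + z.2.2 * sin θ) * Qf (fun _ => H) θ (z.1, 0, (-(z.2.1 * sin θ) + z.2.2 * cos θ) / (z.2.1 * cos θ + z.2.2 * sin θ)) := by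
    have h1 : ∀ᶠ z : ℝ × (ℝ × ℝ) in 𝓝 (α₀, v₀), 0 < z.2.1 * cos θ + z.2.2 * sin θ :=
      hu.continuous.continuousAt.eventually_mem (isOpen_Ioi.mem_nhds hupos)
    filter_upwards [h1] with z hz
    rw [Qf_hom (fun _ => hp), ← Pool.Agent.Helper92.LA.hom_smul _ hz]
    congr 1
    ext
    · simp only
      field_simp
      linear_combination -z.2.1 * hsc
    · simp only
      field_simp
      linear_combination -z.2.2 * hsc
  refine ContDiffAt.congr_of_eventuallyEq ?_ heq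
  refine hu.contDiffAt.mul ?_
  refine ContDiffAt.comp _ hQ.contDiffAt ?_
  exact contDiffAt_fst.prodMk (contDiffAt_const.prodMk (hw.contDiffAt.div hu.contDiffAt hupos.ne'))

/-- bounds for a differentiable function on a compact convex set -/
theorem bds_gen {E : Type*} [NormedAddCommGroup E] [NormedSpace ℝ E] {K : Set E} (hK : IsCompact K) (hc : Convex ℝ K) {f : E → ℝ}
    (h : ∀ z ∈ K, ContDiffAt ℝ ((1 : ℕ) : ℕ∞) f z) : ∃ B : ℝ, 1 ≤ B ∧ ∀ z ∈ K, ∀ z' ∈ K, |f z - f z'| ≤ B * ‖z - z'‖ := by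
  have h2 : ContinuousOn (fderiv ℝ f) K := fun z hz =>
    (((h z hz).fderiv_right (m := 0) (by norm_num)).continuousAt).continuousWithinAt
  obtain ⟨B₂, hB₂⟩ := hK.exists_bound_of_continuousOn h2
  refine ⟨max 1 B₂, le_max_left _ _, fun z hz z' hz' => ?_⟩
  have h3 := hc.norm_image_sub_le_of_norm_fderiv_le (𝕜 := ℝ) (f := f) (C := max 1 B₂)
    (fun z hz => (h z hz).differentiableAt (by norm_num)) (fun z hz => (hB₂ z hz).trans (le_max_right _ _)) hz' hz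
  rwa [norm_eq_abs] at h3

/-- the phase of a frame on a cone -/
noncomputable def Gp (H : ℝ → ℝ) (φ : ℝ) (z : ℝ × (Fr × ℝ)) : ℝ := hom (ga H z.1) (fv z.2.1 (vr φ z.2.2).1 (vr φ z.2.2).2)

theorem vr_ne (φ t : ℝ) : (vr φ t).1 ≠ 0 ∨ (vr φ t).2 ≠ 0 := by
  by_contra h
  rw [not_or, not_not, not_not] at h
  obtain ⟨h1, h2⟩ := h
  unfold vr at h1 h2
  simp only at h1 h2
  have h3 := sin_sq_add_cos_sq φ
  have h4 : (1 : ℝ) + t ^ 2 = 0 := by
    have h5 : (cos φ - t * sin φ) ^ 2 + (sin φ + t * cos φ) ^ 2 = 0 := by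
      rw [h1, h2]
      ring
    linear_combination h5 - (1 + t ^ 2) * h3
  nlinarith [sq_nonneg t]

theorem Gp_at {H : ℝ → ℝ} (h5 : ContDiff ℝ 5 H) (hp : Function.Periodic H (2 * π)) (φ : ℝ) {z : ℝ × (Fr × ℝ)} (hz : fdet z.2.1 ≠ 0) :
    ContDiffAt ℝ ((2 : ℕ) : ℕ∞) (Gp H φ) z := by
  have h1 := psi_at h5 hp z.1 (fv_ne hz (vr_ne φ z.2.2))
  have h2 : ContDiff ℝ ((2 : ℕ) : ℕ∞) fun z : ℝ × (Fr × ℝ) => ((z.1, fv z.2.1 (vr φ z.2.2).1 (vr φ z.2.2).2) : ℝ × (ℝ × ℝ)) := by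
    unfold fv vr
    fun_prop
  exact ContDiffAt.comp z h1 h2.contDiffAt

/-- the phases of two frames -/
theorem frame_lip {H : ℝ → ℝ} (h5 : ContDiff ℝ 5 H) (hp : Function.Periodic H (2 * π)) (φ α₁ ρ : ℝ) {f₀ : Fr} (hf : ∀ f ∈ closedBall f₀ ρ, fdet f ≠ 0) :
    ∃ B : ℝ, 1 ≤ B ∧ ∀ α f f', |α| ≤ α₁ → f ∈ closedBall f₀ ρ → f' ∈ closedBall f₀ ρ → ∀ t t' : ℝ, |t| ≤ 1 → |t'| ≤ 1 →
      |Gp H φ (α, f', t) - Gp H φ (α, f, t)| ≤ B * dist f' f ∧
      |(Gp H φ (α, f', t) - Gp H φ (α, f, t)) - (Gp H φ (α, f', t') - Gp H φ (α, f, t'))| ≤ B * dist f' f * |t - t'| := by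
  obtain ⟨K, hK⟩ : ∃ K : Set (ℝ × (Fr × ℝ)), K = Icc (-α₁) α₁ ×ˢ (closedBall f₀ ρ ×ˢ Icc (-1 : ℝ) 1) := ⟨_, rfl⟩
  have hKc : IsCompact K := by
    rw [hK]
    exact isCompact_Icc.prod ((isCompact_closedBall f₀ ρ).prod isCompact_Icc)
  have hKx : Convex ℝ K := by
    rw [hK]
    exact (convex_Icc _ _).prod ((convex_closedBall f₀ ρ).prod (convex_Icc _ _))
  have hKd : ∀ z ∈ K, fdet z.2.1 ≠ 0 := by
    intro z hz
    rw [hK] at hz
    exact hf _ hz.2.1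
  have hKm : ∀ α f t, |α| ≤ α₁ → f ∈ closedBall f₀ ρ → |t| ≤ 1 → ((α, f, t) : ℝ × (Fr × ℝ)) ∈ K := by
    intro α f t h1 h2 h3
    rw [hK]
    exact ⟨abs_le.1 h1, h2, abs_le.1 h3⟩
  obtain ⟨Gt, hGt⟩ : ∃ Gt : ℝ × (Fr × ℝ) → ℝ, Gt = fun z => fderiv ℝ (Gp H φ) z (0, 0, 1) := ⟨_, rfl⟩
  obtain ⟨B₁, hB₁, h1⟩ := bds_gen hKc hKx (f := Gp H φ) fun z hz => (Gp_at h5 hp φ (hKd z hz)).of_le (by norm_num)
  obtain ⟨B₂, hB₂, h2⟩ := bds_gen hKc hKx (f := Gt) fun z hz => by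
    rw [hGt]
    exact ((Gp_at h5 hp φ (hKd z hz)).fderiv_right (m := ((1 : ℕ) : ℕ∞)) (by norm_num)).clm_apply contDiffAt_const
  have hnorm : ∀ α f f' t, ‖((α, f', t) : ℝ × (Fr × ℝ)) - (α, f, t)‖ = dist f' f := by
    intro α f f' t
    rw [Prod.mk_sub_mk, Prod.mk_sub_mk, sub_self, sub_self, Prod.norm_mk, Prod.norm_mk, norm_zero, dist_eq_norm]
    simp
  have hd : ∀ α f t, |α| ≤ α₁ → f ∈ closedBall f₀ ρ → |t| ≤ 1 → HasDerivAt (fun t => Gp H φ (α, f, t)) (Gt (α, f, t)) t := by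
    intro α f t hα hf' ht
    have h3 := ((Gp_at h5 hp φ (hKd _ (hKm α f t hα hf' ht))).differentiableAt (by norm_num)).hasFDerivAt
    have h4 : HasDerivAt (fun t : ℝ => ((α, f, t) : ℝ × (Fr × ℝ))) (0, 0, 1) t :=
      (hasDerivAt_const t α).prodMk ((hasDerivAt_const t f).prodMk (hasDerivAt_id t))
    have h5 := h3.comp_hasDerivAt t h4
    rw [hGt]
    exact h5
  refine ⟨max B₁ B₂, hB₁.trans (le_max_left _ _), fun α f f' hα hf1 hf2 t t' ht ht' => ⟨?_, ?_⟩⟩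
  · have h3 := h1 _ (hKm α f' t hα hf2 ht) _ (hKm α f t hα hf1 ht)
    rw [hnorm] at h3
    exact h3.trans (mul_le_mul_of_nonneg_right (le_max_left _ _) dist_nonneg)
  · have hseg : ∀ u ∈ uIcc t' t, |u| ≤ 1 := by
      intro u hu
      rw [abs_le] at ht ht' ⊢
      rcases mem_uIcc.1 hu with h2 | h2
      · exact ⟨by linarith [h2.1], by linarith [h2.2]⟩
      · exact ⟨by linarith [h2.1], by linarith [h2.2]⟩
    have h3 := (convex_uIcc t' t).norm_image_sub_le_of_norm_hasDerivWithin_le (f := fun u => Gp H φ (α, f', u) - Gp H φ (α, f, u))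
      (f' := fun u => Gt (α, f', u) - Gt (α, f, u)) (C := max B₁ B₂ * dist f' f)
      (fun u hu => ((hd α f' u hα hf2 (hseg u hu)).sub (hd α f u hα hf1 (hseg u hu))).hasDerivWithinAt) (fun u hu => by
        rw [norm_eq_abs]
        have h4 := h2 _ (hKm α f' u hα hf2 (hseg u hu)) _ (hKm α f u hα hf1 (hseg u hu))
        rw [hnorm] at h4
        exact h4.trans (mul_le_mul_of_nonneg_right (le_max_right _ _) dist_nonneg)) left_mem_uIcc right_mem_uIcc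
    rwa [norm_eq_abs, norm_eq_abs] at h3

/-- the phase of a frame as a phase of the standard frame -/
theorem hom_Hf75 (γ : ℝ → ℝ) (f : Fr) (v : ℝ × ℝ) : hom (Hf γ f) v = hom γ (fv f v.1 v.2) := by
  by_cases hv : v = 0
  · have e1 : nr v = 0 := by
      rw [hv, nr_eq]
      simp
    have e2 : nr (fv f v.1 v.2) = 0 := by
      rw [hv, nr_eq]
      unfold fv
      simp
    unfold hom
    rw [e1, e2, zero_mul, zero_mul]
  · have h1 := nr_pos hv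
    have h2 : hom (Hf γ f) v = nr v * hom γ (fv f (cos (tr v)) (sin (tr v))) := rfl
    rw [h2, ← Pool.Agent.Helper92.LA.hom_smul γ h1]
    congr 1
    have h3 := nr_cos v
    have h4 := nr_sin v
    unfold fv
    ext
    · simp only
      linear_combination -(f.1.1) * h3 - f.2.1 * h4
    · simp only
      linear_combination -(f.1.2) * h3 - f.2.2 * h4

end Pool.Agent.Helper75.GD
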