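import Pool.Agent.Helper92.GV.Cones
import Pool.Agent.Helper75.GC.FamH

/-!
# Exceptional sets (MP_fb29e9_nt): the moment of a member varies slowly along the curve

If `|s' - s| ≤ 1 / (X N)`, the twelfth moment of the member `s'` is at most a constant times that of the member `s`.
-/

open MeasureTheory Real Set Filter Topology

set_option autoImplicit false

namespace Pool.Agent.Helper75.GD

open Pool.Agent.Helper22.AE
open Pool.Agent.Helper22.AC (cntc ga)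
open Pool.Agent.Helper92.GC (dt tp Tq uu tt arc dd sqa m6)
open Pool.Agent.Helper92.DT (m12 IsMul12 mul12_exp mul12_half mul12_half_lt mul12_comp m12_congr m12_filter m12_nonneg)
open Pool.Agent.Helper60.RT (FR cn)
open Pool.Agent.Helper92.LA (JJ m12_cont_coef)
open Pool.Agent.Helper22.LP (hom fk)
open Pool.Agent.Helper92.GV (f0 rt92 rt_inj92 m12_sqa vr)
open Pool.Agent.Helper75.GCF (Ds Ds_hd Ds_sm Bx bds Qf Qf_sm Qf_hom)

/-! ## The phase -/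

/-- mixed Lipschitz bounds -/
theorem cross_lip {Q : ℝ × ℝ × ℝ → ℝ} (h : ContDiff ℝ ((2 : ℕ) : ℕ∞) Q) (s₀ δ T : ℝ) :
    ∃ B : ℝ, 1 ≤ B ∧ ∀ α s s' : ℝ, |α| ≤ δ → |s - s₀| ≤ δ → |s' - s₀| ≤ δ → ∀ t t' : ℝ, |t| ≤ T → |t'| ≤ T →
      |Q (α, s', t) - Q (α, s, t)| ≤ B * |s' - s| ∧
      |(Q (α, s', t) - Q (α, s, t)) - (Q (α, s', t') - Q (α, s, t'))| ≤ B * |s' - s| * |t - t'| := by
  have h1 : ContDiff ℝ ((1 : ℕ) : ℕ∞) (Ds Q) := Ds_sm h
  have hd : Differentiable ℝ Q := h.differentiable (by norm_num)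
  obtain ⟨B, hB1, hB, hL⟩ := bds (s₀ := s₀) (δ := δ) (T := T) (f := Ds Q) fun z _ => h1.contDiffAt
  refine ⟨B, hB1, fun α s s' hα hs hs' t t' ht ht' => ?_⟩
  have hseg : ∀ u ∈ uIcc s s', |u - s₀| ≤ δ := by
    intro u hu
    rw [abs_le] at hs hs' ⊢
    rcases mem_uIcc.1 hu with h2 | h2
    · exact ⟨by linarith [h2.1], by linarith [h2.2]⟩
    · exact ⟨by linarith [h2.1], by linarith [h2.2]⟩
  have hda : ∀ t u : ℝ, HasDerivAt (fun s => Q (α, s, t)) (Ds Q (α, u, t)) u := fun t u => Ds_hd (z := (α, u, t)) (hd _)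
  constructor
  · have h3 := (convex_uIcc s s').norm_image_sub_le_of_norm_hasDerivWithin_le (f := fun u => Q (α, u, t)) (f' := fun u => Ds Q (α, u, t)) (C := B)
      (fun u hu => (hda t u).hasDerivWithinAt) (fun u hu => by
        rw [norm_eq_abs]
        exact hB _ ⟨hα, hseg u hu, ht⟩) left_mem_uIcc right_mem_uIcc
    rwa [norm_eq_abs, norm_eq_abs] at h3
  · have h3 := (convex_uIcc s s').norm_image_sub_le_of_norm_hasDerivWithin_le (f := fun u => Q (α, u, t) - Q (α, u, t'))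
      (f' := fun u => Ds Q (α, u, t) - Ds Q (α, u, t')) (C := B * |t - t'|)
      (fun u hu => ((hda t u).sub (hda t' u)).hasDerivWithinAt) (fun u hu => by
        rw [norm_eq_abs]
        refine (hL _ ⟨hα, hseg u hu, ht⟩ _ ⟨hα, hseg u hu, ht'⟩).trans (le_of_eq ?_)
        congr 1
        rw [Prod.mk_sub_mk, Prod.mk_sub_mk, sub_self, sub_self, Prod.norm_mk, Prod.norm_mk, norm_zero, norm_eq_abs]
        simp) left_mem_uIcc right_mem_uIcc
    rw [norm_eq_abs, norm_eq_abs] at h3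
    calc |(Q (α, s', t) - Q (α, s, t)) - (Q (α, s', t') - Q (α, s, t'))| = |(Q (α, s', t) - Q (α, s', t')) - (Q (α, s, t) - Q (α, s, t'))| := by
          congr 1
          ring
      _ ≤ B * |t - t'| * |s' - s| := h3
      _ = B * |s' - s| * |t - t'| := by ring

/-! ## The cone -/

private theorem mem_cn75 {N : ℕ} {k : ℤ × ℤ} (hk : k ∈ cn N) : 0 < k.1 ∧ (k.1 : ℝ) < 2 * N ∧ |(k.2 : ℝ)| ≤ k.1 := by
  unfold cn sqa at hk
  rw [Finset.mem_filter, Finset.mem_filter] at hk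
  obtain ⟨⟨-, -, h1, -⟩, h2, h3⟩ := hk
  have h4 : 0 < k.1 := by omega
  refine ⟨h4, ?_, ?_⟩
  · have h5 : k.1 < 2 * (N : ℤ) := (le_abs_self _).trans_lt h1
    exact_mod_cast h5
  · rw [abs_le]
    constructor
    · have : -k.1 ≤ k.2 := h2.le
      exact_mod_cast this
    · exact_mod_cast h3

/-- two members of a family on the cone -/
theorem stab_cone {N : ℕ} (hN : 1 ≤ N) {g g' : ℝ → ℝ} {κ X r : ℝ} (hκ : 0 ≤ κ) (hr : |r| ≤ 8 * X)
    (h1 : ∀ t : ℝ, |t| ≤ 1 → |g' t - g t| ≤ κ)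
    (h2 : ∀ t t' : ℝ, |t| ≤ 1 → |t'| ≤ 1 → |(g' t - g t) - (g' t' - g t')| ≤ κ * |t - t'|) :
    m12 (cn N) (fun k => ee (r * ((k.1 : ℝ) * g' (tt 0 k)))) ≤
      exp (3800 * (32 * (κ * (X * N)))) ^ 12 * m12 (cn N) (fun k => ee (r * ((k.1 : ℝ) * g (tt 0 k)))) := by
  have hN' : (0 : ℝ) < N := by exact_mod_cast hN
  have hX : 0 ≤ 8 * X := (abs_nonneg _).trans hr
  have h0 : (0 : ℝ) < 2 * N := by positivity
  have hS : ∀ k ∈ cn N, 0 < uu 0 k ∧ uu 0 k ≤ 2 * N ∧ -1 ≤ tt 0 k ∧ tt 0 k ≤ 1 := by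
    intro k hk
    obtain ⟨h3, h4, h5⟩ := mem_cn75 hk
    have h6 : (0 : ℝ) < k.1 := by exact_mod_cast h3
    have h7 : uu 0 k = k.1 := by
      unfold uu
      ring
    have h8 := abs_le.1 h5
    refine ⟨by rwa [h7], by rw [h7]; exact h4.le, ?_, ?_⟩
    · unfold tt
      rw [h7, le_div_iff₀ h6]
      linarith
    · unfold tt
      rw [h7, div_le_iff₀ h6]
      linarith
  have e0 : 32 * (κ * (X * N)) / (2 * (N : ℝ)) = 16 * X * κ := by
    field_simp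
    ring
  have ht : ∀ t ∈ Icc (-1 : ℝ) 1, |t| ≤ 1 := fun t ht => abs_le.2 ht
  have hm := mul12_exp (S := cn N) (β := 0) h0 (t₁ := -1) (t₂ := 1) (B := 32 * (κ * (X * N))) (by norm_num) hS (χ := fun t => r * (g' t - g t))
    (by
      intro t ht1
      rw [e0, abs_mul]
      have h3 := mul_le_mul hr (h1 t (ht t ht1)) (abs_nonneg _) hX
      nlinarith)
    (by
      intro x hx y hy
      rw [e0, ← mul_sub, abs_mul]
      have h3 := mul_le_mul hr (h2 x y (ht x hx) (ht y hy)) (abs_nonneg _) hX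
      have h4 : (1 : ℝ) - -1 = 2 := by norm_num
      rw [h4]
      calc |r| * |(g' x - g x) - (g' y - g y)| * 2 ≤ 8 * X * (κ * |x - y|) * 2 := by linarith
        _ = 16 * X * κ * |x - y| := by ring)
  have h3 := hm.2 (fun k => ee (r * ((k.1 : ℝ) * g (tt 0 k))))
  refine le_trans (le_of_eq (m12_congr fun k _ => ?_)) h3
  rw [← ee_add]
  congr 1
  have h7 : uu 0 k = k.1 := by
    unfold uu
    ring
  rw [h7]
  ring1

open Classical in
/-- the cone against the square annulus -/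
theorem cn_le (N : ℕ) (a : ℤ × ℤ → ℂ) : m12 (cn N) a ≤ 576 ^ 12 * m12 (sqa N) a := by
  have h1 := mul12_comp (mul12_half_lt (sqa N) 1 1 0) (mul12_half (sqa N) 1 (-1) 0)
  have h2 := h1.2 a
  obtain ⟨p, hp⟩ : ∃ p : ℤ × ℤ → Prop, p = fun k => -k.1 < k.2 ∧ k.2 ≤ k.1 := ⟨_, rfl⟩
  have h := m12_filter (sqa N) p a
  have e1 : cn N = (sqa N).filter p := by
    unfold cn
    ext k
    rw [Finset.mem_filter, Finset.mem_filter, hp]
  rw [e1, h]
  have e3 : (24 * 24 : ℝ) = 576 := by norm_num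
  rw [e3] at h2
  refine le_trans (le_of_eq (m12_congr fun k _ => ?_)) h2
  congr 1
  have h3 : (0 : ℝ) < 1 * (k.1 : ℝ) + 1 * (k.2 : ℝ) ↔ -k.1 < k.2 := by
    rw [one_mul, one_mul]
    constructor
    · intro h
      have h' : (0 : ℤ) < k.1 + k.2 := by exact_mod_cast h
      omega
    · intro h
      have h' : (0 : ℤ) < k.1 + k.2 := by omega
      exact_mod_cast h'
  have h4 : (0 : ℝ) ≤ 1 * (k.1 : ℝ) + -1 * (k.2 : ℝ) ↔ k.2 ≤ k.1 := by
    constructor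
    · intro h
      have h' : (k.2 : ℝ) ≤ k.1 := by linarith
      exact_mod_cast h'
    · intro h
      have h' : (k.2 : ℝ) ≤ k.1 := by exact_mod_cast h
      linarith
  dsimp only
  rw [if_congr h3 rfl rfl, if_congr h4 rfl rfl, hp]
  by_cases h5 : -k.1 < k.2 <;> by_cases h6 : k.2 ≤ k.1 <;> simp [h5, h6]

private theorem mem_sqa75 (N : ℕ) (k : ℤ × ℤ) : k ∈ sqa N ↔ ((N : ℤ) ≤ |k.1| ∨ (N : ℤ) ≤ |k.2|) ∧ |k.1| < 2 * N ∧ |k.2| < 2 * N := by
  unfold sqa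
  rw [Finset.mem_filter]
  refine ⟨fun h => h.2, fun h => ⟨?_, h⟩⟩
  unfold box
  rw [Finset.mem_product, Finset.mem_Icc, Finset.mem_Icc]
  have h1 := abs_lt.1 h.2.1
  have h2 := abs_lt.1 h.2.2
  push_cast
  omega

private theorem sqa_rt75 (N : ℕ) (k : ℤ × ℤ) : rt92 k ∈ sqa N ↔ k ∈ sqa N := by
  rw [mem_sqa75, mem_sqa75]
  unfold rt92
  simp only [abs_neg]
  tauto

private theorem sqa_image75 (N : ℕ) : (sqa N).image rt92 = sqa N := by
  ext k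
  rw [Finset.mem_image]
  constructor
  · rintro ⟨l, hl, rfl⟩
    exact (sqa_rt75 N l).2 hl
  · intro hk
    refine ⟨(k.2, -k.1), ?_, ?_⟩
    · rw [← sqa_rt75]
      unfold rt92
      simpa using hk
    · unfold rt92
      simp

private theorem rt_add75 (k l : ℤ × ℤ) : rt92 (k + l) = rt92 k + rt92 l := by
  unfold rt92
  exact Prod.ext (by simp only [Prod.fst_add, Prod.snd_add]; ring) (by simp only [Prod.fst_add, Prod.snd_add])

private theorem sqa_rot75 (N : ℕ) (a : ℤ × ℤ → ℂ) : m12 (sqa N) (fun k => a (rt92 k)) = m12 (sqa N) a := by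
  have h := Pool.Agent.Helper60.LT.m12_image rt92 rt_add75 rt_inj92 (sqa N) a
  rw [sqa_image75] at h
  exact h.symm

private theorem cn_pos75 {N : ℕ} {k : ℤ × ℤ} (hk : k ∈ cn N) : 0 < k.1 := (mem_cn75 hk).1

private theorem ph75 (γ : ℝ → ℝ) {k : ℤ × ℤ} (hk : 0 < k.1) (φ : ℝ) :
    hom γ ((k.1 : ℝ) * cos φ - k.2 * sin φ, (k.1 : ℝ) * sin φ + k.2 * cos φ) = (k.1 : ℝ) * hom γ (vr φ (tt 0 k)) := by
  have h1 : (0 : ℝ) < k.1 := by exact_mod_cast hk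
  rw [← Pool.Agent.Helper92.LA.hom_smul γ h1]
  congr 1
  unfold vr tt
  simp only [uu]
  norm_num
  constructor <;> field_simp

private theorem fk_f0_75 (k : ℤ × ℤ) : fk f0 k = ((k.1 : ℝ), (k.2 : ℝ)) := by
  unfold fk Pool.Agent.Helper22.LP.fv f0
  simp

private theorem r1_75 (k : ℤ × ℤ) : (((rt92 k).1 : ℝ), ((rt92 k).2 : ℝ)) = ((k.1 : ℝ) * cos (π / 2) - k.2 * sin (π / 2), (k.1 : ℝ) * sin (π / 2) + k.2 * cos (π / 2)) := by
  rw [cos_pi_div_two, sin_pi_div_two]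
  unfold rt92
  simp

private theorem r2_75 (k : ℤ × ℤ) : (((rt92 (rt92 k)).1 : ℝ), ((rt92 (rt92 k)).2 : ℝ)) = ((k.1 : ℝ) * cos π - k.2 * sin π, (k.1 : ℝ) * sin π + k.2 * cos π) := by
  rw [cos_pi, sin_pi]
  unfold rt92
  simp

private theorem r3_75 (k : ℤ × ℤ) : (((rt92 (rt92 (rt92 k))).1 : ℝ), ((rt92 (rt92 (rt92 k))).2 : ℝ)) =
    ((k.1 : ℝ) * cos (3 * (π / 2)) - k.2 * sin (3 * (π / 2)), (k.1 : ℝ) * sin (3 * (π / 2)) + k.2 * cos (3 * (π / 2))) := by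
  have h1 : 3 * (π / 2) = π / 2 + π := by ring
  rw [h1, cos_add_pi, sin_add_pi, cos_pi_div_two, sin_pi_div_two]
  unfold rt92
  simp

/-- the four rotations -/
private theorem rots75 (j : ℕ) (hj : j < 4) : ∃ g : ℤ × ℤ → ℤ × ℤ,
    (∀ k, (((g k).1 : ℝ), ((g k).2 : ℝ)) = ((k.1 : ℝ) * cos ((j : ℝ) * (π / 2)) - k.2 * sin ((j : ℝ) * (π / 2)),
      (k.1 : ℝ) * sin ((j : ℝ) * (π / 2)) + k.2 * cos ((j : ℝ) * (π / 2)))) ∧
    ∀ (N : ℕ) (a : ℤ × ℤ → ℂ), m12 (sqa N) (fun k => a (g k)) = m12 (sqa N) a := by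
  interval_cases j
  · exact ⟨fun k => k, fun k => by simp, fun N a => rfl⟩
  · exact ⟨rt92, fun k => by rw [r1_75]; norm_num, fun N a => sqa_rot75 N a⟩
  · exact ⟨fun k => rt92 (rt92 k), fun k => by rw [r2_75]; congr 3 <;> (push_cast; ring_nf),
      fun N a => (sqa_rot75 N (fun k => a (rt92 k))).trans (sqa_rot75 N a)⟩
  · exact ⟨fun k => rt92 (rt92 (rt92 k)), fun k => by rw [r3_75]; norm_num,
      fun N a => (sqa_rot75 N (fun k => a (rt92 (rt92 k)))).trans ((sqa_rot75 N (fun k => a (rt92 k))).trans (sqa_rot75 N a))⟩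

/-- the cones against the member -/
private theorem cone_mem75 (γ : ℝ → ℝ) (N : ℕ) (r : ℝ) {j : ℕ} (hj : j < 4) :
    m12 (cn N) (fun k => ee (r * ((k.1 : ℝ) * hom γ (vr ((j : ℝ) * (π / 2)) (tt 0 k))))) ≤ 576 ^ 12 * m12 (sqa N) (fun k => ee (r * hom γ (fk f0 k))) := by
  obtain ⟨g, hg, hrot⟩ := rots75 j hj
  have h1 : m12 (cn N) (fun k => ee (r * ((k.1 : ℝ) * hom γ (vr ((j : ℝ) * (π / 2)) (tt 0 k))))) = m12 (cn N) (fun k => ee (r * hom γ (fk f0 (g k)))) := by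
    refine m12_congr fun k hk => ?_
    rw [fk_f0_75, hg, ph75 γ (cn_pos75 hk)]
  rw [h1]
  refine (cn_le N _).trans (le_of_eq ?_)
  rw [hrot N (fun k => ee (r * hom γ (fk f0 k)))]

/-- the moment of one member: the four cones -/
private theorem m12_mem75 (γ : ℝ → ℝ) {N : ℕ} (hN : 1 ≤ N) (r : ℝ) : m12 (sqa N) (fun k => ee (r * hom γ (fk f0 k))) ≤
    4 ^ 11 * ∑ j ∈ Finset.range 4, m12 (cn N) (fun k => ee (r * ((k.1 : ℝ) * hom γ (vr ((j : ℝ) * (π / 2)) (tt 0 k))))) := by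
  have h := m12_sqa hN (fun k => ee (r * hom γ (fk f0 k)))
  refine h.trans (le_of_eq ?_)
  rw [Finset.sum_range_succ, Finset.sum_range_succ, Finset.sum_range_succ, Finset.sum_range_succ, Finset.sum_range_zero, zero_add]
  have key : ∀ (g : ℤ × ℤ → ℤ × ℤ) (φ : ℝ), (∀ k, (((g k).1 : ℝ), ((g k).2 : ℝ)) = ((k.1 : ℝ) * cos φ - k.2 * sin φ, (k.1 : ℝ) * sin φ + k.2 * cos φ)) →
      m12 (cn N) (fun k => ee (r * hom γ (fk f0 (g k)))) = m12 (cn N) (fun k => ee (r * ((k.1 : ℝ) * hom γ (vr φ (tt 0 k))))) := by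
    intro g φ hg
    refine m12_congr fun k hk => ?_
    rw [fk_f0_75, hg, ph75 γ (cn_pos75 hk)]
  rw [key (fun k => k) (((0 : ℕ) : ℝ) * (π / 2)) (fun k => by simp), key rt92 (((1 : ℕ) : ℝ) * (π / 2)) (fun k => by rw [r1_75]; norm_num),
    key (fun k => rt92 (rt92 k)) (((2 : ℕ) : ℝ) * (π / 2)) (fun k => by rw [r2_75]; congr 3 <;> (push_cast; ring_nf)),
    key (fun k => rt92 (rt92 (rt92 k))) (((3 : ℕ) : ℝ) * (π / 2)) (fun k => by rw [r3_75]; norm_num)]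

/-- two members, the square annulus -/
theorem stab_sqa {N : ℕ} (hN : 1 ≤ N) {γ γ' : ℝ → ℝ} {κ X r : ℝ} (hκ : 0 ≤ κ) (hr : |r| ≤ 8 * X) (hκX : κ * (X * N) ≤ 1)
    (h1 : ∀ j : ℕ, j < 4 → ∀ t : ℝ, |t| ≤ 1 → |hom γ' (vr ((j : ℝ) * (π / 2)) t) - hom γ (vr ((j : ℝ) * (π / 2)) t)| ≤ κ)
    (h2 : ∀ j : ℕ, j < 4 → ∀ t t' : ℝ, |t| ≤ 1 → |t'| ≤ 1 → |(hom γ' (vr ((j : ℝ) * (π / 2)) t) - hom γ (vr ((j : ℝ) * (π / 2)) t)) -
      (hom γ' (vr ((j : ℝ) * (π / 2)) t') - hom γ (vr ((j : ℝ) * (π / 2)) t'))| ≤ κ * |t - t'|) :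
    m12 (sqa N) (fun k => ee (r * hom γ' (fk f0 k))) ≤ 4 ^ 12 * exp (3800 * 32) ^ 12 * 576 ^ 12 * m12 (sqa N) (fun k => ee (r * hom γ (fk f0 k))) := by
  have h0 : 0 ≤ m12 (sqa N) (fun k => ee (r * hom γ (fk f0 k))) := m12_nonneg _ _
  have h3 : ∀ j ∈ Finset.range 4, m12 (cn N) (fun k => ee (r * ((k.1 : ℝ) * hom γ' (vr ((j : ℝ) * (π / 2)) (tt 0 k))))) ≤
      exp (3800 * 32) ^ 12 * (576 ^ 12 * m12 (sqa N) (fun k => ee (r * hom γ (fk f0 k)))) := by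
    intro j hj
    have hj4 := Finset.mem_range.1 hj
    have h4 := stab_cone (N := N) hN (g := fun t => hom γ (vr ((j : ℝ) * (π / 2)) t)) (g' := fun t => hom γ' (vr ((j : ℝ) * (π / 2)) t)) hκ hr (h1 j hj4) (h2 j hj4)
    refine h4.trans ?_
    have h5 : exp (3800 * (32 * (κ * (X * N)))) ^ 12 ≤ exp (3800 * 32) ^ 12 := by
      refine pow_le_pow_left₀ (exp_pos _).le (exp_le_exp.2 ?_) 12
      nlinarith
    exact mul_le_mul h5 (cone_mem75 γ N r hj4) (m12_nonneg _ _) (by positivity)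
  refine (m12_mem75 γ' hN r).trans ?_
  have h6 := Finset.sum_le_sum h3
  rw [Finset.sum_const, Finset.card_range, nsmul_eq_mul] at h6
  push_cast at h6
  nlinarith

end Pool.Agent.Helper75.GD
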