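import Pool.Agent.Helper75.GD.Stab
import Pool.Agent.Helper74.QL.R4
import Pool.Agent.Helper65.QL.S2

/-!
# Exceptional sets (MP_fb29e9_nt): the twentieth moment of a phase varies slowly
-/

open MeasureTheory Real Set Filter Topology

set_option autoImplicit false

namespace Pool.Agent.Helper75.GD

open Pool.Agent.Helper22.AE
open Pool.Agent.Helper22.AC (cntc ga)
open Pool.Agent.Helper92.GC (dt tp Tq uu tt arc dd sqa m6)
open Pool.Agent.Helper75.TW (m20 IsMul20 mul20_half mul20_half_lt mul20_comp m20_congr m20_filter m20_nonneg)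
open Pool.Agent.Helper60.QL (mul20_exp m20_image)
open Pool.Agent.Helper60.RT (FR cn)
open Pool.Agent.Helper22.LP (hom fk)
open Pool.Agent.Helper92.GV (f0 rt92 rt_inj92 vr)

private theorem pw75b {ι : Type} (P : Finset ι) (f : ι → ℝ) (hf : ∀ i ∈ P, 0 ≤ f i) :
    (∑ i ∈ P, f i) ^ 20 ≤ (P.card : ℝ) ^ 19 * ∑ i ∈ P, f i ^ 20 := by
  rcases P.eq_empty_or_nonempty with hP0 | hP0
  · rw [hP0]
    simp
  · have h := pow_sum_div_card_le_sum_pow (s := P) (f := f) hf 19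
    have hcd : (0 : ℝ) < (P.card : ℝ) ^ 19 := by
      have : (0 : ℝ) < (P.card : ℝ) := by exact_mod_cast hP0.card_pos
      positivity
    rw [div_le_iff₀ hcd, mul_comm] at h
    exact h

private theorem intb75b {f : ℝ × ℝ → ℝ} (hf : Continuous f) : Integrable f (volume.restrict Tq) := by
  have h1 : IsCompact Tq := isCompact_Icc.prod isCompact_Icc
  exact hf.continuousOn.integrableOn_compact h1

/-- splitting of the twentieth moment into the fibres of a map -/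
private theorem m20_fib75b {ι : Type} [DecidableEq ι] (S : Finset (ℤ × ℤ)) (g : ℤ × ℤ → ι) (P : Finset ι) (hP : ∀ k ∈ S, g k ∈ P) (a : ℤ × ℤ → ℂ) :
    m20 S a ≤ (P.card : ℝ) ^ 19 * ∑ i ∈ P, m20 (S.filter (fun k => g k = i)) a := by
  have hc : ∀ S : Finset (ℤ × ℤ), Continuous fun c => ‖tp S a c‖ ^ 20 := fun S => (Pool.Agent.Helper92.GC.tp_cont S a).norm.pow 20
  have h1 : ∀ c, ‖tp S a c‖ ^ 20 ≤ (P.card : ℝ) ^ 19 * ∑ i ∈ P, ‖tp (S.filter (fun k => g k = i)) a c‖ ^ 20 := by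
    intro c
    have h2 : tp S a c = ∑ i ∈ P, tp (S.filter (fun k => g k = i)) a c := by
      unfold tp
      exact (Finset.sum_fiberwise_of_maps_to hP _).symm
    have h3 : ‖tp S a c‖ ≤ ∑ i ∈ P, ‖tp (S.filter (fun k => g k = i)) a c‖ := by
      rw [h2]
      exact norm_sum_le _ _
    exact (pow_le_pow_left₀ (norm_nonneg _) h3 20).trans (pw75b P (fun i => ‖tp (S.filter (fun k => g k = i)) a c‖) (fun i _ => norm_nonneg _))
  unfold m20
  rw [← integral_finsetSum _ fun i _ => intb75b (hc _), ← integral_const_mul]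
  exact integral_mono (intb75b (hc _)) (intb75b (continuous_const.mul (continuous_finsetSum _ fun i _ => hc _))) h1

open Classical in
/-- the number of the quarter -/
private noncomputable def qt75 (k : ℤ × ℤ) : ℕ :=
  if -k.1 < k.2 ∧ k.2 ≤ k.1 then 0 else if k.1 < k.2 ∧ -k.1 ≤ k.2 then 1 else if k.1 ≤ k.2 ∧ k.2 < -k.1 then 2 else 3

private theorem mem_cn75b (N : ℕ) (k : ℤ × ℤ) : k ∈ cn N ↔ k ∈ sqa N ∧ (-k.1 < k.2 ∧ k.2 ≤ k.1) := by
  unfold cn
  rw [Finset.mem_filter]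

private theorem mem_sqa75b (N : ℕ) (k : ℤ × ℤ) : k ∈ sqa N ↔ ((N : ℤ) ≤ |k.1| ∨ (N : ℤ) ≤ |k.2|) ∧ |k.1| < 2 * N ∧ |k.2| < 2 * N := by
  unfold sqa
  rw [Finset.mem_filter]
  refine ⟨fun h => h.2, fun h => ⟨?_, h⟩⟩
  unfold box
  rw [Finset.mem_product, Finset.mem_Icc, Finset.mem_Icc]
  have h1 := abs_lt.1 h.2.1
  have h2 := abs_lt.1 h.2.2
  push_cast
  omega

private theorem sqa_rt75b (N : ℕ) (k : ℤ × ℤ) : rt92 k ∈ sqa N ↔ k ∈ sqa N := by
  rw [mem_sqa75b, mem_sqa75b]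
  unfold rt92
  simp only [abs_neg]
  tauto

private theorem q0_75 (N : ℕ) : (sqa N).filter (fun k => qt75 k = 0) = cn N := by
  ext k
  rw [Finset.mem_filter, mem_cn75b]
  unfold qt75
  split_ifs <;> simp_all

private theorem q1_75 (N : ℕ) : (sqa N).filter (fun k => qt75 k = 1) = (cn N).image rt92 := by
  ext k
  rw [Finset.mem_filter, Finset.mem_image]
  constructor
  · rintro ⟨h1, h2⟩
    refine ⟨(k.2, -k.1), ?_, ?_⟩
    · rw [mem_cn75b]
      refine ⟨?_, ?_⟩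
      · rw [← sqa_rt75b]
        unfold rt92
        simpa using h1
      · unfold qt75 at h2
        simp only
        split_ifs at h2 with h3 h4 h5 <;> first | omega | (exact absurd h2 (by norm_num))
    · unfold rt92
      simp
  · rintro ⟨l, hl, rfl⟩
    rw [mem_cn75b] at hl
    refine ⟨(sqa_rt75b N l).2 hl.1, ?_⟩
    have h2 := hl.2
    unfold qt75 rt92
    simp only
    split_ifs with h3 h4 h5 <;> omega

private theorem q2_75 (N : ℕ) : (sqa N).filter (fun k => qt75 k = 2) = ((cn N).image rt92).image rt92 := by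
  ext k
  rw [Finset.mem_filter, Finset.mem_image]
  constructor
  · rintro ⟨h1, h2⟩
    refine ⟨(k.2, -k.1), ?_, ?_⟩
    · rw [Finset.mem_image]
      refine ⟨(-k.1, -k.2), ?_, ?_⟩
      · rw [mem_cn75b]
        refine ⟨?_, ?_⟩
        · rw [← sqa_rt75b, ← sqa_rt75b]
          unfold rt92
          simpa using h1
        · unfold qt75 at h2
          simp only
          split_ifs at h2 with h3 h4 h5 <;> first | omega | (exact absurd h2 (by norm_num))
      · unfold rt92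
        simp
    · unfold rt92
      simp
  · rintro ⟨l, hl, rfl⟩
    rw [Finset.mem_image] at hl
    obtain ⟨m, hm, rfl⟩ := hl
    rw [mem_cn75b] at hm
    refine ⟨(sqa_rt75b N _).2 ((sqa_rt75b N m).2 hm.1), ?_⟩
    have h2 := hm.2
    unfold qt75 rt92
    simp only
    split_ifs with h3 h4 h5 <;> omega

private theorem q3_75 {N : ℕ} (hN : 1 ≤ N) : (sqa N).filter (fun k => qt75 k = 3) = (((cn N).image rt92).image rt92).image rt92 := by
  ext k
  rw [Finset.mem_filter, Finset.mem_image]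
  constructor
  · rintro ⟨h1, h2⟩
    have h0 := (mem_sqa75b N k).1 h1
    refine ⟨(k.2, -k.1), ?_, ?_⟩
    · rw [Finset.mem_image]
      refine ⟨(-k.1, -k.2), ?_, ?_⟩
      · rw [Finset.mem_image]
        refine ⟨(-k.2, k.1), ?_, ?_⟩
        · rw [mem_cn75b]
          refine ⟨?_, ?_⟩
          · rw [← sqa_rt75b, ← sqa_rt75b, ← sqa_rt75b]
            unfold rt92
            simpa using h1
          · have h5 : k.1 ≠ 0 ∨ k.2 ≠ 0 := by
              by_contra hc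
              rw [not_or, not_not, not_not] at hc
              rw [hc.1, hc.2] at h0
              simp only [abs_zero] at h0
              have hN' : (1 : ℤ) ≤ N := by exact_mod_cast hN
              omega
            unfold qt75 at h2
            simp only
            split_ifs at h2 with h3 h4 h6 <;> first | omega | (exact absurd h2 (by norm_num))
        · unfold rt92
          simp
      · unfold rt92
        simp
    · unfold rt92
      simp
  · rintro ⟨l, hl, rfl⟩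
    rw [Finset.mem_image] at hl
    obtain ⟨m, hm, rfl⟩ := hl
    rw [Finset.mem_image] at hm
    obtain ⟨p, hp, rfl⟩ := hm
    rw [mem_cn75b] at hp
    refine ⟨(sqa_rt75b N _).2 ((sqa_rt75b N _).2 ((sqa_rt75b N p).2 hp.1)), ?_⟩
    have h2 := hp.2
    unfold qt75 rt92
    simp only
    split_ifs with h3 h4 h5 <;> omega


/-- the moment of the square annulus by the four rotations of the cone -/
theorem m20_sqa {N : ℕ} (hN : 1 ≤ N) (a : ℤ × ℤ → ℂ) :
    m20 (sqa N) a ≤ 4 ^ 19 * (m20 (cn N) a + m20 (cn N) (fun k => a (rt92 k)) + m20 (cn N) (fun k => a (rt92 (rt92 k))) + m20 (cn N) (fun k => a (rt92 (rt92 (rt92 k))))) := by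
  have hP : ∀ k ∈ sqa N, qt75 k ∈ Finset.range 4 := by
    intro k _
    rw [Finset.mem_range]
    unfold qt75
    split_ifs <;> norm_num
  have hadd : ∀ k l, rt92 (k + l) = rt92 k + rt92 l := by
    intro k l
    unfold rt92
    exact Prod.ext (by simp only [Prod.fst_add, Prod.snd_add]; ring) (by simp only [Prod.fst_add, Prod.snd_add])
  have h := m20_fib75b (sqa N) qt75 (Finset.range 4) hP a
  rw [Finset.card_range, Finset.sum_range_succ, Finset.sum_range_succ, Finset.sum_range_succ, Finset.sum_range_succ, Finset.sum_range_zero, zero_add,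
    q0_75, q1_75, q2_75, q3_75 hN] at h
  have i1 : ∀ (S : Finset (ℤ × ℤ)) (b : ℤ × ℤ → ℂ), m20 (S.image rt92) b = m20 S (fun k => b (rt92 k)) := fun S b =>
    m20_image rt92 hadd rt_inj92 S b
  rw [i1, i1, i1, i1, i1, i1] at h
  push_cast at h
  exact h

/-! ## The cone -/

private theorem mem_cn75 {N : ℕ} {k : ℤ × ℤ} (hk : k ∈ cn N) : 0 < k.1 ∧ (k.1 : ℝ) < 2 * N ∧ |(k.2 : ℝ)| ≤ k.1 := by
  unfold cn sqa at hk
  rw [Finset.mem_filter, Finset.mem_filter] at hk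
  obtain ⟨⟨-, -, h1, -⟩, h2, h3⟩ := hk
  have h4 : 0 < k.1 := by omega
  refine ⟨h4, ?_, ?_⟩
  · have h5 : k.1 < 2 * (N : ℤ) := (le_abs_self _).trans_lt h1
    exact_mod_cast h5
  · rw [abs_le]
    constructor
    · have : -k.1 ≤ k.2 := h2.le
      exact_mod_cast this
    · exact_mod_cast h3

/-- two members of a family on the cone -/
theorem stab_cone20 {N : ℕ} (hN : 1 ≤ N) {g g' : ℝ → ℝ} {κ X r : ℝ} (hκ : 0 ≤ κ) (hr : |r| ≤ 8 * X)
    (h1 : ∀ t : ℝ, |t| ≤ 1 → |g' t - g t| ≤ κ)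
    (h2 : ∀ t t' : ℝ, |t| ≤ 1 → |t'| ≤ 1 → |(g' t - g t) - (g' t' - g t')| ≤ κ * |t - t'|) :
    m20 (cn N) (fun k => ee (r * ((k.1 : ℝ) * g' (tt 0 k)))) ≤
      exp (16100 * (32 * (κ * (X * N)))) ^ 20 * m20 (cn N) (fun k => ee (r * ((k.1 : ℝ) * g (tt 0 k)))) := by
  have hN' : (0 : ℝ) < N := by exact_mod_cast hN
  have hX : 0 ≤ 8 * X := (abs_nonneg _).trans hr
  have h0 : (0 : ℝ) < 2 * N := by positivity
  have hS : ∀ k ∈ cn N, 0 < uu 0 k ∧ uu 0 k ≤ 2 * N ∧ -1 ≤ tt 0 k ∧ tt 0 k ≤ 1 := by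
    intro k hk
    obtain ⟨h3, h4, h5⟩ := mem_cn75 hk
    have h6 : (0 : ℝ) < k.1 := by exact_mod_cast h3
    have h7 : uu 0 k = k.1 := by
      unfold uu
      ring
    have h8 := abs_le.1 h5
    refine ⟨by rwa [h7], by rw [h7]; exact h4.le, ?_, ?_⟩
    · unfold tt
      rw [h7, le_div_iff₀ h6]
      linarith
    · unfold tt
      rw [h7, div_le_iff₀ h6]
      linarith
  have e0 : 32 * (κ * (X * N)) / (2 * (N : ℝ)) = 16 * X * κ := by
    field_simp
    ring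
  have ht : ∀ t ∈ Icc (-1 : ℝ) 1, |t| ≤ 1 := fun t ht => abs_le.2 ht
  have hm := mul20_exp (S := cn N) (β := 0) h0 (t₁ := -1) (t₂ := 1) (B := 32 * (κ * (X * N))) (by norm_num) hS (χ := fun t => r * (g' t - g t))
    (by
      intro t ht1
      rw [e0, abs_mul]
      have h3 := mul_le_mul hr (h1 t (ht t ht1)) (abs_nonneg _) hX
      nlinarith)
    (by
      intro x hx y hy
      rw [e0, ← mul_sub, abs_mul]
      have h3 := mul_le_mul hr (h2 x y (ht x hx) (ht y hy)) (abs_nonneg _) hX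
      have h4 : (1 : ℝ) - -1 = 2 := by norm_num
      rw [h4]
      calc |r| * |(g' x - g x) - (g' y - g y)| * 2 ≤ 8 * X * (κ * |x - y|) * 2 := by linarith
        _ = 16 * X * κ * |x - y| := by ring)
  have h3 := hm.2 (fun k => ee (r * ((k.1 : ℝ) * g (tt 0 k))))
  refine le_trans (le_of_eq (m20_congr fun k _ => ?_)) h3
  rw [← ee_add]
  congr 1
  have h7 : uu 0 k = k.1 := by
    unfold uu
    ring
  rw [h7]
  ring1

open Classical in
/-- the cone against the square annulus -/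
theorem cn_le20 (N : ℕ) (a : ℤ × ℤ → ℂ) : m20 (cn N) a ≤ 2500 ^ 20 * m20 (sqa N) a := by
  have h1 := mul20_comp (mul20_half_lt (sqa N) 1 1 0) (mul20_half (sqa N) 1 (-1) 0)
  have h2 := h1.2 a
  obtain ⟨p, hp⟩ : ∃ p : ℤ × ℤ → Prop, p = fun k => -k.1 < k.2 ∧ k.2 ≤ k.1 := ⟨_, rfl⟩
  have h := m20_filter (sqa N) p a
  have e1 : cn N = (sqa N).filter p := by
    unfold cn
    ext k
    rw [Finset.mem_filter, Finset.mem_filter, hp]
  rw [e1, h]
  have e3 : (50 * 50 : ℝ) = 2500 := by norm_num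
  rw [e3] at h2
  refine le_trans (le_of_eq (m20_congr fun k _ => ?_)) h2
  congr 1
  have h3 : (0 : ℝ) < 1 * (k.1 : ℝ) + 1 * (k.2 : ℝ) ↔ -k.1 < k.2 := by
    rw [one_mul, one_mul]
    constructor
    · intro h
      have h' : (0 : ℤ) < k.1 + k.2 := by exact_mod_cast h
      omega
    · intro h
      have h' : (0 : ℤ) < k.1 + k.2 := by omega
      exact_mod_cast h'
  have h4 : (0 : ℝ) ≤ 1 * (k.1 : ℝ) + -1 * (k.2 : ℝ) ↔ k.2 ≤ k.1 := by
    constructor
    · intro h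
      have h' : (k.2 : ℝ) ≤ k.1 := by linarith
      exact_mod_cast h'
    · intro h
      have h' : (k.2 : ℝ) ≤ k.1 := by exact_mod_cast h
      linarith
  dsimp only
  rw [if_congr h3 rfl rfl, if_congr h4 rfl rfl, hp]
  by_cases h5 : -k.1 < k.2 <;> by_cases h6 : k.2 ≤ k.1 <;> simp [h5, h6]

private theorem sqa_image75 (N : ℕ) : (sqa N).image rt92 = sqa N := by
  ext k
  rw [Finset.mem_image]
  constructor
  · rintro ⟨l, hl, rfl⟩
    exact (sqa_rt75b N l).2 hl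
  · intro hk
    refine ⟨(k.2, -k.1), ?_, ?_⟩
    · rw [← sqa_rt75b]
      unfold rt92
      simpa using hk
    · unfold rt92
      simp

private theorem rt_add75 (k l : ℤ × ℤ) : rt92 (k + l) = rt92 k + rt92 l := by
  unfold rt92
  exact Prod.ext (by simp only [Prod.fst_add, Prod.snd_add]; ring) (by simp only [Prod.fst_add, Prod.snd_add])

private theorem sqa_rot75 (N : ℕ) (a : ℤ × ℤ → ℂ) : m20 (sqa N) (fun k => a (rt92 k)) = m20 (sqa N) a := by
  have h := m20_image rt92 rt_add75 rt_inj92 (sqa N) a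
  rw [sqa_image75] at h
  exact h.symm

private theorem cn_pos75 {N : ℕ} {k : ℤ × ℤ} (hk : k ∈ cn N) : 0 < k.1 := (mem_cn75 hk).1

private theorem ph75 (γ : ℝ → ℝ) {k : ℤ × ℤ} (hk : 0 < k.1) (φ : ℝ) :
    hom γ ((k.1 : ℝ) * cos φ - k.2 * sin φ, (k.1 : ℝ) * sin φ + k.2 * cos φ) = (k.1 : ℝ) * hom γ (vr φ (tt 0 k)) := by
  have h1 : (0 : ℝ) < k.1 := by exact_mod_cast hk
  rw [← Pool.Agent.Helper92.LA.hom_smul γ h1]
  congr 1
  unfold vr tt
  simp only [uu]
  norm_num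
  constructor <;> field_simp

private theorem fk_f0_75 (k : ℤ × ℤ) : fk f0 k = ((k.1 : ℝ), (k.2 : ℝ)) := by
  unfold fk Pool.Agent.Helper22.LP.fv f0
  simp

private theorem r1_75 (k : ℤ × ℤ) : (((rt92 k).1 : ℝ), ((rt92 k).2 : ℝ)) = ((k.1 : ℝ) * cos (π / 2) - k.2 * sin (π / 2), (k.1 : ℝ) * sin (π / 2) + k.2 * cos (π / 2)) := by
  rw [cos_pi_div_two, sin_pi_div_two]
  unfold rt92
  simp

private theorem r2_75 (k : ℤ × ℤ) : (((rt92 (rt92 k)).1 : ℝ), ((rt92 (rt92 k)).2 : ℝ)) = ((k.1 : ℝ) * cos π - k.2 * sin π, (k.1 : ℝ) * sin π + k.2 * cos π) := by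
  rw [cos_pi, sin_pi]
  unfold rt92
  simp

private theorem r3_75 (k : ℤ × ℤ) : (((rt92 (rt92 (rt92 k))).1 : ℝ), ((rt92 (rt92 (rt92 k))).2 : ℝ)) =
    ((k.1 : ℝ) * cos (3 * (π / 2)) - k.2 * sin (3 * (π / 2)), (k.1 : ℝ) * sin (3 * (π / 2)) + k.2 * cos (3 * (π / 2))) := by
  have h1 : 3 * (π / 2) = π / 2 + π := by ring
  rw [h1, cos_add_pi, sin_add_pi, cos_pi_div_two, sin_pi_div_two]
  unfold rt92
  simp

/-- the four rotations -/
private theorem rots75 (j : ℕ) (hj : j < 4) : ∃ g : ℤ × ℤ → ℤ × ℤ,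
    (∀ k, (((g k).1 : ℝ), ((g k).2 : ℝ)) = ((k.1 : ℝ) * cos ((j : ℝ) * (π / 2)) - k.2 * sin ((j : ℝ) * (π / 2)),
      (k.1 : ℝ) * sin ((j : ℝ) * (π / 2)) + k.2 * cos ((j : ℝ) * (π / 2)))) ∧
    ∀ (N : ℕ) (a : ℤ × ℤ → ℂ), m20 (sqa N) (fun k => a (g k)) = m20 (sqa N) a := by
  interval_cases j
  · exact ⟨fun k => k, fun k => by simp, fun N a => rfl⟩
  · exact ⟨rt92, fun k => by rw [r1_75]; norm_num, fun N a => sqa_rot75 N a⟩
  · exact ⟨fun k => rt92 (rt92 k), fun k => by rw [r2_75]; congr 3 <;> (push_cast; ring_nf),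
      fun N a => (sqa_rot75 N (fun k => a (rt92 k))).trans (sqa_rot75 N a)⟩
  · exact ⟨fun k => rt92 (rt92 (rt92 k)), fun k => by rw [r3_75]; norm_num,
      fun N a => (sqa_rot75 N (fun k => a (rt92 (rt92 k)))).trans ((sqa_rot75 N (fun k => a (rt92 k))).trans (sqa_rot75 N a))⟩

/-- the cones against the member -/
private theorem cone_mem75 (γ : ℝ → ℝ) (N : ℕ) (r : ℝ) {j : ℕ} (hj : j < 4) :
    m20 (cn N) (fun k => ee (r * ((k.1 : ℝ) * hom γ (vr ((j : ℝ) * (π / 2)) (tt 0 k))))) ≤ 2500 ^ 20 * m20 (sqa N) (fun k => ee (r * hom γ (fk f0 k))) := by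
  obtain ⟨g, hg, hrot⟩ := rots75 j hj
  have h1 : m20 (cn N) (fun k => ee (r * ((k.1 : ℝ) * hom γ (vr ((j : ℝ) * (π / 2)) (tt 0 k))))) = m20 (cn N) (fun k => ee (r * hom γ (fk f0 (g k)))) := by
    refine m20_congr fun k hk => ?_
    rw [fk_f0_75, hg, ph75 γ (cn_pos75 hk)]
  rw [h1]
  refine (cn_le20 N _).trans (le_of_eq ?_)
  rw [hrot N (fun k => ee (r * hom γ (fk f0 k)))]

/-- the moment of one member: the four cones -/
private theorem m20_mem75 (γ : ℝ → ℝ) {N : ℕ} (hN : 1 ≤ N) (r : ℝ) : m20 (sqa N) (fun k => ee (r * hom γ (fk f0 k))) ≤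
    4 ^ 19 * ∑ j ∈ Finset.range 4, m20 (cn N) (fun k => ee (r * ((k.1 : ℝ) * hom γ (vr ((j : ℝ) * (π / 2)) (tt 0 k))))) := by
  have h := m20_sqa hN (fun k => ee (r * hom γ (fk f0 k)))
  refine h.trans (le_of_eq ?_)
  rw [Finset.sum_range_succ, Finset.sum_range_succ, Finset.sum_range_succ, Finset.sum_range_succ, Finset.sum_range_zero, zero_add]
  have key : ∀ (g : ℤ × ℤ → ℤ × ℤ) (φ : ℝ), (∀ k, (((g k).1 : ℝ), ((g k).2 : ℝ)) = ((k.1 : ℝ) * cos φ - k.2 * sin φ, (k.1 : ℝ) * sin φ + k.2 * cos φ)) →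
      m20 (cn N) (fun k => ee (r * hom γ (fk f0 (g k)))) = m20 (cn N) (fun k => ee (r * ((k.1 : ℝ) * hom γ (vr φ (tt 0 k))))) := by
    intro g φ hg
    refine m20_congr fun k hk => ?_
    rw [fk_f0_75, hg, ph75 γ (cn_pos75 hk)]
  rw [key (fun k => k) (((0 : ℕ) : ℝ) * (π / 2)) (fun k => by simp), key rt92 (((1 : ℕ) : ℝ) * (π / 2)) (fun k => by rw [r1_75]; norm_num),
    key (fun k => rt92 (rt92 k)) (((2 : ℕ) : ℝ) * (π / 2)) (fun k => by rw [r2_75]; congr 3 <;> (push_cast; ring_nf)),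
    key (fun k => rt92 (rt92 (rt92 k))) (((3 : ℕ) : ℝ) * (π / 2)) (fun k => by rw [r3_75]; norm_num)]

/-- two members, the square annulus -/
theorem stab_sqa20 {N : ℕ} (hN : 1 ≤ N) {γ γ' : ℝ → ℝ} {κ X r : ℝ} (hκ : 0 ≤ κ) (hr : |r| ≤ 8 * X) (hκX : κ * (X * N) ≤ 1)
    (h1 : ∀ j : ℕ, j < 4 → ∀ t : ℝ, |t| ≤ 1 → |hom γ' (vr ((j : ℝ) * (π / 2)) t) - hom γ (vr ((j : ℝ) * (π / 2)) t)| ≤ κ)
    (h2 : ∀ j : ℕ, j < 4 → ∀ t t' : ℝ, |t| ≤ 1 → |t'| ≤ 1 → |(hom γ' (vr ((j : ℝ) * (π / 2)) t) - hom γ (vr ((j : ℝ) * (π / 2)) t)) -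
      (hom γ' (vr ((j : ℝ) * (π / 2)) t') - hom γ (vr ((j : ℝ) * (π / 2)) t'))| ≤ κ * |t - t'|) :
    m20 (sqa N) (fun k => ee (r * hom γ' (fk f0 k))) ≤ 4 ^ 20 * exp (16100 * 32) ^ 20 * 2500 ^ 20 * m20 (sqa N) (fun k => ee (r * hom γ (fk f0 k))) := by
  have h0 : 0 ≤ m20 (sqa N) (fun k => ee (r * hom γ (fk f0 k))) := m20_nonneg _ _
  have h3 : ∀ j ∈ Finset.range 4, m20 (cn N) (fun k => ee (r * ((k.1 : ℝ) * hom γ' (vr ((j : ℝ) * (π / 2)) (tt 0 k))))) ≤
      exp (16100 * 32) ^ 20 * (2500 ^ 20 * m20 (sqa N) (fun k => ee (r * hom γ (fk f0 k)))) := by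
    intro j hj
    have hj4 := Finset.mem_range.1 hj
    have h4 := stab_cone20 (N := N) hN (g := fun t => hom γ (vr ((j : ℝ) * (π / 2)) t)) (g' := fun t => hom γ' (vr ((j : ℝ) * (π / 2)) t)) hκ hr (h1 j hj4) (h2 j hj4)
    refine h4.trans ?_
    have h5 : exp (16100 * (32 * (κ * (X * N)))) ^ 20 ≤ exp (16100 * 32) ^ 20 := by
      refine pow_le_pow_left₀ (exp_pos _).le (exp_le_exp.2 ?_) 20
      nlinarith
    exact mul_le_mul h5 (cone_mem75 γ N r hj4) (m20_nonneg _ _) (by positivity)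
  refine (m20_mem75 γ' hN r).trans ?_
  have h6 := Finset.sum_le_sum h3
  rw [Finset.sum_const, Finset.card_range, nsmul_eq_mul] at h6
  push_cast at h6
  nlinarith

end Pool.Agent.Helper75.GD
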