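import Pool.Agent.Helper75.GD.Psi
import Pool.Agent.Helper75.GD.Gen
import Pool.Agent.Helper75.GD.Wst
import Pool.Agent.Helper75.TW.Num

/-!
# Exceptional sets (MP_fb29e9_nt): one moment over the frames, the dimension of the set of large blocks
-/

open MeasureTheory Real Set Filter Topology Metric
open scoped ENNReal NNReal

set_option autoImplicit false

namespace Pool.Agent.Helper75.GD

open Pool.Agent.Helper22.AE
open Pool.Agent.Helper22.AC (cntc ga)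
open Pool.Agent.Helper22.OV (o3_k0_cont o3_k0_nonneg)
open Pool.Agent.Helper92.GC (dt tp Tq uu tt arc dd sqa m6)
open Pool.Agent.Helper92.DT (m12 m12_nonneg)
open Pool.Agent.Helper75.TW (m20 m20_nonneg J20 Mm mm_JJ mm_J20 m20_cont_coef TB TB_pos MomF)
open Pool.Agent.Helper92.LA (JJ m12_cont_coef)
open Pool.Agent.Helper22.LP (Fr fv fk fdet fv_ne nr tr nr_cos nr_sin nr_pos nr_eq hom Hf)
open Pool.Agent.Helper92.GV (f0 vr)

/-- a moment varies slowly: phases of two frames -/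
def SJ (J : Fr → (ℝ × ℝ → ℝ) → ℝ → ℕ → ℝ) (K : ℝ) : Prop :=
  ∀ (γ : ℝ → ℝ) (f f' : Fr) (X : ℝ) (N : ℕ) (κ : ℝ), 0 ≤ X → 1 ≤ N → 0 ≤ κ → κ * (X * N) ≤ 1 →
    (∀ j : ℕ, j < 4 → ∀ t : ℝ, |t| ≤ 1 → |hom γ (fv f' (vr ((j : ℝ) * (π / 2)) t).1 (vr ((j : ℝ) * (π / 2)) t).2) -
      hom γ (fv f (vr ((j : ℝ) * (π / 2)) t).1 (vr ((j : ℝ) * (π / 2)) t).2)| ≤ κ) →
    (∀ j : ℕ, j < 4 → ∀ t t' : ℝ, |t| ≤ 1 → |t'| ≤ 1 → |(hom γ (fv f' (vr ((j : ℝ) * (π / 2)) t).1 (vr ((j : ℝ) * (π / 2)) t).2) -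
      hom γ (fv f (vr ((j : ℝ) * (π / 2)) t).1 (vr ((j : ℝ) * (π / 2)) t).2)) - (hom γ (fv f' (vr ((j : ℝ) * (π / 2)) t').1 (vr ((j : ℝ) * (π / 2)) t').2) -
      hom γ (fv f (vr ((j : ℝ) * (π / 2)) t').1 (vr ((j : ℝ) * (π / 2)) t').2))| ≤ κ * |t - t'|) →
    J f' (hom γ) X N ≤ K * J f (hom γ) X N

private theorem fk_f0_75 (k : ℤ × ℤ) : fk f0 k = ((k.1 : ℝ), (k.2 : ℝ)) := by
  unfold fk Pool.Agent.Helper22.LP.fv f0
  simp

private theorem fk_hom75 (γ : ℝ → ℝ) (f : Fr) (k : ℤ × ℤ) : hom γ (fk f k) = hom (Hf γ f) (fk f0 k) := by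
  rw [hom_Hf75, fk_f0_75]
  rfl

theorem sj_JJ : SJ JJ KS := by
  intro γ f f' X N κ hX hN hκ hκX h1 h2
  have hcr : ∀ f : Fr, Continuous fun r : ℝ => m12 (sqa N) (fun k => ee (r * hom γ (fk f k))) := fun f =>
    m12_cont_coef (sqa N) (fun (r : ℝ) k => ee (r * hom γ (fk f k))) fun k _ => ee_cont.comp (continuous_id.mul continuous_const)
  unfold JJ
  rw [← integral_const_mul]
  refine setIntegral_mono_on ((hcr f').continuousOn.integrableOn_compact isCompact_Icc) ((continuous_const.mul (hcr f)).continuousOn.integrableOn_compact isCompact_Icc) measurableSet_Icc fun r hr => ?_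
  have hr0 : |r| ≤ 8 * X := by
    rw [abs_le]
    constructor
    · linarith [hr.1]
    · exact hr.2
  have e1 : ∀ f : Fr, m12 (sqa N) (fun k => ee (r * hom γ (fk f k))) = m12 (sqa N) (fun k => ee (r * hom (Hf γ f) (fk f0 k))) := by
    intro f
    congr 1
    funext k
    rw [fk_hom75]
  rw [e1, e1]
  refine stab_sqa hN hκ hr0 hκX ?_ ?_
  · intro j hj t ht
    rw [hom_Hf75, hom_Hf75]
    exact h1 j hj t ht
  · intro j hj t t' ht ht'
    rw [hom_Hf75, hom_Hf75, hom_Hf75, hom_Hf75]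
    exact h2 j hj t t' ht ht'

/-- the constant for the twentieth moment -/
noncomputable def KS20 : ℝ := 4 ^ 20 * exp (16100 * 32) ^ 20 * 2500 ^ 20

theorem KS20_pos : 0 < KS20 := by
  unfold KS20
  positivity

theorem sj_J20 : SJ J20 KS20 := by
  intro γ f f' X N κ hX hN hκ hκX h1 h2
  have hcr : ∀ f : Fr, Continuous fun r : ℝ => m20 (sqa N) (fun k => ee (r * hom γ (fk f k))) := fun f =>
    m20_cont_coef (sqa N) (fun (r : ℝ) k => ee (r * hom γ (fk f k))) fun k _ => ee_cont.comp (continuous_id.mul continuous_const)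
  unfold J20
  rw [← integral_const_mul]
  refine setIntegral_mono_on ((hcr f').continuousOn.integrableOn_compact isCompact_Icc) ((continuous_const.mul (hcr f)).continuousOn.integrableOn_compact isCompact_Icc) measurableSet_Icc fun r hr => ?_
  have hr0 : |r| ≤ 8 * X := by
    rw [abs_le]
    constructor
    · linarith [hr.1]
    · exact hr.2
  have e1 : ∀ f : Fr, m20 (sqa N) (fun k => ee (r * hom γ (fk f k))) = m20 (sqa N) (fun k => ee (r * hom (Hf γ f) (fk f0 k))) := by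
    intro f
    congr 1
    funext k
    rw [fk_hom75]
  rw [e1, e1]
  refine stab_sqa20 hN hκ hr0 hκX ?_ ?_
  · intro j hj t ht
    rw [hom_Hf75, hom_Hf75]
    exact h1 j hj t ht
  · intro j hj t t' ht ht'
    rw [hom_Hf75, hom_Hf75, hom_Hf75, hom_Hf75]
    exact h2 j hj t t' ht ht'

/-- the averaged moment of a frame -/
noncomputable def WJ (J : Fr → (ℝ × ℝ → ℝ) → ℝ → ℕ → ℝ) (H : ℝ → ℝ) (α₀ : ℝ) (p n : ℕ) (f : Fr) : ℝ :=
  ∫ α in Icc (-α₀) α₀, k0 (1 / sqrt ((2 : ℝ) ^ p * ((2 ^ n : ℕ) : ℝ))) α * J f (hom (ga H α)) ((2 : ℝ) ^ p) (2 ^ n)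

theorem WJ_nonneg {J : Fr → (ℝ × ℝ → ℝ) → ℝ → ℕ → ℝ} (hm : Mm J) (H : ℝ → ℝ) (α₀ : ℝ) (p n : ℕ) (f : Fr) : 0 ≤ WJ J H α₀ p n f := by
  unfold WJ
  exact integral_nonneg fun α => mul_nonneg (o3_k0_nonneg (beta_pos75 p n) α) (hm.nonneg _ _ _ _)

theorem WJ_joint {J : Fr → (ℝ × ℝ → ℝ) → ℝ → ℕ → ℝ} (hm : Mm J) {H : ℝ → ℝ} (hc : Continuous fun q : ℝ × (ℝ × ℝ) => hom (ga H q.1) q.2) (p n : ℕ) :
    Continuous fun q : Fr × ℝ => k0 (1 / sqrt ((2 : ℝ) ^ p * ((2 ^ n : ℕ) : ℝ))) q.2 * J q.1 (hom (ga H q.2)) ((2 : ℝ) ^ p) (2 ^ n) :=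
  ((o3_k0_cont (beta_pos75 p n)).comp continuous_snd).mul (hm.cont (fun α => hom (ga H α)) hc _ _)

theorem WJ_cont {J : Fr → (ℝ × ℝ → ℝ) → ℝ → ℕ → ℝ} (hm : Mm J) {H : ℝ → ℝ} (hc : Continuous fun q : ℝ × (ℝ × ℝ) => hom (ga H q.1) q.2) (α₀ : ℝ) (p n : ℕ) :
    Continuous (WJ J H α₀ p n) := by
  unfold WJ
  exact continuous_parametric_integral_of_continuous
    (f := fun (f : Fr) (α : ℝ) => k0 (1 / sqrt ((2 : ℝ) ^ p * ((2 ^ n : ℕ) : ℝ))) α * J f (hom (ga H α)) ((2 : ℝ) ^ p) (2 ^ n)) (WJ_joint hm hc p n) isCompact_Icc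

/-- the integral over the frames -/
theorem WJ_int {J : Fr → (ℝ × ℝ → ℝ) → ℝ → ℕ → ℝ} (hm : Mm J) {H : ℝ → ℝ} (hc : Continuous fun q : ℝ × (ℝ × ℝ) => hom (ga H q.1) q.2) {α₀ : ℝ}
    (h1 : ∀ p n : ℕ, ∫ α in Icc (-α₀) α₀, k0 (1 / sqrt ((2 : ℝ) ^ p * ((2 ^ n : ℕ) : ℝ))) α ≤ 20)
    {U : Set Fr} (hU : IsCompact U) (p n : ℕ) {D : ℝ} (hD : 0 ≤ D) (hJ : ∀ α ∈ Icc (-α₀) α₀, ∫ f in U, J f (hom (ga H α)) ((2 : ℝ) ^ p) (2 ^ n) ≤ D) :
    ∫⁻ f in U, ENNReal.ofReal (WJ J H α₀ p n f) ≤ ENNReal.ofReal (20 * D) := by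
  have hi : IntegrableOn (WJ J H α₀ p n) U := (WJ_cont hm hc α₀ p n).continuousOn.integrableOn_compact hU
  rw [← ofReal_integral_eq_lintegral_ofReal hi (Eventually.of_forall fun f => WJ_nonneg hm H α₀ p n f)]
  refine ENNReal.ofReal_le_ofReal ?_
  have hk := o3_k0_cont (beta_pos75 p n)
  have hk0 := o3_k0_nonneg (beta_pos75 p n)
  have h2 : ∫ f in U, WJ J H α₀ p n f =
      ∫ α in Icc (-α₀) α₀, k0 (1 / sqrt ((2 : ℝ) ^ p * ((2 ^ n : ℕ) : ℝ))) α * ∫ f in U, J f (hom (ga H α)) ((2 : ℝ) ^ p) (2 ^ n) := by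
    unfold WJ
    rw [integral_integral_swap]
    · refine integral_congr_ae (Eventually.of_forall fun α => ?_)
      simp only
      rw [integral_const_mul]
    · rw [Measure.prod_restrict]
      exact (WJ_joint hm hc p n).continuousOn.integrableOn_compact (hU.prod isCompact_Icc)
  rw [h2]
  have hJi : Continuous fun α => ∫ f in U, J f (hom (ga H α)) ((2 : ℝ) ^ p) (2 ^ n) := by
    refine continuous_parametric_integral_of_continuous (f := fun (α : ℝ) (f : Fr) => J f (hom (ga H α)) ((2 : ℝ) ^ p) (2 ^ n)) ?_ hU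
    exact (hm.cont (fun α => hom (ga H α)) hc _ _).comp (continuous_snd.prodMk continuous_fst)
  calc ∫ α in Icc (-α₀) α₀, k0 (1 / sqrt ((2 : ℝ) ^ p * ((2 ^ n : ℕ) : ℝ))) α * ∫ f in U, J f (hom (ga H α)) ((2 : ℝ) ^ p) (2 ^ n)
      ≤ ∫ α in Icc (-α₀) α₀, k0 (1 / sqrt ((2 : ℝ) ^ p * ((2 ^ n : ℕ) : ℝ))) α * D := by
        refine setIntegral_mono_on ?_ ?_ measurableSet_Icc (fun α hα => mul_le_mul_of_nonneg_left (hJ α hα) (hk0 α))
        · exact (hk.mul hJi).continuousOn.integrableOn_compact isCompact_Icc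
        · exact (hk.mul continuous_const).continuousOn.integrableOn_compact isCompact_Icc
    _ = (∫ α in Icc (-α₀) α₀, k0 (1 / sqrt ((2 : ℝ) ^ p * ((2 ^ n : ℕ) : ℝ))) α) * D := integral_mul_const _ _
    _ ≤ 20 * D := mul_le_mul_of_nonneg_right (h1 p n) hD

/-- the averaged moments of two close frames -/
theorem WJ_stab {J : Fr → (ℝ × ℝ → ℝ) → ℝ → ℕ → ℝ} (hm : Mm J) {K : ℝ} (hK : SJ J K) {H : ℝ → ℝ} (h5 : ContDiff ℝ 5 H) (hp : Function.Periodic H (2 * π))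
    (hc : Continuous fun q : ℝ × (ℝ × ℝ) => hom (ga H q.1) q.2) (α₀ ρ : ℝ) {g : Fr} (hf : ∀ f ∈ closedBall g ρ, fdet f ≠ 0) :
    ∃ B : ℝ, 1 ≤ B ∧ ∀ (p n : ℕ) (f f' : Fr), f ∈ closedBall g ρ → f' ∈ closedBall g ρ → dist f' f * B * ((2 : ℝ) ^ p * 2 ^ n) ≤ 1 →
      WJ J H α₀ p n f' ≤ K * WJ J H α₀ p n f := by
  have hQ := fun j : ℕ => frame_lip h5 hp ((j : ℝ) * (π / 2)) α₀ ρ hf
  choose B hB hQ using hQ
  obtain ⟨B', hB'⟩ : ∃ B' : ℝ, B' = B 0 + B 1 + B 2 + B 3 := ⟨_, rfl⟩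
  have hj : ∀ j : ℕ, j < 4 → B j ≤ B' := by
    intro j hj
    have h1 := hB 0
    have h2 := hB 1
    have h3 := hB 2
    have h4 := hB 3
    rw [hB']
    interval_cases j <;> linarith
  have hB1 : 1 ≤ B' := (hB 0).trans (hj 0 (by norm_num))
  have hB0 : 0 ≤ B' := by linarith
  refine ⟨B', hB1, fun p n f f' hf1 hf2 hff => ?_⟩
  have hX : (1 : ℝ) ≤ 2 ^ p := one_le_pow₀ (by norm_num)
  have hk := o3_k0_cont (beta_pos75 p n)
  have hk0 := o3_k0_nonneg (beta_pos75 p n)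
  have hJc : ∀ f : Fr, Continuous fun α : ℝ => J f (hom (ga H α)) ((2 : ℝ) ^ p) (2 ^ n) := fun f =>
    (hm.cont (fun α => hom (ga H α)) hc ((2 : ℝ) ^ p) (2 ^ n)).comp (continuous_const.prodMk continuous_id)
  unfold WJ
  rw [← integral_const_mul]
  refine setIntegral_mono_on ((hk.mul (hJc f')).continuousOn.integrableOn_compact isCompact_Icc)
    ((continuous_const.mul (hk.mul (hJc f))).continuousOn.integrableOn_compact isCompact_Icc) measurableSet_Icc fun α hα => ?_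
  have key : J f' (hom (ga H α)) ((2 : ℝ) ^ p) (2 ^ n) ≤ K * J f (hom (ga H α)) ((2 : ℝ) ^ p) (2 ^ n) := by
    have hd : 0 ≤ dist f' f := dist_nonneg
    refine hK (ga H α) f f' ((2 : ℝ) ^ p) (2 ^ n) (B' * dist f' f) (by linarith) Nat.one_le_two_pow (by positivity) ?_ ?_ ?_
    · push_cast
      linarith
    · intro j hj4 t ht
      refine ((hQ j α f f' (abs_le.2 hα) hf1 hf2 t t ht ht).1).trans ?_
      exact mul_le_mul_of_nonneg_right (hj j hj4) hd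
    · intro j hj4 t t' ht ht'
      refine ((hQ j α f f' (abs_le.2 hα) hf1 hf2 t t' ht ht').2).trans ?_
      exact mul_le_mul_of_nonneg_right (mul_le_mul_of_nonneg_right (hj j hj4) hd) (abs_nonneg _)
  have h1 := mul_le_mul_of_nonneg_left key (hk0 α)
  linarith

theorem vol_ball75 (x : Fr) {r : ℝ} (hr : 0 ≤ r) : volume (closedBall x (r / 2)) = ENNReal.ofReal (r ^ 4) := by
  have h1 : ∀ (x : ℝ × ℝ), volume (closedBall x (r / 2)) = ENNReal.ofReal (r ^ 2) := by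
    intro x
    have e : closedBall x (r / 2) = closedBall x.1 (r / 2) ×ˢ closedBall x.2 (r / 2) := (closedBall_prod_same x.1 x.2 (r / 2)).symm
    rw [e, Measure.volume_eq_prod, Measure.prod_prod, Real.volume_closedBall, Real.volume_closedBall, ← ENNReal.ofReal_mul (by linarith)]
    congr 1
    ring
  have e : closedBall x (r / 2) = closedBall x.1 (r / 2) ×ˢ closedBall x.2 (r / 2) := (closedBall_prod_same x.1 x.2 (r / 2)).symm
  rw [e, Measure.volume_eq_prod, Measure.prod_prod, h1, h1, ← ENNReal.ofReal_mul (by positivity)]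
  congr 1
  ring

/-- the set where infinitely many blocks of one moment are large, near a frame -/
theorem frame_dim {J : Fr → (ℝ × ℝ → ℝ) → ℝ → ℕ → ℝ} (hm : Mm J) {K : ℝ} (hK : 0 < K) (hKs : SJ J K) {H : ℝ → ℝ} (h5 : ContDiff ℝ 5 H) (hp : Function.Periodic H (2 * π))
    (hc : Continuous fun q : ℝ × (ℝ × ℝ) => hom (ga H q.1) q.2) {α₀ : ℝ}
    (h1 : ∀ p n : ℕ, ∫ α in Icc (-α₀) α₀, k0 (1 / sqrt ((2 : ℝ) ^ p * ((2 ^ n : ℕ) : ℝ))) α ≤ 20)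
    {P : (ℝ × ℝ → ℝ) → Prop} (hP : ∀ α ∈ Icc (-α₀) α₀, P (hom (ga H α))) {F : ℝ → ℝ → ℝ} {μ₁ μ₂ ν ν' θ κ : ℝ} {q : ℕ} (hq : 1 ≤ q)
    (hmom : MomF J F P μ₁ μ₂) (hμν : μ₁ ≤ ν) (hμν' : ν' ≤ μ₂) (hκ : 0 ≤ κ) (hκ4 : κ < 4)
    (hF0 : ∀ X N : ℝ, 1 ≤ X → 1 ≤ N → 0 ≤ F X N)
    (hF : ∀ X N : ℝ, 1 ≤ X → 1 ≤ N → X ^ ν ≤ N → N ≤ X ^ ν' → F X N * (X * N) ^ κ ≤ 2 * TB q θ X N) {e : ℝ} (he : 0 < e)
    {ρ : ℝ} (hρ : 0 < ρ) {g : Fr} (hg : ∀ f ∈ closedBall g (2 * ρ), 0 < fdet f) :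
    μH[4 - κ] {f | f ∈ closedBall g ρ ∧ ¬ ∃ C : ℝ, 0 ≤ C ∧ ∀ p n : ℕ, (n ≤ p ∧ ((2 : ℝ) ^ p) ^ ν ≤ (2 : ℝ) ^ n ∧ (2 : ℝ) ^ n ≤ ((2 : ℝ) ^ p) ^ ν') →
      WJ J H α₀ p n f ≤ C * (((2 : ℝ) ^ p) ^ e * TB q (θ + e) ((2 : ℝ) ^ p) (2 ^ n))} = 0 := by
  have hX0 : ∀ p : ℕ, (0 : ℝ) < 2 ^ p := fun p => by positivity
  have hX1 : ∀ p : ℕ, (1 : ℝ) ≤ 2 ^ p := fun p => one_le_pow₀ (by norm_num)
  obtain ⟨C₁, hC₁⟩ := hmom e he (closedBall g (2 * ρ)) (isCompact_closedBall g (2 * ρ)) hg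
  obtain ⟨B, hB, hst⟩ := WJ_stab hm hKs h5 hp hc α₀ (2 * ρ) (g := g) fun f hf => (hg f hf).ne'
  obtain ⟨B', hB'⟩ : ∃ B' : ℝ, B' = B + 1 / ρ := ⟨_, rfl⟩
  have hρ' : 0 < 1 / ρ := by positivity
  have hBB : B ≤ B' := by
    rw [hB']
    linarith
  have hB'1 : 1 ≤ B' := hB.trans hBB
  have hB'0 : 0 < B' := by linarith
  have hB'ρ : 1 / B' ≤ ρ := by
    rw [div_le_iff₀ hB'0, hB']
    have : ρ * (1 / ρ) = 1 := by field_simp
    nlinarith
  obtain ⟨r, hr⟩ : ∃ r : ℝ, r = (2 : ℝ) ^ (-e) := ⟨_, rfl⟩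
  have hr0 : 0 ≤ r := by
    rw [hr]
    positivity
  have hr1 : r < 1 := by
    rw [hr]
    exact rpow_lt_one_of_one_lt_of_neg (by norm_num) (by linarith)
  obtain ⟨δ, hδ⟩ : ∃ δ : ℕ → ℕ → ℝ, ∀ p n, δ p n = 1 / (B' * ((2 : ℝ) ^ p * 2 ^ n)) := ⟨_, fun _ _ => rfl⟩
  have hδ0 : ∀ p n, 0 < δ p n := fun p n => by
    rw [hδ]
    positivity
  have hδρ : ∀ p n, δ p n ≤ ρ := fun p n => by
    refine le_trans ?_ hB'ρ
    rw [hδ]
    refine one_div_le_one_div_of_le hB'0 ?_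
    have h1 := hX1 p
    have h2 := hX1 n
    have h3 : (1 : ℝ) ≤ 2 ^ p * 2 ^ n := one_le_mul_of_one_le_of_one_le h1 h2
    nlinarith
  have hδp : ∀ p n, δ p n ≤ (1 / 2 : ℝ) ^ p := fun p n => by
    rw [hδ, one_div_pow]
    refine one_div_le_one_div_of_le (hX0 p) ?_
    have h2 := hX1 n
    have h3 : (2 : ℝ) ^ p ≤ 2 ^ p * 2 ^ n := le_mul_of_one_le_right (hX0 p).le h2
    have h4 : 0 < (2 : ℝ) ^ p * 2 ^ n := mul_pos (hX0 p) (hX0 n)
    nlinarith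
  have hsub : ∀ p n, ∀ x ∈ closedBall g ρ, ∀ y, dist y x ≤ δ p n / 2 → y ∈ closedBall g (2 * ρ) := by
    intro p n x hx y hy
    rw [mem_closedBall] at hx ⊢
    have h2 := dist_triangle y x g
    have h3 := hδρ p n
    have h4 := hδ0 p n
    linarith
  refine dim_gen (μ := (volume : Measure Fr).restrict (closedBall g (2 * ρ))) (K := K) (C := 20 * |C₁| * (32 * B' ^ κ)) (r := r) (d := 4 - κ)
    (δ := δ) (m := fun p n => δ p n ^ 4) (τ := fun p n => ((2 : ℝ) ^ p) ^ e * TB q (θ + e) ((2 : ℝ) ^ p) (2 ^ n))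
    (A := fun p n => 20 * (|C₁| * (((2 : ℝ) ^ p) ^ e * F ((2 : ℝ) ^ p) (2 ^ n)))) hK (by positivity) hr0 hr1 (by linarith) (fun p n h => h.1) hδ0 hδp
    (fun p n => mul_pos (rpow_pos_of_pos (hX0 p) _) (TB_pos (hX0 p) (hX0 n))) (fun p n => by have := hδ0 p n; positivity) ?_ ?_ ?_ ?_ ?_
  · intro p n
    have := hF0 _ _ (hX1 p) (hX1 n)
    positivity
  · intro p n _ x hx
    rw [Measure.restrict_apply measurableSet_closedBall]
    have e1 : closedBall x (δ p n / 2) ∩ closedBall g (2 * ρ) = closedBall x (δ p n / 2) := inter_eq_left.2 fun y hy => hsub p n x hx y (mem_closedBall.1 hy)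
    rw [e1, vol_ball75 x (hδ0 p n).le]
  · intro p n _ x hx y hy
    refine hst p n y x (hsub p n x hx y hy) (hsub p n x hx x (by rw [dist_self]; have := hδ0 p n; linarith)) ?_
    have h2 : dist x y ≤ δ p n := by
      rw [dist_comm]
      have := hδ0 p n
      linarith
    have h3 : 0 < (2 : ℝ) ^ p * 2 ^ n := mul_pos (hX0 p) (hX0 n)
    rw [hδ, le_div_iff₀ (by positivity)] at h2
    refine le_trans ?_ h2
    have h4 : 0 ≤ dist x y := dist_nonneg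
    calc dist x y * B * ((2 : ℝ) ^ p * 2 ^ n) ≤ dist x y * B' * ((2 : ℝ) ^ p * 2 ^ n) := by gcongr
      _ = dist x y * (B' * ((2 : ℝ) ^ p * 2 ^ n)) := by ring
  · intro p n hQ
    have hF1 := hF0 _ _ (hX1 p) (hX1 n)
    refine WJ_int hm hc h1 (isCompact_closedBall g (2 * ρ)) p n (by positivity) fun α hα => ?_
    have h2 := hC₁ _ (hP α hα) ((2 : ℝ) ^ p) (hX1 p) n ((rpow_le_rpow_of_exponent_le (hX1 p) hμν).trans hQ.2.1) (hQ.2.2.trans (rpow_le_rpow_of_exponent_le (hX1 p) hμν'))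
    refine h2.trans (mul_le_mul_of_nonneg_right (le_abs_self C₁) ?_)
    positivity
  · intro p n hQ
    obtain ⟨X, hX⟩ : ∃ X : ℝ, X = (2 : ℝ) ^ p := ⟨_, rfl⟩
    obtain ⟨N, hN⟩ : ∃ N : ℝ, N = (2 : ℝ) ^ n := ⟨_, rfl⟩
    obtain ⟨dl, hdl⟩ : ∃ dl : ℝ, dl = δ p n := ⟨_, rfl⟩
    have hX1' : 1 ≤ X := by
      rw [hX]
      exact hX1 p
    have hN1' : 1 ≤ N := by
      rw [hN]
      exact hX1 n
    have hX0' : 0 < X := by linarith
    have hN0' : 0 < N := by linarith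
    have hdl0 : 0 < dl := by
      rw [hdl]
      exact hδ0 p n
    have hFXN := hF X N hX1' hN1' (by rw [hX, hN]; exact hQ.2.1) (by rw [hX, hN]; exact hQ.2.2)
    have hF1 := hF0 X N hX1' hN1'
    have hT : 0 < TB q θ X N := TB_pos hX0' hN0'
    have hTe : TB q (θ + e) X N = X ^ (q * e) * TB q θ X N := by
      unfold TB
      have h2 : X ^ (θ + e - 1 / 2) = X ^ (θ - 1 / 2) * X ^ e := by
        rw [← rpow_add hX0']
        congr 1
        ring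
      have h3 : (X ^ e) ^ q = X ^ (q * e) := by
        rw [← rpow_natCast, ← rpow_mul hX0'.le]
        congr 1
        ring
      rw [h2, ← h3]
      ring
    have hrp : r ^ p = X ^ (-e) := by
      rw [hr, hX, ← rpow_natCast, ← rpow_mul (by norm_num), ← rpow_natCast, ← rpow_mul (by norm_num)]
      congr 1
      ring
    show 20 * (|C₁| * (((2 : ℝ) ^ p) ^ e * F ((2 : ℝ) ^ p) (2 ^ n))) * (2 * δ p n) ^ (4 - κ) ≤
      20 * |C₁| * (32 * B' ^ κ) * r ^ p * (δ p n ^ 4 * (((2 : ℝ) ^ p) ^ e * TB q (θ + e) ((2 : ℝ) ^ p) (2 ^ n)))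
    rw [← hX, ← hN, ← hdl, hTe, hrp]
    have h3 : (2 * dl) ^ (4 - κ) ≤ 16 * (dl ^ 4 * (B' ^ κ * (X * N) ^ κ)) := by
      rw [mul_rpow (by norm_num) hdl0.le]
      have h4 : (2 : ℝ) ^ (4 - κ) ≤ 16 := by
        calc (2 : ℝ) ^ (4 - κ) ≤ 2 ^ (4 : ℝ) := rpow_le_rpow_of_exponent_le (by norm_num) (by linarith)
          _ = 16 := by
            rw [show (4 : ℝ) = ((4 : ℕ) : ℝ) by norm_num, rpow_natCast]
            norm_num
      have h5 : dl ^ (4 - κ) = dl ^ 4 * (B' ^ κ * (X * N) ^ κ) := by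
        have h6 : dl ^ (-κ) = B' ^ κ * (X * N) ^ κ := by
          rw [hdl, hδ, ← hX, ← hN, one_div, inv_rpow (by positivity), ← rpow_neg (by positivity), neg_neg, mul_rpow hB'0.le (by positivity)]
        rw [← h6, ← rpow_natCast dl 4, ← rpow_add hdl0]
        congr 1
      rw [h5]
      exact mul_le_mul_of_nonneg_right h4 (by positivity)
    have h7 : 1 ≤ X ^ (-e) * X ^ (q * e) := by
      rw [← rpow_add hX0']
      refine one_le_rpow hX1' ?_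
      have : (1 : ℝ) ≤ q := by exact_mod_cast hq
      nlinarith
    have hXe : 0 < X ^ e := rpow_pos_of_pos hX0' _
    calc 20 * (|C₁| * (X ^ e * F X N)) * (2 * dl) ^ (4 - κ) ≤ 20 * (|C₁| * (X ^ e * F X N)) * (16 * (dl ^ 4 * (B' ^ κ * (X * N) ^ κ))) :=
          mul_le_mul_of_nonneg_left h3 (by positivity)
      _ = (20 * |C₁| * (16 * B' ^ κ) * (dl ^ 4 * X ^ e)) * (F X N * (X * N) ^ κ) := by ring
      _ ≤ (20 * |C₁| * (16 * B' ^ κ) * (dl ^ 4 * X ^ e)) * (2 * TB q θ X N) := mul_le_mul_of_nonneg_left hFXN (by positivity)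
      _ = (20 * |C₁| * (32 * B' ^ κ) * (dl ^ 4 * (X ^ e * TB q θ X N))) * 1 := by ring
      _ ≤ (20 * |C₁| * (32 * B' ^ κ) * (dl ^ 4 * (X ^ e * TB q θ X N))) * (X ^ (-e) * X ^ (q * e)) := mul_le_mul_of_nonneg_left h7 (by positivity)
      _ = _ := by ring

end Pool.Agent.Helper75.GD
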